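import Mathlib

/-! Algebra of shifted Legendre polynomials and the positivity identity. -/

open Polynomial

noncomputable section

namespace Pool.Agent.P.MP_f074b0_an

/-- `(-s)_j (s+1)_j / j!^2`. -/
def ww {K : Type} [Field K] : ℕ → K → K
  | 0, _ => 1
  | j + 1, s => ww j s * (((j : K) - s) * (j + 1 + s)) / (j + 1) ^ 2

/-- `(1+s)_j (1-s)_j / (j! (j+1)!)`. -/
def vv : ℕ → ℂ → ℂ
  | 0, _ => 1
  | j + 1, s => vv j s * (((j : ℂ) + 1 + s) * (j + 1 - s)) / ((j + 1) * (j + 2))

section field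
variable {K : Type} [Field K] [CharZero K]

lemma n1 (j : ℕ) : ((j : K) + 1) ≠ 0 := by exact_mod_cast Nat.succ_ne_zero j
lemma n2 (j : ℕ) : ((j : K) + 2) ≠ 0 := by exact_mod_cast (by omega : j + 2 ≠ 0)

lemma ww_add_one (j : ℕ) (s : K) :
    ww (j + 1) (s + 1) = -ww j s * ((s + j + 1) * (s + j + 2)) / (j + 1) ^ 2 := by
  induction j with
  | zero => simp [ww]; ring
  | succ j ih =>
    rw [ww, ih, ww]
    have := n1 (K := K) j; have := n2 (K := K) j
    have h : ((j : K) + 1 + 1) ≠ 0 := by rw [add_assoc, one_add_one_eq_two]; assumption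
    push_cast; field_simp; ring

lemma ww_sub_one (j : ℕ) (s : K) :
    ww (j + 1) (s - 1) = -ww j s * ((s - j) * (s - j - 1)) / (j + 1) ^ 2 := by
  induction j with
  | zero => simp [ww]; ring
  | succ j ih =>
    rw [ww, ih, ww]
    have := n1 (K := K) j; have := n2 (K := K) j
    have h : ((j : K) + 1 + 1) ≠ 0 := by rw [add_assoc, one_add_one_eq_two]; assumption
    push_cast; field_simp; ring

omit [CharZero K] in
lemma ww_neg (j : ℕ) (s : K) : ww j (-s) = ww j (s - 1) := by
  induction j with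
  | zero => simp [ww]
  | succ j ih => rw [ww, ww, ih]; ring

lemma ww_shift (j : ℕ) (s : K) : ww j (s - 1) * (s + j) = ww j s * (s - j) := by
  cases j with
  | zero => simp [ww]
  | succ j =>
    rw [ww_sub_one, ww]
    have := n1 (K := K) j
    push_cast; field_simp; ring

omit [CharZero K] in
lemma ww_nat (k j : ℕ) (h : k < j) : ww j (k : K) = 0 := by
  induction j with
  | zero => omega
  | succ j ih =>
    rw [ww]
    rcases Nat.lt_succ_iff_lt_or_eq.1 h with h | h
    · rw [ih h]; simp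
    · subst h; simp

end field

lemma vv_eq (j : ℕ) (s : ℂ) : s ^ 2 * vv j s = ww j s * (s * (s - j)) / (j + 1) := by
  induction j with
  | zero => simp [vv, ww]; ring
  | succ j ih =>
    have := n1 (K := ℂ) j; have := n2 (K := ℂ) j
    have h : ((j : ℂ) + 1 + 1) ≠ 0 := by rw [add_assoc, one_add_one_eq_two]; assumption
    have e : s ^ 2 * vv (j + 1) s = (s ^ 2 * vv j s) * (((j : ℂ) + 1 + s) * (j + 1 - s)) / ((j + 1) * (j + 2)) := by
      rw [vv]; ring
    rw [e, ih, ww]; push_cast; field_simp; ring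

lemma vv_eq' (j : ℕ) (s : ℂ) :
    (s + 1) ^ 2 * vv j (s + 1) = ww j s * ((s + 1) * (s + j + 1)) / (j + 1) := by
  induction j with
  | zero => simp [vv, ww]; ring
  | succ j ih =>
    have := n1 (K := ℂ) j; have := n2 (K := ℂ) j
    have h : ((j : ℂ) + 1 + 1) ≠ 0 := by rw [add_assoc, one_add_one_eq_two]; assumption
    have e : (s + 1) ^ 2 * vv (j + 1) (s + 1) = ((s + 1) ^ 2 * vv j (s + 1)) *
        (((j : ℂ) + 1 + (s + 1)) * (j + 1 - (s + 1))) / ((j + 1) * (j + 2)) := by
      rw [vv]; ring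
    rw [e, ih, ww]; push_cast; field_simp; ring

/-- The linear functional `X^j ↦ a j` on real polynomials. -/
def fn (a : ℕ → ℂ) : ℝ[X] →ₗ[ℝ] ℂ :=
  Polynomial.lsum fun j => LinearMap.toSpanSingleton ℝ ℂ (a j)

@[simp] lemma fn_mono (a : ℕ → ℂ) (j : ℕ) (c : ℝ) : fn a (monomial j c) = c * a j := by
  simp [fn, lsum_apply, sum_monomial_index]

/-- Euler operator. -/
def th (G : ℝ[X]) : ℝ[X] := X * derivative G

lemma th_add (G H : ℝ[X]) : th (G + H) = th G + th H := by simp [th, mul_add]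

lemma th_mono (j : ℕ) (c : ℝ) : th (monomial j c) = monomial j (c * j) := by
  cases j with
  | zero => simp [th]
  | succ j => rw [th, derivative_monomial_succ, X_mul_monomial]; simp

lemma fn_C_mul (a : ℕ → ℂ) (c : ℝ) (G : ℝ[X]) : fn a (C c * G) = c * fn a G := by
  rw [← smul_eq_C_mul, map_smul]; simp

def W (s : ℂ) := fn fun j => ww j s
def V (s : ℂ) := fn fun j => vv j s

lemma E1 (s : ℂ) (G : ℝ[X]) :
    (s + 1) ^ 2 * V (s + 1) G - s ^ 2 * V s G = (2 * s + 1) * W s G := by
  induction G using Polynomial.induction_on' with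
  | add p q hp hq => simp only [map_add]; linear_combination hp + hq
  | monomial j c =>
    simp only [V, W, fn_mono]
    have h1 := vv_eq j s; have h2 := vv_eq' j s
    have := n1 (K := ℂ) j
    have : (s + 1) ^ 2 * vv j (s + 1) - s ^ 2 * vv j s = (2 * s + 1) * ww j s := by
      rw [h1, h2]; field_simp; ring
    linear_combination (c : ℂ) * this

lemma E1' (s : ℂ) (G : ℝ[X]) :
    (s + 1) ^ 2 * V (s + 1) G + s ^ 2 * V s G =
      2 * W s (th G) + W s G - 2 * W s (X * th G) - 2 * W s (X * G) := by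
  induction G using Polynomial.induction_on' with
  | add p q hp hq => simp only [map_add, th_add, mul_add]; linear_combination hp + hq
  | monomial j c =>
    simp only [V, W, fn_mono, th_mono, X_mul_monomial]
    have h1 := vv_eq j s; have h2 := vv_eq' j s
    have := n1 (K := ℂ) j
    have : (s + 1) ^ 2 * vv j (s + 1) + s ^ 2 * vv j s =
        (2 * j + 1) * ww j s - 2 * (j + 1) * ww (j + 1) s := by
      rw [h1, h2, ww]; field_simp; ring
    push_cast
    linear_combination (c : ℂ) * this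

lemma E2 (s : ℂ) (G : ℝ[X]) :
    (s + 1) ^ 4 * W (s + 1) G - s ^ 4 * W (s - 1) G = (2 * s + 1) *
      (-2 * W s (derivative (th (th G))) + 4 * W s (th (th (th G))) + 6 * W s (th (th G))
        + 4 * W s (th G) + W s G - 2 * W s (X * th (th (th G))) - 6 * W s (X * th (th G))
        - 6 * W s (X * th G) - 2 * W s (X * G)) := by
  induction G using Polynomial.induction_on' with
  | add p q hp hq => simp only [map_add, th_add, mul_add] at *; linear_combination hp + hq
  | monomial j c =>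
    simp only [W, fn_mono, th_mono, X_mul_monomial]
    cases j with
    | zero => simp [ww]; ring
    | succ j =>
      rw [derivative_monomial_succ, fn_mono, ww_add_one, ww_sub_one]
      simp only [ww]
      have := n1 (K := ℂ) j
      have h : ((j : ℂ) + 1 + 1) ≠ 0 := by rw [add_assoc, one_add_one_eq_two]; exact n2 j
      push_cast; field_simp; ring

lemma E3 (s : ℂ) (G : ℝ[X]) :
    (s + 1) ^ 2 * W (s + 1) G - s ^ 2 * W (s - 1) G = (2 * s + 1) *
      (2 * W s (th G) + W s G - 2 * W s (derivative G)) := by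
  induction G using Polynomial.induction_on' with
  | add p q hp hq => simp only [map_add, th_add, mul_add] at *; linear_combination hp + hq
  | monomial j c =>
    simp only [W, fn_mono, th_mono]
    cases j with
    | zero => simp [ww]; ring
    | succ j =>
      rw [derivative_monomial_succ, fn_mono, ww_add_one, ww_sub_one, ww]
      have := n1 (K := ℂ) j
      push_cast; field_simp; ring

/-- The shifted Legendre polynomial `P_k(1-2X)`. -/
def Lg (k : ℕ) : ℝ[X] := ∑ i ∈ Finset.range (k + 1), monomial i (ww i (k : ℝ))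

lemma coeff_Lg (k i : ℕ) : (Lg k).coeff i = ww i (k : ℝ) := by
  simp only [Lg, finsetSum_coeff, coeff_monomial]
  rw [Finset.sum_ite_eq' (Finset.range (k + 1)) i]
  split_ifs with h
  · rfl
  · rw [ww_nat]; simp at h; omega

lemma coeff_th (G : ℝ[X]) (i : ℕ) : (th G).coeff i = G.coeff i * i := by
  cases i with
  | zero => simp [th]
  | succ i => rw [th, coeff_X_mul, coeff_derivative]; push_cast; ring

lemma natDegree_Lg (k : ℕ) : (Lg k).natDegree ≤ k := by
  rw [natDegree_le_iff_coeff_eq_zero]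
  intro i hi; rw [coeff_Lg, ww_nat _ _ hi]

lemma Lg_ode (k : ℕ) : X * (1 - X) * derivative (derivative (Lg k)) + (1 - 2 * X) * derivative (Lg k)
    + C ((k : ℝ) * (k + 1)) * Lg k = 0 := by
  have h : derivative (th (Lg k)) - th (th (Lg k)) - th (Lg k) + C ((k : ℝ) * (k + 1)) * Lg k = 0 := by
    ext i
    simp only [coeff_add, coeff_sub, coeff_derivative, coeff_th, coeff_C_mul, coeff_Lg, coeff_zero, ww]
    have := n1 (K := ℝ) i
    push_cast; field_simp; ring
  simp only [th, derivative_mul, derivative_X] at h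
  linear_combination h

/-- `±` the reproducing kernel at the centre. -/
def Rh (m : ℕ) : ℝ[X] := C ((m : ℝ) + 1) * Lg m + th (Lg m)

lemma Rh_eq (m : ℕ) : Rh m = C ((m : ℝ) + 1) * Lg (m + 1) - th (Lg (m + 1)) := by
  ext i
  simp only [Rh, coeff_add, coeff_sub, coeff_th, coeff_C_mul, coeff_Lg]
  have := ww_shift i ((m : ℝ) + 1)
  simp only [add_sub_cancel_right] at this
  push_cast
  linear_combination this

lemma Rh_sq (m : ℕ) : Rh m ^ 2 =
    ∑ k ∈ Finset.range (m + 1), C (2 * (k : ℝ) + 1) * derivative (X * Lg k ^ 2) := by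
  induction m with
  | zero =>
    have : Lg 0 = 1 := by simp [Lg, ww]
    simp [Rh, this, th]
  | succ m ih =>
    rw [Finset.sum_range_succ, ← ih, Rh_eq m, Rh]
    simp only [th, derivative_mul, derivative_X, derivative_pow, map_add, map_mul, Nat.cast_add,
      Nat.cast_one, map_one, C_ofNat, Nat.cast_ofNat]
    norm_num
    ring

lemma natDegree_Rh (m : ℕ) : (Rh m).natDegree ≤ m := by
  rw [natDegree_le_iff_coeff_eq_zero]
  intro i hi
  simp only [Rh, coeff_add, coeff_C_mul, coeff_th, coeff_Lg, ww_nat _ _ hi]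
  simp

lemma Lg_one (k : ℕ) : (Lg k).eval 1 = (-1) ^ k := by
  induction k with
  | zero => simp [Lg, ww]
  | succ k ih =>
    have h1 := congrArg (eval 1) (Lg_ode k)
    have h2 := congrArg (eval 1) (Lg_ode (k + 1))
    have h3 := congrArg (eval 1) (Rh_eq k)
    simp only [Rh, th, eval_add, eval_mul, eval_sub, eval_X, eval_one, eval_C, eval_zero,
      eval_ofNat] at h1 h2 h3
    have := n1 (K := ℝ) k
    push_cast at h2
    have : ((k : ℝ) + 1) ^ 2 * (Lg (k + 1)).eval 1 = ((k : ℝ) + 1) ^ 2 * (-1) ^ (k + 1) := by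
      rw [pow_succ (-1 : ℝ) k, ← ih]; linear_combination h2 + h1 + h3
    exact mul_left_cancel₀ (pow_ne_zero 2 (n1 k)) this

/-- The polynomial `λ_k(s)`. -/
def lam (k : ℕ) (s : ℂ) : ℂ := W s ((1 - X) ^ k)

lemma lam_diff (k : ℕ) (s : ℂ) :
    (s + 1) ^ 2 * lam k (s + 1) - s ^ 2 * lam k (s - 1) = (2 * s + 1) * (2 * k + 1) * lam k s := by
  have h : C 2 * th ((1 - X) ^ k) + (1 - X) ^ k - C 2 * derivative ((1 - X : ℝ[X]) ^ k)
      = C (2 * (k : ℝ) + 1) * (1 - X) ^ k := by
    cases k with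
    | zero => simp [th]
    | succ k =>
      simp only [th, derivative_pow, map_add, map_mul, Nat.cast_add, Nat.cast_one, map_one,
        C_ofNat, derivative_sub, derivative_one, derivative_X, Nat.add_sub_cancel]
      ring
  have h2 := congrArg (W s) h
  rw [W, fn_C_mul _ (2 * (k : ℝ) + 1)] at h2
  simp only [map_add, map_sub, fn_C_mul] at h2
  have := E3 s ((1 - X) ^ k)
  simp only [lam, W] at *
  push_cast at h2
  linear_combination this + (2 * s + 1) * h2

lemma appell (k : ℕ) (s : ℂ) :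
    (s + 1) ^ 4 * W (s + 1) (Lg k ^ 2) - s ^ 4 * W (s - 1) (Lg k ^ 2) =
      (2 * s + 1) * (2 * k + 1) ^ 2 * ((s + 1) ^ 2 * V (s + 1) (Lg k ^ 2) + s ^ 2 * V s (Lg k ^ 2)) := by
  set G := Lg k ^ 2 with hG
  have e1 := Lg_ode k
  have e2 := congrArg derivative e1
  have h : C (-2) * derivative (th (th G)) + C 4 * th (th (th G)) + C 6 * th (th G) + C 4 * th G + G
      - C 2 * (X * th (th (th G))) - C 6 * (X * th (th G)) - C 6 * (X * th G) - C 2 * (X * G) =
      C ((2 * (k : ℝ) + 1) ^ 2) * (C 2 * th G + G - C 2 * (X * th G) - C 2 * (X * G)) := by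
    simp only [hG, th, sq, derivative_mul, derivative_sub, derivative_X, derivative_one,
      map_add, map_mul, map_neg, map_one, C_ofNat, derivative_zero, derivative_ofNat,
      derivative_natCast, map_natCast] at *
    linear_combination (-4 * X * (1 - X) * Lg k) * e2 +
      (-12 * X * (1 - X) * derivative (Lg k) - (4 - 8 * X) * Lg k) * e1
  have h2 := congrArg (W s) h
  simp only [W, map_add, map_sub, fn_C_mul] at h2
  have a := E2 s G
  have b := E1' s G
  simp only [W] at a b ⊢
  push_cast at h2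
  rw [a, b]
  linear_combination (2 * s + 1) * h2

/-- Polynomial functions. -/
def IsPF (f : ℂ → ℂ) : Prop := ∃ p : ℂ[X], ∀ s, f s = p.eval s

lemma IsPF.const (c : ℂ) : IsPF fun _ => c := ⟨C c, by simp⟩
lemma IsPF.id : IsPF fun s => s := ⟨X, by simp⟩
lemma IsPF.add {f g : ℂ → ℂ} (hf : IsPF f) (hg : IsPF g) : IsPF fun s => f s + g s := by
  obtain ⟨p, hp⟩ := hf; obtain ⟨q, hq⟩ := hg; exact ⟨p + q, by simp [hp, hq]⟩
lemma IsPF.sub {f g : ℂ → ℂ} (hf : IsPF f) (hg : IsPF g) : IsPF fun s => f s - g s := by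
  obtain ⟨p, hp⟩ := hf; obtain ⟨q, hq⟩ := hg; exact ⟨p - q, by simp [hp, hq]⟩
lemma IsPF.mul {f g : ℂ → ℂ} (hf : IsPF f) (hg : IsPF g) : IsPF fun s => f s * g s := by
  obtain ⟨p, hp⟩ := hf; obtain ⟨q, hq⟩ := hg; exact ⟨p * q, by simp [hp, hq]⟩
lemma IsPF.comp {f g : ℂ → ℂ} (hf : IsPF f) (hg : IsPF g) : IsPF fun s => f (g s) := by
  obtain ⟨p, hp⟩ := hf; obtain ⟨q, hq⟩ := hg; exact ⟨p.comp q, by simp [hp, hq, eval_comp]⟩
lemma IsPF.div {f : ℂ → ℂ} (hf : IsPF f) (c : ℂ) : IsPF fun s => f s / c := by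
  simp only [div_eq_mul_inv]; exact hf.mul (.const _)

lemma IsPF.fn {a : ℕ → ℂ → ℂ} (h : ∀ j, IsPF (a j)) (G : ℝ[X]) :
    IsPF fun s => fn (fun j => a j s) G := by
  induction G using Polynomial.induction_on' with
  | add p q hp hq => simp only [map_add]; exact hp.add hq
  | monomial j c => simp only [fn_mono]; exact (IsPF.const _).mul (h j)

lemma isPF_ww (j : ℕ) : IsPF (ww j) := by
  induction j with
  | zero => exact .const 1
  | succ j ih =>
    exact (ih.mul (((IsPF.const _).sub .id).mul ((IsPF.const _).add .id))).div _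

lemma isPF_vv (j : ℕ) : IsPF (vv j) := by
  induction j with
  | zero => exact .const 1
  | succ j ih =>
    exact (ih.mul (((IsPF.const _).add .id).mul ((IsPF.const _).sub .id))).div _

lemma IsPF.eq_of_nat {f g : ℂ → ℂ} (hf : IsPF f) (hg : IsPF g) (h : ∀ m : ℕ, f m = g m) (s : ℂ) :
    f s = g s := by
  obtain ⟨p, hp⟩ := hf; obtain ⟨q, hq⟩ := hg
  have : p = q := by
    apply Polynomial.eq_of_infinite_eval_eq
    refine Set.Infinite.mono ?_ (Set.infinite_range_of_injective (Nat.cast_injective (R := ℂ)))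
    rintro _ ⟨m, rfl⟩
    simp only [Set.mem_ofPred_eq, ← hp, ← hq, h]
  rw [hp, hq, this]

lemma W_zero (G : ℝ[X]) : W 0 G = (G.eval 0 : ℝ) := by
  induction G using Polynomial.induction_on' with
  | add p q hp hq => simp [hp, hq]
  | monomial j c =>
    cases j with
    | zero => rw [W, fn_mono]; simp [ww]
    | succ j =>
      have := ww_nat (K := ℂ) 0 (j + 1) (by omega)
      simp only [Nat.cast_zero] at this
      simp [W, this]

lemma key_nat (k m : ℕ) :
    (2 * k + 1) * ((m : ℂ) ^ 2 * V m (Lg k ^ 2)) = (m : ℂ) ^ 2 * (lam k m * lam k (m - 1)) ∧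
    W m (Lg k ^ 2) = lam k m ^ 2 ∧
    (m : ℂ) ^ 4 * W (m - 1) (Lg k ^ 2) = (m : ℂ) ^ 4 * lam k (m - 1) ^ 2 := by
  induction m with
  | zero =>
    refine ⟨by simp, ?_, by simp⟩
    have : (Lg k).eval 0 = 1 := by rw [← coeff_zero_eq_eval_zero, coeff_Lg, ww]
    simp [lam, W_zero, this]
  | succ m ih =>
    obtain ⟨h1, h2, h3⟩ := ih
    have a := E1 m (Lg k ^ 2)
    have b := appell k m
    have c := lam_diff k m
    push_cast
    rw [add_sub_cancel_right]
    have z1 : (2 * k + 1) * (((m : ℂ) + 1) ^ 2 * V (m + 1) (Lg k ^ 2)) =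
        ((m : ℂ) + 1) ^ 2 * (lam k (m + 1) * lam k m) := by
      linear_combination (2 * k + 1) * a + h1 + (2 * k + 1) * (2 * m + 1) * h2 - lam k m * c
    refine ⟨z1, ?_, by rw [h2]⟩
    apply mul_left_cancel₀ (pow_ne_zero 4 (n1 (K := ℂ) m))
    linear_combination b + h3 + (2 * m + 1) * (2 * k + 1) * (z1 + h1)
      - (((m : ℂ) + 1) ^ 2 * lam k (m + 1) + (m : ℂ) ^ 2 * lam k (m - 1)) * c

lemma key (k : ℕ) (s : ℂ) (hs : s ≠ 0) :
    (2 * k + 1) * V s (Lg k ^ 2) = lam k s * lam k (-s) := by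
  have hl : IsPF (lam k) := IsPF.fn isPF_ww _
  have h := IsPF.eq_of_nat (f := fun s => (2 * k + 1) * (s ^ 2 * V s (Lg k ^ 2)))
    (g := fun s => s ^ 2 * (lam k s * lam k (s - 1)))
    (by simp only [sq (_ : ℂ)]; exact (IsPF.const _).mul ((IsPF.id.mul .id).mul (IsPF.fn isPF_vv _)))
    (by
      simp only [sq (_ : ℂ)]
      exact (IsPF.id.mul .id).mul (hl.mul (hl.comp (IsPF.id.sub (.const _)))))
    (fun m => (key_nat k m).1) s
  have e : lam k (-s) = lam k (s - 1) := by simp only [lam, W, ww_neg]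
  rw [e]
  apply mul_left_cancel₀ (pow_ne_zero 2 hs)
  linear_combination h

/-- `E_{2+j}` evaluated at `μ`. -/
def ee : ℕ → ℂ → ℂ
  | 0, _ => 1
  | j + 1, μ => ee j μ * (((j : ℂ) + 2) * (j + 1) - μ) / (j + 2) ^ 2

/-- The spherical polynomial. -/
def PP (G : ℝ[X]) (s : ℂ) : ℂ := fn (fun j => ee j (s * (s - 1))) G

lemma ee_eq (j : ℕ) (s : ℂ) :
    (1 + s) * ee j ((1 + s) * (1 + s - 1)) = vv j s * (1 + s + j) / (j + 1) := by
  induction j with
  | zero => simp [ee, vv]
  | succ j ih =>
    have := n1 (K := ℂ) j; have := n2 (K := ℂ) j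
    have h : ((j : ℂ) + 1 + 1) ≠ 0 := by rw [add_assoc, one_add_one_eq_two]; assumption
    have e : (1 + s) * ee (j + 1) ((1 + s) * (1 + s - 1)) = ((1 + s) * ee j ((1 + s) * (1 + s - 1))) *
      (((j : ℂ) + 2) * (j + 1) - (1 + s) * (1 + s - 1)) / (j + 2) ^ 2 := by rw [ee]; ring
    rw [e, ih, vv]; push_cast; field_simp; ring

lemma vv_neg (j : ℕ) (s : ℂ) : vv j (-s) = vv j s := by
  induction j with
  | zero => simp [vv]
  | succ j ih => rw [vv, vv, ih]; ring

lemma PP_diff (G : ℝ[X]) (s : ℂ) :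
    (1 + s) * PP (derivative (X * G)) (1 + s) - (1 + -s) * PP (derivative (X * G)) (1 + -s)
      = 2 * s * V s G := by
  induction G using Polynomial.induction_on' with
  | add p q hp hq => simp only [PP, map_add, mul_add] at *; linear_combination hp + hq
  | monomial j c =>
    simp only [PP, V, X_mul_monomial, derivative_monomial_succ, fn_mono]
    have a := ee_eq j s
    have b := ee_eq j (-s)
    rw [vv_neg] at b
    have := n1 (K := ℂ) j
    have a' : (1 + s) * ee j ((1 + s) * (1 + s - 1)) * (j + 1) = vv j s * (1 + s + j) := by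
      rw [a]; field_simp
    have b' : (1 + -s) * ee j ((1 + -s) * (1 + -s - 1)) * (j + 1) = vv j s * (1 + -s + j) := by
      rw [b]; field_simp
    push_cast
    linear_combination (c : ℂ) * (a' - b')

lemma PP_Rh (m : ℕ) (s : ℂ) (hs : s ≠ 0) :
    (1 + s) * PP (Rh m ^ 2) (1 + s) - (1 + -s) * PP (Rh m ^ 2) (1 + -s) =
      2 * s * ∑ k ∈ Finset.range (m + 1), lam k s * lam k (-s) := by
  rw [Rh_sq]
  simp only [PP, map_sum, fn_C_mul, Finset.mul_sum, ← Finset.sum_sub_distrib]
  refine Finset.sum_congr rfl fun k _ => ?_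
  have a := PP_diff (Lg k ^ 2) s
  have b := key k s hs
  simp only [PP] at a
  push_cast
  linear_combination (2 * k + 1) * a + 2 * s * b

lemma conj_fn (a : ℕ → ℂ) (G : ℝ[X]) :
    (starRingEnd ℂ) (fn a G) = fn (fun j => (starRingEnd ℂ) (a j)) G := by
  induction G using Polynomial.induction_on' with
  | add p q hp hq => simp [hp, hq]
  | monomial j c => simp

lemma conj_ww (j : ℕ) (s : ℂ) : (starRingEnd ℂ) (ww j s) = ww j ((starRingEnd ℂ) s) := by
  induction j with
  | zero => simp [ww]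
  | succ j ih => simp [ww, ih]

lemma conj_ee (j : ℕ) (s : ℂ) : (starRingEnd ℂ) (ee j s) = ee j ((starRingEnd ℂ) s) := by
  induction j with
  | zero => simp [ee]
  | succ j ih => simp [ee, ih, map_ofNat]

lemma conj_PP (G : ℝ[X]) (s : ℂ) : (starRingEnd ℂ) (PP G s) = PP G ((starRingEnd ℂ) s) := by
  simp [PP, conj_fn, conj_ee]

lemma PP_symm (G : ℝ[X]) (s : ℂ) : PP G (1 - s) = PP G s := by
  have : (1 - s) * (1 - s - 1) = s * (s - 1) := by ring
  simp only [PP, this]

lemma isPF_ee (j : ℕ) : IsPF (ee j) := by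
  induction j with
  | zero => exact .const 1
  | succ j ih => exact (ih.mul ((IsPF.const _).sub .id)).div _

lemma isPF_PP (G : ℝ[X]) : IsPF (PP G) :=
  IsPF.fn (a := fun j s => ee j (s * (s - 1)))
    (fun j => (isPF_ee j).comp (IsPF.id.mul (IsPF.id.sub (.const _)))) G

/-- Positivity on the line `Re s = 1`. -/
lemma im_pos (m : ℕ) (y : ℝ) (hy : 0 < y) :
    0 < ((1 + y * Complex.I) * PP (Rh m ^ 2) (1 + y * Complex.I)).im := by
  have hs : (y : ℂ) * Complex.I ≠ 0 := mul_ne_zero (by exact_mod_cast hy.ne') Complex.I_ne_zero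
  have h := PP_Rh m (y * Complex.I) hs
  have c1 : (starRingEnd ℂ) ((y : ℂ) * Complex.I) = -(y * Complex.I) := by simp
  have e1 : (1 + -((y : ℂ) * Complex.I)) * PP (Rh m ^ 2) (1 + -(y * Complex.I)) =
      (starRingEnd ℂ) ((1 + y * Complex.I) * PP (Rh m ^ 2) (1 + y * Complex.I)) := by
    rw [map_mul, conj_PP, map_add, c1, map_one]
  have e2 : ∀ k, lam k (y * Complex.I) * lam k (-(y * Complex.I)) =
      (Complex.normSq (lam k (y * Complex.I)) : ℂ) := by
    intro k
    rw [← Complex.mul_conj]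
    simp only [lam, W, conj_fn, conj_ww, c1]
  rw [e1, Complex.sub_conj] at h
  simp only [e2] at h
  have h' := congrArg Complex.im h
  simp only [← Complex.ofReal_sum] at h'
  simp at h'
  have hpos : 0 < ∑ k ∈ Finset.range (m + 1), Complex.normSq (lam k (y * Complex.I)) := by
    rw [Finset.sum_range_succ']
    have : lam 0 (y * Complex.I) = 1 := by
      have := fn_mono (fun j => ww j ((y : ℂ) * Complex.I)) 0 1
      simpa [lam, W, ww] using this
    rw [this]
    have := Finset.sum_nonneg (s := Finset.range m)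
      (fun k _ => Complex.normSq_nonneg (lam (k + 1) (y * Complex.I)))
    simp only [map_one]; linarith
  have := mul_pos hy hpos
  simp only [Complex.mul_im, Complex.add_re, Complex.add_im, Complex.one_re, Complex.one_im,
    Complex.mul_re, Complex.ofReal_re, Complex.ofReal_im, Complex.I_re, Complex.I_im] at *
  nlinarith

end Pool.Agent.P.MP_f074b0_an
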