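import Pool.Agent.P.MP_f074b0_an.Weak

/-! Localisation argument: weak convergence of the shifted symbols gives compactness. -/

open MeasureTheory Metric Complex Filter Topology Set Polynomial
open scoped ENNReal ComplexConjugate InnerProductSpace

noncomputable section

namespace Pool.Agent.P.MP_f074b0_an

variable {m : ℕ}

lemma norm_sq_L2 (F : Lp ℂ 2 dA) : ‖F‖ ^ 2 = ∫ u, ‖F u‖ ^ 2 ∂dA := by
  apply Complex.ofReal_injective
  rw [← integral_complex_ofReal, ofReal_pow, ← coe_algebraMap, ← inner_self_eq_norm_sq_to_K, inner_L2]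
  congr 1; ext u; rw [← normsq_cplx]; simp

lemma norm_sq_ev (h : polyBergman (m + 1)) : ∫ u, ‖ev h u‖ ^ 2 ∂dA = ‖h‖ ^ 2 := by
  rw [Submodule.coe_norm, norm_sq_L2]
  exact (integral_congr_ae ((ev_ae h).mono fun u hu => by simp only [hu])).symm

lemma memLp_ev (h : polyBergman (m + 1)) : MemLp (ev h) 2 dA :=
  (memLp_congr_ae (ev_ae h)).1 (Lp.memLp _)

/-- Cut-off function. -/
def ch (σ x : ℝ) : ℝ := if σ < x then 1 else 0

@[fun_prop] lemma measurable_ch (σ : ℝ) : Measurable (ch σ) :=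
  Measurable.ite measurableSet_Ioi measurable_const measurable_const

lemma ch_nonneg (σ x : ℝ) : 0 ≤ ch σ x := by unfold ch; split_ifs <;> norm_num
lemma ch_le (σ x : ℝ) : ch σ x ≤ 1 := by unfold ch; split_ifs <;> norm_num

lemma rho_ph {a w : ℂ} (ha : ‖a‖ < 1) (hw : ‖w‖ < 1) : rho a (ph a w) = yy w := by
  rw [← yy_ph ha (norm_ph_lt ha hw).le, ph_ph ha hw.le]

lemma loc (h : polyBergman (m + 1)) {a : ℂ} (ha : ‖a‖ < 1) : ∃ h' : polyBergman (m + 1),
    (∀ w, ‖w‖ < 1 / 2 → ev h' (2 * w) = JJ m a w * ev h (ph a w)) ∧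
      ‖h'‖ ^ 2 = 4 * ∫ u, ch (3 / 4) (rho a u) * ‖ev h u‖ ^ 2 ∂dA := by
  have hG := (poly_ev h).moebius ha
  obtain ⟨M, hM⟩ := (isCompact_closedBall (0 : ℂ) (1 / 2)).exists_bound_of_continuousOn
    (hG.continuousOn.mono (closedBall_subset_ball (by norm_num)))
  have hL : MemLp (fun z => JJ m a ((1 / 2 : ℝ) * z) * ev h (ph a ((1 / 2 : ℝ) * z))) 2 dA :=
    MemLp.of_bound (aesm_of_continuousOn hG.dil.continuousOn) M (ae_ball.mono fun z hz => hM _ (by
      rw [mem_closedBall_zero_iff, norm_mul, Complex.norm_real, Real.norm_of_nonneg (by norm_num)]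
      linarith))
  refine ⟨⟨hL.toLp _, _, hG.dil, hL.coeFn_toLp⟩, fun w hw => ?_, ?_⟩
  · rw [ev_eq hG.dil hL.coeFn_toLp (by rw [norm_mul]; simp only [Complex.norm_ofNat]; linarith),
      show ((1 / 2 : ℝ) : ℂ) * (2 * w) = w by push_cast; ring]
  · have h1 := cv_dil (1 / 2) (by norm_num) (by norm_num) fun w => ‖JJ m a w * ev h (ph a w)‖ ^ 2
    have h2 : ∫ u, (ball (0 : ℂ) (1 / 2)).indicator (fun w => ‖JJ m a w * ev h (ph a w)‖ ^ 2) u ∂dA =
        ∫ u, ch (3 / 4) (rho a u) * ‖ev h u‖ ^ 2 ∂dA := by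
      rw [← cv_ph ha (fun u => ch (3 / 4) (rho a u) * ‖ev h u‖ ^ 2)]
      refine integral_congr_ball fun w hw => ?_
      rw [rho_ph ha hw, ch, yy, smul_eq_mul]
      by_cases h3 : ‖w‖ < 1 / 2
      · rw [indicator_of_mem (mem_ball_zero_iff.2 h3), if_pos (by nlinarith [norm_nonneg w]),
          norm_mul, mul_pow, norm_JJ_sq m ha hw.le, one_mul]
      · rw [indicator_of_notMem (by simpa using h3), if_neg (by nlinarith)]; simp
    change ‖hL.toLp _‖ ^ 2 = _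
    rw [norm_sq_L2, ← h2, ← h1,
      integral_congr_ae (hL.coeFn_toLp.mono fun u hu => by simp only [hu]; rfl)]
    ring

def WW (σ : ℝ) (a u : ℂ) : ℝ := ch σ (rho a u) / yy a ^ 2
def cc (σ : ℝ) : ℝ := ∫ b, ch σ (yy b) / yy b ^ 2 ∂dA

@[fun_prop] lemma measurable_WW (σ : ℝ) {α : Type} [MeasurableSpace α] {f g : α → ℂ}
    (hf : Measurable f) (hg : Measurable g) : Measurable fun x => WW σ (f x) (g x) := by
  unfold WW; fun_prop

lemma WW_nonneg (σ : ℝ) (a u : ℂ) : 0 ≤ WW σ a u := div_nonneg (ch_nonneg _ _) (sq_nonneg _)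

lemma int_cc {σ : ℝ} (hσ : 0 < σ) : Integrable (fun b => ch σ (yy b) / yy b ^ 2) dA := by
  refine integrable_of_bound (Measurable.aestronglyMeasurable (by fun_prop)) (1 / σ ^ 2) fun b _ => ?_
  rw [Real.norm_of_nonneg (div_nonneg (ch_nonneg _ _) (sq_nonneg _)), ch]
  split_ifs with h
  · gcongr
  · rw [zero_div]; positivity

lemma WW_ph (σ : ℝ) {u b : ℂ} (hu : ‖u‖ < 1) (hb : ‖b‖ < 1) :
    jj u b • WW σ (ph u b) u = ch σ (yy b) / yy b ^ 2 := by
  have := (rho_pos hu hb).ne'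
  rw [WW, rho_comm, rho_ph hu hb, yy_ph hu hb.le, jj_eq hb, smul_eq_mul]; field_simp

lemma int_WW {σ : ℝ} (hσ : 0 < σ) {u : ℂ} (hu : ‖u‖ < 1) : Integrable (fun a => WW σ a u) dA :=
  (cv_ph_integrable hu _).1 ((int_cc hσ).congr (ae_ball.mono fun _ hb => (WW_ph σ hu hb).symm))

lemma integral_WW (σ : ℝ) {u : ℂ} (hu : ‖u‖ < 1) : ∫ a, WW σ a u ∂dA = cc σ := by
  rw [← cv_ph hu]; exact integral_congr_ball fun b hb => WW_ph σ hu hb

lemma cc_pos : 0 < cc (7 / 8) := by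
  rw [cc, integral_pos_iff_support_of_nonneg (fun b => div_nonneg (ch_nonneg _ _) (sq_nonneg _))
    (int_cc (by norm_num))]
  refine lt_of_lt_of_le ?_ (measure_mono (s := ball 0 (1 / 4)) fun b hb => ?_)
  · rw [dA, Measure.smul_apply, Measure.restrict_apply' measurableSet_ball,
      inter_eq_left.2 (ball_subset_ball (by norm_num)), smul_eq_mul]
    exact ENNReal.mul_pos c_ne_zero (measure_ball_pos _ _ (by norm_num)).ne'
  · rw [mem_ball_zero_iff] at hb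
    have : 7 / 8 < yy b := by unfold yy; nlinarith [norm_nonneg b]
    rw [Function.mem_support, ch, if_pos this]
    have : 0 < yy b := by linarith
    positivity

lemma avg {E : Type} [NormedAddCommGroup E] [NormedSpace ℝ E] [CompleteSpace E] {σ : ℝ} (hσ : 0 < σ)
    {e : ℂ → ℝ} (he : Measurable e) (he1 : ∀ a, ‖e a‖ ≤ 1) {φ : ℂ → E} (hφ : Integrable φ dA) :
    Integrable (fun a => ∫ u, (e a * WW σ a u) • φ u ∂dA) dA ∧
      ∫ a, ∫ u, (e a * WW σ a u) • φ u ∂dA ∂dA = ∫ u, (∫ a, e a * WW σ a u ∂dA) • φ u ∂dA := by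
  have hi : ∀ u, ‖u‖ < 1 → Integrable (fun a => e a * WW σ a u) dA := fun u hu =>
    (int_WW hσ hu).bdd_mul he.aestronglyMeasurable (.of_forall he1)
  have hm : AEStronglyMeasurable (Function.uncurry fun a u => (e a * WW σ a u) • φ u) (dA.prod dA) :=
    (Measurable.aestronglyMeasurable (f := fun p : ℂ × ℂ => e p.1 * WW σ p.1 p.2) (by fun_prop)).smul
      hφ.aestronglyMeasurable.comp_snd
  have h : Integrable (Function.uncurry fun a u => (e a * WW σ a u) • φ u) (dA.prod dA) := by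
    rw [integrable_prod_iff' hm]
    refine ⟨ae_ball.mono fun u hu => (hi u hu).smul_const (φ u), (hφ.norm.const_mul (cc σ)).mono'
      hm.norm.prod_swap.integral_prod_right' (ae_ball.mono fun u hu => ?_)⟩
    rw [← integral_WW σ hu, ← integral_mul_const]
    refine norm_integral_le_of_norm_le ((int_WW hσ hu).mul_const _) (.of_forall fun a => ?_)
    simp only [Function.uncurry, norm_norm, norm_smul, norm_mul, Real.norm_of_nonneg (WW_nonneg _ _ _)]
    gcongr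
    exact mul_le_of_le_one_left (WW_nonneg _ _ _) (he1 a)
  refine ⟨h.integral_prod_left, ?_⟩
  rw [integral_integral_swap h]
  simp only [integral_smul_const]

lemma avg_one {φ : ℂ → ℝ} (hφ : Integrable φ dA) :
    Integrable (fun a => ∫ u, WW (3 / 4) a u * φ u ∂dA) dA ∧
      ∫ a, ∫ u, WW (3 / 4) a u * φ u ∂dA ∂dA = cc (3 / 4) * ∫ u, φ u ∂dA := by
  have := avg (σ := 3 / 4) (by norm_num) (e := fun _ => 1) measurable_const (by simp) hφ
  simp only [one_mul, smul_eq_mul] at this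
  refine ⟨this.1, this.2.trans ?_⟩
  rw [← integral_const_mul]
  exact integral_congr_ball fun u hu => by rw [integral_WW _ hu]

/-- The properties of the kernel used in the localisation argument. -/
structure IsRK {A : Type} [NormedAddCommGroup A] [InnerProductSpace ℂ A] (m : ℕ) (K : ℂ → A) :
    Prop where
  cont : ContinuousOn K (ball 0 1)
  norm_sq : ∀ z, ‖z‖ < 1 → ‖K z‖ ^ 2 = (RR m).eval 1 / yy z ^ 2
  memLp : ∀ h : A, MemLp (fun u => ⟪K u, h⟫_ℂ) 2 dA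
  int_sq : ∀ h : A, ∫ u, ‖⟪K u, h⟫_ℂ‖ ^ 2 ∂dA = ‖h‖ ^ 2
  loc : ∀ (h : A) (a : ℂ), ‖a‖ < 1 → ∃ h' : A,
    (∀ w, ‖w‖ < 1 / 2 → ⟪K (2 * w), h'⟫_ℂ = JJ m a w * ⟪K (ph a w), h⟫_ℂ) ∧
      ‖h'‖ ^ 2 = 4 * ∫ u, ch (3 / 4) (rho a u) * ‖⟪K u, h⟫_ℂ‖ ^ 2 ∂dA

lemma isRK_KK (m : ℕ) : IsRK m (KK m) :=
  ⟨continuousOn_KK m, fun _ => norm_KK_sq m, memLp_ev, norm_sq_ev, fun h _ ha => loc h ha⟩

variable {A : Type} [NormedAddCommGroup A] [InnerProductSpace ℂ A] [CompleteSpace A] {K : ℂ → A}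

/-- Rank one operator of the kernel function. -/
def rk (K : ℂ → A) (u : ℂ) : A →L[ℂ] A :=
  InnerProductSpace.rankOne ℂ (K u) (K u)

omit [CompleteSpace A] in
lemma inner_rk (u : ℂ) (h g : A) :
    ⟪h, rk K u g⟫_ℂ = conj (⟪K u, h⟫_ℂ) * ⟪K u, g⟫_ℂ := by
  rw [rk, InnerProductSpace.rankOne_apply, inner_smul_right, inner_conj_symm, mul_comm]

omit [CompleteSpace A] in
lemma compact_rk (u : ℂ) : IsCompactOperator (rk K u) :=
  (isCompactOperator_of_locallyCompactSpace_dom (innerSL ℂ (K u))).clm_comp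
    (ContinuousLinearMap.toSpanSingleton ℂ (K u))

lemma continuousOn_rk (hK : IsRK m K) : ContinuousOn (rk K) (ball 0 1) :=
  ((ContinuousLinearMap.smulRightL ℂ (A) (A)).continuous.comp_continuousOn
    ((innerSL ℂ).continuous.comp_continuousOn hK.cont)).clm_apply hK.cont

lemma norm_lt_of_yy {z : ℂ} (h : 0 < yy z) : ‖z‖ < 1 := by
  unfold yy at h; nlinarith [norm_nonneg z]

lemma int_rk (hK : IsRK m K) {c ψ : ℂ → ℂ} (hc : Measurable c) (hψ : Continuous ψ) (M δ : ℝ) (hδ : 0 < δ)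
    (hM : ∀ w, ‖w‖ < 1 → ‖c w‖ ≤ M) (h : ∀ w, ‖w‖ < 1 → c w ≠ 0 → δ < yy (ψ w)) :
    Integrable (fun w => c w • rk K (ψ w)) dA := by
  have hS : MeasurableSet {w | δ < yy (ψ w)} := measurableSet_lt measurable_const (by fun_prop)
  have h1 : AEStronglyMeasurable ({w | δ < yy (ψ w)}.indicator fun w => rk K (ψ w)) dA :=
    (aestronglyMeasurable_indicator_iff hS).2 (((continuousOn_rk hK).comp hψ.continuousOn
      fun w hw => mem_ball_zero_iff.2 (norm_lt_of_yy (hδ.trans hw))).aestronglyMeasurable hS)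
  refine integrable_of_bound ((hc.aestronglyMeasurable.smul h1).congr (ae_ball.mono fun w hw => ?_))
    (M * (|(RR m).eval 1| / δ ^ 2)) fun w hw => ?_
  · by_cases h0 : c w = 0
    · simp [h0]
    · simp only [Pi.smul_apply', indicator_of_mem (show w ∈ {w | δ < yy (ψ w)} from h w hw h0)]
  · have hM0 := (norm_nonneg _).trans (hM w hw)
    by_cases h0 : c w = 0
    · simp only [h0, zero_smul, norm_zero]; positivity
    · have h2 := h w hw h0
      rw [norm_smul, rk, InnerProductSpace.norm_rankOne, ← sq,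
        hK.norm_sq _ (norm_lt_of_yy (hδ.trans h2))]
      refine mul_le_mul (hM w hw) ?_ ?_ hM0
      · gcongr; exact le_abs_self _
      · rw [← hK.norm_sq _ (norm_lt_of_yy (hδ.trans h2))]; positivity

lemma inner_integral {Θ : ℂ → A →L[ℂ] A} (hΘ : Integrable Θ dA)
    (h g : A) : ⟪h, (∫ w, Θ w ∂dA) g⟫_ℂ = ∫ w, ⟪h, Θ w g⟫_ℂ ∂dA := by
  rw [ContinuousLinearMap.integral_apply hΘ, integral_inner (hΘ.apply_continuousLinearMap g)]

/-- The local operator. -/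
def Th (K : ℂ → A) (w : ℂ) : A →L[ℂ] A :=
  (ch (7 / 8) (yy w) : ℂ) • rk K (2 * w)

lemma lt_half {w : ℂ} (h : ch (7 / 8) (yy w) ≠ 0) : ‖w‖ ^ 2 < 1 / 8 := by
  unfold ch yy at h; split_ifs at h with h1
  · linarith
  · exact absurd rfl h

lemma int_Th (hK : IsRK m K) : Integrable (Th K) dA :=
  int_rk hK (by fun_prop) (by fun_prop) 1 (1 / 2) (by norm_num) (fun w _ => by
    rw [Complex.norm_real, Real.norm_of_nonneg (ch_nonneg _ _)]; exact ch_le _ _) fun w _ h => by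
    have := lt_half (w := w) (by exact_mod_cast h)
    rw [yy, norm_mul, mul_pow]; simp only [Complex.norm_ofNat]; linarith

lemma loc_est (hK : IsRK m K) {f : ℂ → ℂ} (hf : Bd f) (h g : A) {a : ℂ} (ha : ‖a‖ < 1) :
    ‖∫ u, ch (7 / 8) (rho a u) • (conj (⟪K u, h⟫_ℂ) * (f u * ⟪K u, g⟫_ℂ)) ∂dA‖ ≤
      2 * ‖∫ w, f (ph a w) • Th K w ∂dA‖ * (∫ u, ch (3 / 4) (rho a u) * ‖⟪K u, h⟫_ℂ‖ ^ 2 ∂dA +
        ∫ u, ch (3 / 4) (rho a u) * ‖⟪K u, g⟫_ℂ‖ ^ 2 ∂dA) := by
  obtain ⟨h', h1, h2⟩ := hK.loc h a ha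
  obtain ⟨g', g1, g2⟩ := hK.loc g a ha
  obtain ⟨hm, C, hC⟩ := hf
  have hi : Integrable (fun w => f (ph a w) • Th K w) dA := (int_Th hK).smul_of_top_right
    (memLp_top_of_bound (Measurable.aestronglyMeasurable (by fun_prop)) C (.of_forall fun _ => hC _))
  have e : ∫ u, ch (7 / 8) (rho a u) • (conj (⟪K u, h⟫_ℂ) * (f u * ⟪K u, g⟫_ℂ)) ∂dA =
      ⟪h', (∫ w, f (ph a w) • Th K w ∂dA) g'⟫_ℂ := by
    rw [inner_integral hi, ← cv_ph ha]
    refine integral_congr_ball fun w hw => ?_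
    simp only [rho_ph ha hw, Th, smul_apply, inner_smul_right, inner_rk,
      real_smul]
    by_cases h0 : ch (7 / 8) (yy w) = 0
    · simp [h0]
    · have h3 : ‖w‖ < 1 / 2 := by nlinarith [lt_half h0, norm_nonneg w]
      rw [h1 w h3, g1 w h3, map_mul, ← conj_JJ_mul m ha hw.le]; ring
  rw [e]
  set M := ∫ w, f (ph a w) • Th K w ∂dA
  have h3 := (norm_inner_le_norm (𝕜 := ℂ) h' (M g')).trans
    (mul_le_mul_of_nonneg_left (M.le_opNorm g') (norm_nonneg _))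
  have h4 := mul_nonneg (norm_nonneg M) (sq_nonneg (‖h'‖ - ‖g'‖))
  have h5 : ‖h'‖ * (‖M‖ * ‖g'‖) ≤ ‖M‖ * (‖h'‖ ^ 2 + ‖g'‖ ^ 2) / 2 := by nlinarith
  rw [h2, g2] at h5
  linarith

lemma approx (hK : IsRK m K) {f : ℂ → ℂ} (hf : Bd f) (T : A →L[ℂ] A)
    (hT : ∀ h g, ⟪h, T g⟫_ℂ = ∫ u, conj (⟪K u, h⟫_ℂ) * (f u * ⟪K u, g⟫_ℂ) ∂dA) {ε r : ℝ} (hε : 0 ≤ ε)
    (hr : r < 1) (hM : ∀ a, r < ‖a‖ → ‖a‖ < 1 → ‖∫ w, f (ph a w) • Th K w ∂dA‖ ≤ ε) :
    ∃ S : A →L[ℂ] A, IsCompactOperator S ∧ ∀ h g,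
      ‖⟪h, ((cc (7 / 8) : ℂ) • T - S) g⟫_ℂ‖ ≤ 2 * ε * cc (3 / 4) * (‖h‖ ^ 2 + ‖g‖ ^ 2) := by
  obtain ⟨hm, C, hC⟩ := id hf
  have h0 := (norm_nonneg _).trans (hC 0)
  have he1 : ∀ a : ℂ, ‖ch r ‖a‖‖ ≤ 1 := fun a => by
    rw [Real.norm_of_nonneg (ch_nonneg _ _)]; exact ch_le _ _
  set μ : ℂ → ℝ := fun u => ∫ a, ch r ‖a‖ * WW (7 / 8) a u ∂dA with hμ
  have hμm : Measurable μ := (StronglyMeasurable.integral_prod_left (μ := dA)
    (f := fun a u => ch r ‖a‖ * WW (7 / 8) a u)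
    (Measurable.stronglyMeasurable (by unfold Function.uncurry; fun_prop))).measurable
  have hμb : ∀ u, ‖u‖ < 1 → ‖μ u‖ ≤ cc (7 / 8) := fun u hu => by
    rw [← integral_WW _ hu]
    refine norm_integral_le_of_norm_le (int_WW (by norm_num) hu) (.of_forall fun a => ?_)
    rw [norm_mul, Real.norm_of_nonneg (WW_nonneg _ _ _)]
    exact mul_le_of_le_one_left (WW_nonneg _ _ _) (he1 a)
  have hi : Integrable (fun u => (((cc (7 / 8) - μ u : ℝ) : ℂ) * f u) • rk K u) dA := by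
    refine int_rk hK (ψ := fun u => u) (by fun_prop) continuous_id ((cc (7 / 8) + cc (7 / 8)) * C)
      (1 / 2 * (1 - r) ^ 2) (by have : 0 < 1 - r := by linarith
                                positivity) (fun u hu => ?_) fun u hu h => ?_
    · rw [norm_mul, Complex.norm_real]
      refine mul_le_mul ((norm_sub_le _ _).trans ?_) (hC u) (norm_nonneg _) (by linarith [cc_pos])
      rw [Real.norm_of_nonneg cc_pos.le]; linarith [hμb u hu]
    · by_contra hc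
      refine h ?_
      rw [← integral_WW _ hu, hμ, ← integral_congr_ball (F := fun a => ch r ‖a‖ * WW (7 / 8) a u)
        fun a ha => ?_]
      · simp
      · by_cases h1 : r < ‖a‖
        · rw [ch, if_pos h1, one_mul]
        · have h2 := norm_den_ge (a := a) hu.le
          have h3 : 0 < 1 - r := by linarith
          have h4 : rho a u ≤ 1 * (1 / 2 * (1 - r) ^ 2) / (1 - r) ^ 2 := by
            have := yy_le_one a; have := yy_pos hu
            unfold rho; gcongr <;> linarith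
          rw [one_mul, mul_div_assoc, div_self (by positivity)] at h4
          rw [WW, ch, ch, if_neg h1, if_neg (by linarith)]; simp
  refine ⟨∫ u, (((cc (7 / 8) - μ u : ℝ) : ℂ) * f u) • rk K u ∂dA, ?_, fun h g => ?_⟩
  · exact Convex.integral_mem (s := {S : A →L[ℂ] A |
      IsCompactOperator S}) ((compactOperator (RingHom.id ℂ) _ _).restrictScalars ℝ).convex
      isClosed_setOfPred_isCompactOperator (.of_forall fun u => (compact_rk u).smul _) hi
  have hψ : Integrable (fun u => conj (⟪K u, h⟫_ℂ) * (f u * ⟪K u, g⟫_ℂ)) dA := by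
    have h1 : Integrable (fun u => conj (⟪K u, h⟫_ℂ) * ⟪K u, g⟫_ℂ) dA :=
      MemLp.integrable_mul (hK.memLp h).star (hK.memLp g)
    exact (int_bdd h1 hm C fun u _ => hC u).congr (.of_forall fun u => by ring)
  obtain ⟨i1, e1⟩ := avg (σ := 7 / 8) (by norm_num) (e := fun a => ch r ‖a‖) (by fun_prop) he1 hψ
  obtain ⟨i2, e2⟩ := avg_one (hK.memLp h).norm.integrable_sq
  obtain ⟨i3, e3⟩ := avg_one (hK.memLp g).norm.integrable_sq
  have e : ⟪h, ((cc (7 / 8) : ℂ) • T - ∫ u, (((cc (7 / 8) - μ u : ℝ) : ℂ) * f u) • rk K u ∂dA) g⟫_ℂ =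
      ∫ u, μ u • (conj (⟪K u, h⟫_ℂ) * (f u * ⟪K u, g⟫_ℂ)) ∂dA := by
    rw [sub_apply, inner_sub_right, inner_integral hi,
      smul_apply, inner_smul_right, hT, ← integral_const_mul,
      ← integral_sub (hψ.const_mul _) ((hi.apply_continuousLinearMap g).const_inner h)]
    congr 1; ext u
    rw [smul_apply, inner_smul_right, inner_rk, real_smul]; push_cast; ring
  rw [e, ← e1, ← hK.int_sq, ← hK.int_sq, mul_assoc, mul_add (cc _), ← e2, ← e3,
    ← integral_add i2 i3, ← integral_const_mul]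
  refine norm_integral_le_of_norm_le ((i2.add i3).const_mul _) (ae_ball.mono fun a ha => ?_)
  have hW : ∀ h : A, ∫ u, WW (3 / 4) a u * ‖⟪K u, h⟫_ℂ‖ ^ 2 ∂dA =
      (yy a ^ 2)⁻¹ * ∫ u, ch (3 / 4) (rho a u) * ‖⟪K u, h⟫_ℂ‖ ^ 2 ∂dA := fun h => by
    rw [← integral_const_mul]; congr 1; ext u; rw [WW]; ring
  have hN : ∀ h : A, 0 ≤ ∫ u, ch (3 / 4) (rho a u) * ‖⟪K u, h⟫_ℂ‖ ^ 2 ∂dA := fun h =>
    integral_nonneg fun u => mul_nonneg (ch_nonneg _ _) (sq_nonneg _)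
  have := hN h; have := hN g
  rw [hW, hW, ← mul_add]
  by_cases h1 : r < ‖a‖
  · have e4 : ∫ u, (ch r ‖a‖ * WW (7 / 8) a u) • (conj (⟪K u, h⟫_ℂ) * (f u * ⟪K u, g⟫_ℂ)) ∂dA =
        (yy a ^ 2)⁻¹ • ∫ u, ch (7 / 8) (rho a u) • (conj (⟪K u, h⟫_ℂ) * (f u * ⟪K u, g⟫_ℂ)) ∂dA := by
      rw [← integral_smul]; congr 1; ext u
      rw [ch, if_pos h1, smul_smul, WW]; congr 1; ring
    rw [e4, norm_smul, Real.norm_of_nonneg (by positivity), mul_left_comm]
    refine mul_le_mul_of_nonneg_left ((loc_est hK hf h g ha).trans ?_) (by positivity)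
    gcongr; exact hM a h1 ha
  · simp only [ch, if_neg h1, zero_mul, zero_smul, integral_zero, norm_zero]
    positivity

theorem compact_of (hK : IsRK m K) {f : ℂ → ℂ} (hf : Bd f) (T : A →L[ℂ] A)
    (hT : ∀ h g, ⟪h, T g⟫_ℂ = ∫ u, conj (⟪K u, h⟫_ℂ) * (f u * ⟪K u, g⟫_ℂ) ∂dA)
    (h : Tendsto (be f ((RR m ^ 2).map ofRealHom)) FF (𝓝 0)) : IsCompactOperator T := by
  have hc : (cc (7 / 8) : ℂ) ≠ 0 := by exact_mod_cast cc_pos.ne'
  have hc' : 0 ≤ cc (3 / 4) := integral_nonneg fun b => div_nonneg (ch_nonneg _ _) (sq_nonneg _)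
  rw [← IsCompactOperator.smul_iff₀ hc]
  change (cc (7 / 8) : ℂ) • T ∈ {S : A →L[ℂ] A |
    IsCompactOperator S}
  rw [← isClosed_setOfPred_isCompactOperator.closure_eq, Metric.mem_closure_iff]
  intro η hη
  obtain ⟨t, ht0, ht1, ht⟩ : ∃ t : ℝ, 0 < t ∧ t ≤ 1 / 2 ∧ 2 * t < η :=
    ⟨min (1 / 2) (η / 4), by positivity, min_le_left _ _, by linarith [min_le_right (1 / 2) (η / 4)]⟩
  have h1 := (weak_bochner hf m h (int_Th hK)).norm
  rw [norm_zero] at h1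
  have hε : 0 < t ^ 2 / (2 * cc (3 / 4) + 1) := by positivity
  obtain ⟨r, hr, h2⟩ := (mem_nhdsLT_iff_exists_Ioo_subset.1
    (eventually_comap.1 (h1.eventually (gt_mem_nhds hε))))
  obtain ⟨S, hS, h3⟩ := approx hK hf T hT hε.le hr fun a h3 h4 => (h2 ⟨h3, h4⟩ a rfl).le
  refine ⟨S, hS, ?_⟩
  rw [dist_eq_norm]
  refine lt_of_le_of_lt (ContinuousLinearMap.opNorm_le_bound _ (by positivity) fun g => ?_) ht
  have h4 := h3 (((cc (7 / 8) : ℂ) • T - S) g) g
  set y := ((cc (7 / 8) : ℂ) • T - S) g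
  rw [inner_self_eq_norm_sq_to_K, norm_pow, RCLike.norm_ofReal, abs_norm] at h4
  have h5 : 2 * (t ^ 2 / (2 * cc (3 / 4) + 1)) * cc (3 / 4) ≤ t ^ 2 := by
    rw [mul_right_comm, mul_div_assoc', div_le_iff₀ (by positivity)]; nlinarith [sq_nonneg t]
  have h6 := h4.trans (mul_le_mul_of_nonneg_right h5 (by positivity))
  have h7 : t ^ 2 * ‖y‖ ^ 2 ≤ 1 / 4 * ‖y‖ ^ 2 := by gcongr; nlinarith
  refine le_of_sq_le_sq ?_ (by positivity)
  nlinarith [mul_nonneg (sq_nonneg t) (sq_nonneg ‖g‖)]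

end Pool.Agent.P.MP_f074b0_an
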