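import Mathlib

/-! Polyanalytic Bergman spaces of the unit disc. -/

open MeasureTheory Metric

noncomputable section

namespace Pool.Agent.P.MP_f074b0_an

/-- Normalised area measure of the open unit disc. -/
def dA : Measure ℂ := (ENNReal.ofReal Real.pi)⁻¹ • volume.restrict (ball (0 : ℂ) 1)

/-- `G = ∑_{k<n} conj(z)^k h_k(z)` on the disc with all `h_k` holomorphic on the disc. -/
def IsPolyanalytic (n : ℕ) (G : ℂ → ℂ) : Prop :=
  ∃ h : ℕ → ℂ → ℂ, (∀ k, DifferentiableOn ℂ (h k) (ball 0 1)) ∧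
    ∀ z ∈ ball (0 : ℂ) 1, G z = ∑ k ∈ Finset.range n, (starRingEnd ℂ) z ^ k * h k z

/-- The polyanalytic Bergman space `A²_n`: classes in `L²(dA)` with a polyanalytic representative. -/
def polyBergman (n : ℕ) : Submodule ℂ (Lp ℂ 2 dA) where
  carrier := {F | ∃ G, IsPolyanalytic n G ∧ F =ᵐ[dA] G}
  zero_mem' := ⟨0, ⟨0, fun _ => differentiableOn_const 0, fun _ _ => by simp⟩, Lp.coeFn_zero _ _ _⟩
  add_mem' := by
    rintro F F' ⟨G, ⟨h, h1, h2⟩, hG⟩ ⟨G', ⟨h', h1', h2'⟩, hG'⟩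
    refine ⟨G + G', ⟨h + h', fun k => (h1 k).add (h1' k), fun z hz => ?_⟩,
      (Lp.coeFn_add F F').trans (hG.add hG')⟩
    simp [h2 z hz, h2' z hz, mul_add, Finset.sum_add_distrib]
  smul_mem' := by
    rintro c F ⟨G, ⟨h, h1, h2⟩, hG⟩
    refine ⟨c • G, ⟨c • h, fun k => (h1 k).const_smul c, fun z hz => ?_⟩,
      (Lp.coeFn_smul c F).trans (hG.const_smul c)⟩
    simp only [Pi.smul_apply, smul_eq_mul, h2 z hz, Finset.mul_sum]
    exact Finset.sum_congr rfl fun k _ => by ring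

end Pool.Agent.P.MP_f074b0_an
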