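import Pool.Agent.P.MP_f074b0_an.Defs

/-! Integration on the disc: Moebius maps, change of variables, polar coordinates. -/

open MeasureTheory Metric Complex Filter Topology Set
open scoped ENNReal ComplexConjugate

noncomputable section

namespace Pool.Agent.P.MP_f074b0_an

instance : IsProbabilityMeasure dA := ⟨by
  rw [dA, Measure.smul_apply, Measure.restrict_apply MeasurableSet.univ, univ_inter,
    Complex.volume_ball, smul_eq_mul]
  simp only [ENNReal.ofReal_one, one_pow, one_mul]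
  rw [← NNReal.coe_real_pi, ENNReal.ofReal_coe_nnreal]
  exact ENNReal.inv_mul_cancel (by simp [NNReal.pi_ne_zero]) ENNReal.coe_ne_top⟩

lemma c_ne_zero : (ENNReal.ofReal Real.pi)⁻¹ ≠ 0 := by simp
lemma c_ne_top : (ENNReal.ofReal Real.pi)⁻¹ ≠ ⊤ := by simp [Real.pi_pos]

lemma ae_ball : ∀ᵐ z ∂dA, ‖z‖ < 1 := by
  refine Measure.ae_smul_measure ?_ _
  filter_upwards [ae_restrict_mem measurableSet_ball] with z hz
  simpa using hz

lemma integral_dA {E : Type} [NormedAddCommGroup E] [NormedSpace ℝ E] (F : ℂ → E) :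
    ∫ z, F z ∂dA = Real.pi⁻¹ • ∫ z in ball (0 : ℂ) 1, F z := by
  rw [dA, integral_smul_measure, ENNReal.toReal_inv, ENNReal.toReal_ofReal Real.pi_pos.le]

lemma integrable_dA {E : Type} [NormedAddCommGroup E] (F : ℂ → E) :
    Integrable F dA ↔ IntegrableOn F (ball (0 : ℂ) 1) :=
  integrable_smul_measure c_ne_zero c_ne_top

lemma integral_congr_ball {E : Type} [NormedAddCommGroup E] [NormedSpace ℝ E] {F G : ℂ → E}
    (h : ∀ z, ‖z‖ < 1 → F z = G z) : ∫ z, F z ∂dA = ∫ z, G z ∂dA :=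
  integral_congr_ae (ae_ball.mono h)

lemma aesm_of_continuousOn {E : Type} [NormedAddCommGroup E] {F : ℂ → E}
    (h : ContinuousOn F (ball 0 1)) : AEStronglyMeasurable F dA :=
  (h.aestronglyMeasurable measurableSet_ball).smul_measure _

lemma integrable_of_bound {E : Type} [NormedAddCommGroup E] {F : ℂ → E}
    (h : AEStronglyMeasurable F dA) (C : ℝ) (hC : ∀ z, ‖z‖ < 1 → ‖F z‖ ≤ C) : Integrable F dA :=
  Integrable.of_bound h C (ae_ball.mono hC)

lemma det_cplx (c : ℂ) :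
    |((ContinuousLinearMap.toSpanSingleton ℂ c).restrictScalars ℝ).det| = ‖c‖ ^ 2 := by
  simp [ContinuousLinearMap.det, LinearMap.det_restrictScalars,
      Algebra.norm_complex_eq, Complex.normSq_eq_norm_sq]

lemma cv_integral {E : Type} [NormedAddCommGroup E] [NormedSpace ℝ E] (ψ ψ' : ℂ → ℂ)
    (hd : ∀ z ∈ ball (0 : ℂ) 1, HasDerivAt ψ (ψ' z) z) (hi : InjOn ψ (ball 0 1)) (F : ℂ → E) :
    ∫ z in ψ '' ball 0 1, F z = ∫ z in ball (0 : ℂ) 1, ‖ψ' z‖ ^ 2 • F (ψ z) := by
  rw [integral_image_eq_integral_abs_det_fderiv_smul volume measurableSet_ball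
    (fun z hz => ((hd z hz).hasFDerivAt.restrictScalars ℝ).hasFDerivWithinAt) hi]
  simp only [det_cplx]

lemma cv_integrable {E : Type} [NormedAddCommGroup E] [NormedSpace ℝ E] (ψ ψ' : ℂ → ℂ)
    (hd : ∀ z ∈ ball (0 : ℂ) 1, HasDerivAt ψ (ψ' z) z) (hi : InjOn ψ (ball 0 1)) (F : ℂ → E) :
    IntegrableOn F (ψ '' ball 0 1) ↔ IntegrableOn (fun z => ‖ψ' z‖ ^ 2 • F (ψ z)) (ball (0 : ℂ) 1) := by
  rw [integrableOn_image_iff_integrableOn_abs_det_fderiv_smul volume measurableSet_ball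
    (fun z hz => ((hd z hz).hasFDerivAt.restrictScalars ℝ).hasFDerivWithinAt) hi]
  simp only [det_cplx]

def yy (z : ℂ) : ℝ := 1 - ‖z‖ ^ 2
def ph (a w : ℂ) : ℂ := (a - w) / (1 - conj a * w)
def rho (a w : ℂ) : ℝ := yy a * yy w / ‖1 - conj a * w‖ ^ 2
def jj (a w : ℂ) : ℝ := yy a ^ 2 / ‖1 - conj a * w‖ ^ 4

lemma yy_pos {z : ℂ} (h : ‖z‖ < 1) : 0 < yy z := by
  have := norm_nonneg z; unfold yy; nlinarith

lemma yy_le_one (z : ℂ) : yy z ≤ 1 := by unfold yy; nlinarith [sq_nonneg ‖z‖]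

lemma yy_cplx (z : ℂ) : (yy z : ℂ) = 1 - conj z * z := by
  rw [yy, Complex.conj_mul']; push_cast; ring

lemma norm_den_ge {a w : ℂ} (hw : ‖w‖ ≤ 1) : 1 - ‖a‖ ≤ ‖1 - conj a * w‖ := by
  have h := norm_sub_norm_le (1 : ℂ) (conj a * w)
  rw [norm_one, norm_mul, Complex.norm_conj] at h
  nlinarith [norm_nonneg a]

lemma norm_den_comm (a w : ℂ) : ‖1 - conj a * w‖ = ‖1 - conj w * a‖ := by
  rw [← Complex.norm_conj]; simp [mul_comm]

lemma den_ne {a w : ℂ} (ha : ‖a‖ < 1) (hw : ‖w‖ ≤ 1) : 1 - conj a * w ≠ 0 := by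
  rw [← norm_pos_iff]; linarith [norm_den_ge (a := a) hw]

lemma den_ne' {a w : ℂ} (ha : ‖a‖ < 1) (hw : ‖w‖ ≤ 1) : 1 - a * conj w ≠ 0 := by
  have := den_ne (a := conj a) (w := conj w) (by simpa) (by simpa); simpa using this

lemma normsq_cplx (z : ℂ) : ((‖z‖ : ℂ)) ^ 2 = conj z * z := (Complex.conj_mul' z).symm

lemma rho_comm (a w : ℂ) : rho a w = rho w a := by rw [rho, rho, norm_den_comm, mul_comm]

lemma rho_cplx (a w : ℂ) :
    (rho a w : ℂ) = (1 - conj a * a) * (1 - conj w * w) / ((1 - a * conj w) * (1 - conj a * w)) := by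
  rw [rho]; push_cast; rw [yy_cplx, yy_cplx, normsq_cplx]; simp

lemma conj_ph (a w : ℂ) : conj (ph a w) = (conj a - conj w) / (1 - a * conj w) := by simp [ph]

lemma yy_ph {a w : ℂ} (ha : ‖a‖ < 1) (hw : ‖w‖ ≤ 1) : yy (ph a w) = rho a w := by
  apply Complex.ofReal_injective
  rw [yy_cplx, rho_cplx, conj_ph, ph]
  have h1 := den_ne ha hw; have h2 := den_ne' ha hw
  generalize conj a = b at *; generalize conj w = v at *
  rw [div_mul_div_comm, eq_div_iff (mul_ne_zero h2 h1), sub_mul,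
    div_mul_cancel₀ _ (mul_ne_zero h2 h1)]; ring

lemma rho_pos {a w : ℂ} (ha : ‖a‖ < 1) (hw : ‖w‖ < 1) : 0 < rho a w :=
  div_pos (mul_pos (yy_pos ha) (yy_pos hw)) (pow_pos (norm_pos_iff.2 (den_ne ha hw.le)) 2)

lemma rho_le_one {a w : ℂ} (ha : ‖a‖ < 1) (hw : ‖w‖ < 1) : rho a w ≤ 1 := by
  rw [← yy_ph ha hw.le]; exact yy_le_one _

lemma norm_ph_lt {a w : ℂ} (ha : ‖a‖ < 1) (hw : ‖w‖ < 1) : ‖ph a w‖ < 1 := by
  have := rho_pos ha hw
  rw [← yy_ph ha hw.le, yy] at this
  nlinarith [norm_nonneg (ph a w)]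

lemma den_ph {a w : ℂ} (ha : ‖a‖ < 1) (hw : ‖w‖ ≤ 1) :
    1 - conj a * ph a w = yy a / (1 - conj a * w) := by
  rw [ph, yy_cplx]; have := den_ne ha hw; field_simp; ring

lemma ph_ph {a w : ℂ} (ha : ‖a‖ < 1) (hw : ‖w‖ ≤ 1) : ph a (ph a w) = w := by
  have h1 := den_ne ha hw
  have h2 : (1 : ℂ) - conj a * a ≠ 0 := den_ne ha ha.le
  rw [ph, den_ph ha hw, ph, yy_cplx, div_eq_iff (div_ne_zero h2 h1), sub_div' h1, mul_div_assoc']
  congr 1; ring

lemma rho_ph_ph {a z w : ℂ} (ha : ‖a‖ < 1) (hz : ‖z‖ < 1) (hw : ‖w‖ < 1) :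
    rho (ph a z) (ph a w) = rho z w := by
  apply Complex.ofReal_injective
  have h1 := den_ne ha hw.le; have h2 := den_ne' ha hw.le
  have h3 := den_ne ha hz.le; have h4 := den_ne' ha hz.le
  have h5 := den_ne hz hw.le; have h6 := den_ne' hz hw.le
  have h7 : (1 : ℂ) - conj a * a ≠ 0 := den_ne ha ha.le
  have e1 : 1 - ph a z * conj (ph a w) =
      (1 - conj a * a) * (1 - z * conj w) / ((1 - conj a * z) * (1 - a * conj w)) := by
    rw [conj_ph, ph, div_mul_div_comm, sub_div' (mul_ne_zero h3 h2)]; congr 1; ring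
  have e2 : 1 - conj (ph a z) * ph a w =
      (1 - conj a * a) * (1 - conj z * w) / ((1 - a * conj z) * (1 - conj a * w)) := by
    rw [conj_ph, ph, div_mul_div_comm, sub_div' (mul_ne_zero h4 h1)]; congr 1; ring
  rw [rho_cplx, e1, e2, ← yy_cplx (ph a z), ← yy_cplx (ph a w), yy_ph ha hz.le, yy_ph ha hw.le,
    rho_cplx, rho_cplx, rho_cplx]
  field_simp

lemma jj_eq {a w : ℂ} (hw : ‖w‖ < 1) : jj a w = rho a w ^ 2 / yy w ^ 2 := by
  have := (yy_pos hw).ne'
  rw [jj, rho]; field_simp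

lemma jj_nonneg (a w : ℂ) : 0 ≤ jj a w := by unfold jj; positivity

lemma jj_le {a w : ℂ} (ha : ‖a‖ < 1) (hw : ‖w‖ ≤ 1) : jj a w ≤ 1 / (1 - ‖a‖) ^ 4 := by
  have h1 := norm_den_ge (a := a) hw
  have h2 := yy_pos ha; have h3 := yy_le_one a
  have h4 : 0 < 1 - ‖a‖ := by linarith
  unfold jj; gcongr; nlinarith

lemma ph_image {a : ℂ} (ha : ‖a‖ < 1) : ph a '' ball 0 1 = ball 0 1 := by
  ext w; simp only [mem_image, mem_ball_zero_iff]
  exact ⟨by rintro ⟨z, hz, rfl⟩; exact norm_ph_lt ha hz,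
    fun hw => ⟨ph a w, norm_ph_lt ha hw, ph_ph ha hw.le⟩⟩

lemma ph_injOn {a : ℂ} (ha : ‖a‖ < 1) : InjOn (ph a) (ball 0 1) := fun z hz w hw h => by
  rw [← ph_ph ha (mem_ball_zero_iff.1 hz).le, h, ph_ph ha (mem_ball_zero_iff.1 hw).le]

lemma ph_deriv {a w : ℂ} (ha : ‖a‖ < 1) (hw : ‖w‖ ≤ 1) :
    HasDerivAt (ph a) (-(yy a) / (1 - conj a * w) ^ 2) w := by
  have h := ((hasDerivAt_id w).const_sub a).div (((hasDerivAt_id w).const_mul (conj a)).const_sub 1)
    (den_ne ha hw)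
  refine HasDerivAt.congr_deriv h ?_
  rw [yy_cplx]; simp only [id]; congr 1; ring

lemma norm_ph_deriv (a w : ℂ) :
    ‖(-(yy a) / (1 - conj a * w) ^ 2 : ℂ)‖ ^ 2 = jj a w := by
  rw [norm_div, norm_neg, norm_pow, Complex.norm_real, Real.norm_eq_abs, div_pow, sq_abs, jj, ← pow_mul]

lemma cv_ph {E : Type} [NormedAddCommGroup E] [NormedSpace ℝ E] {a : ℂ} (ha : ‖a‖ < 1) (F : ℂ → E) :
    ∫ w, jj a w • F (ph a w) ∂dA = ∫ u, F u ∂dA := by
  have := cv_integral (ph a) _ (fun z hz => ph_deriv ha (mem_ball_zero_iff.1 hz).le) (ph_injOn ha) F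
  rw [ph_image ha] at this
  simp only [norm_ph_deriv] at this
  rw [integral_dA, integral_dA, this]

lemma cv_ph_integrable {E : Type} [NormedAddCommGroup E] [NormedSpace ℝ E] {a : ℂ} (ha : ‖a‖ < 1)
    (F : ℂ → E) : Integrable (fun w => jj a w • F (ph a w)) dA ↔ Integrable F dA := by
  have := cv_integrable (ph a) _ (fun z hz => ph_deriv ha (mem_ball_zero_iff.1 hz).le) (ph_injOn ha) F
  rw [ph_image ha] at this
  simp only [norm_ph_deriv] at this
  rw [integrable_dA, integrable_dA, this]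

lemma integral_jj {a : ℂ} (ha : ‖a‖ < 1) : ∫ w, jj a w ∂dA = 1 := by
  simpa using cv_ph ha (fun _ => (1 : ℝ))

lemma cv_dil (s : ℝ) (hs : 0 < s) (hs1 : s ≤ 1) (F : ℂ → ℝ) :
    s ^ 2 * ∫ w, F (s * w) ∂dA = ∫ u, (ball (0 : ℂ) s).indicator F u ∂dA := by
  have hs' : (s : ℂ) ≠ 0 := by exact_mod_cast hs.ne'
  have := cv_integral (fun w => (s : ℂ) * w) (fun _ => s)
    (fun z _ => by simpa using (hasDerivAt_id z).const_mul (s : ℂ))
    (fun z _ w _ h => mul_left_cancel₀ hs' h) F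
  have e : (fun w => (s : ℂ) * w) '' ball 0 1 = ball 0 s := by
    ext w; simp only [mem_image, mem_ball_zero_iff]
    constructor
    · rintro ⟨z, hz, rfl⟩
      rw [norm_mul, Complex.norm_real, Real.norm_of_nonneg hs.le]; nlinarith
    · intro hw
      refine ⟨w / s, ?_, by field_simp⟩
      rw [norm_div, Complex.norm_real, Real.norm_of_nonneg hs.le, div_lt_one hs]; exact hw
  rw [e] at this
  rw [integral_dA, integral_dA, setIntegral_indicator measurableSet_ball,
    inter_eq_right.2 (ball_subset_ball hs1), this]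
  simp only [Complex.norm_real, Real.norm_of_nonneg hs.le, smul_eq_mul]
  rw [integral_const_mul]; ring

@[fun_prop] lemma measurable_conj : Measurable fun z : ℂ => conj z := continuous_conj.measurable
@[fun_prop] lemma continuous_yy : Continuous yy := by unfold yy; fun_prop
@[fun_prop] lemma measurable_yy : Measurable yy := continuous_yy.measurable

@[fun_prop] lemma measurable_ph {α : Type} [MeasurableSpace α] {f g : α → ℂ} (hf : Measurable f)
    (hg : Measurable g) : Measurable fun x => ph (f x) (g x) := by unfold ph; fun_prop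
@[fun_prop] lemma measurable_rho {α : Type} [MeasurableSpace α] {f g : α → ℂ} (hf : Measurable f)
    (hg : Measurable g) : Measurable fun x => rho (f x) (g x) := by unfold rho; fun_prop
@[fun_prop] lemma measurable_jj {α : Type} [MeasurableSpace α] {f g : α → ℂ} (hf : Measurable f)
    (hg : Measurable g) : Measurable fun x => jj (f x) (g x) := by unfold jj; fun_prop

/-- Polar coordinates. -/
lemma polar (F : ℂ → ℂ) (hF : Integrable F dA) (Ψ : ℝ → ℂ)
    (h : ∀ r, 0 < r → r < 1 →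
      ∫ θ in (0 : ℝ)..2 * Real.pi, F (circleMap 0 r θ) = 2 * Real.pi * Ψ (r ^ 2)) :
    ∫ z, F z ∂dA = ∫ t in (0 : ℝ)..1, Ψ t := by
  set F' := (ball (0 : ℂ) 1).indicator F with hF'
  have h1 : Integrable F' volume :=
    (integrable_indicator_iff measurableSet_ball).2 ((integrable_dA F).1 hF)
  have h2 : Integrable (fun p => F' (measurableEquivRealProd.symm p)) volume :=
    (volume_preserving_equiv_real_prod.symm.integrable_comp_emb
      measurableEquivRealProd.symm.measurableEmbedding).2 h1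
  have h3 : IntegrableOn (fun p : ℝ × ℝ => p.1 • F' (Complex.polarCoord.symm p))
      (Ioi (0 : ℝ) ×ˢ Ioo (-Real.pi) Real.pi) := by
    have := (integrableOn_image_iff_integrableOn_abs_det_fderiv_smul volume
      polarCoord.open_target.measurableSet
      (fun p _ => (hasFDerivAt_polarCoord_symm p).hasFDerivWithinAt) polarCoord.symm.injOn
      (fun p => F' (measurableEquivRealProd.symm p))).1 h2.integrableOn
    simp only [det_fderivPolarCoordSymm] at this
    refine (integrableOn_congr_fun (fun p hp => ?_) polarCoord.open_target.measurableSet).1 this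
    simp only [abs_of_pos (show 0 < p.1 from hp.1)]; rfl
  have hc : ∀ r θ : ℝ, Complex.polarCoord.symm (r, θ) = circleMap 0 r θ := fun r θ => by
    simp [circleMap, Complex.exp_mul_I]
  rw [integral_dA, ← integral_indicator measurableSet_ball, ← hF',
    ← Complex.integral_comp_polarCoord_symm, polarCoord_target, Measure.volume_eq_prod,
    setIntegral_prod _ (by rw [← Measure.volume_eq_prod]; exact h3)]
  have h4 := integral_comp_rpow_Ioi_of_pos (g := (Iio (1 : ℝ)).indicator Ψ) (p := 2) two_pos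
  rw [setIntegral_indicator measurableSet_Iio, Ioi_inter_Iio, ← integral_Ioc_eq_integral_Ioo,
    ← intervalIntegral.integral_of_le zero_le_one] at h4
  rw [← h4, ← integral_smul]
  refine setIntegral_congr_fun measurableSet_Ioi fun r hr => ?_
  have hr : 0 < r := hr
  simp only [hc, integral_smul]
  rw [show (2 : ℝ) - 1 = 1 by norm_num, Real.rpow_one, Real.rpow_two]
  by_cases hr1 : r < 1
  · have e1 : ∀ θ, F' (circleMap 0 r θ) = F (circleMap 0 r θ) := fun θ =>
      indicator_of_mem (by simpa [abs_of_pos hr] using hr1) _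
    simp only [e1]
    have hp : Function.Periodic (fun θ => F (circleMap 0 r θ)) (2 * Real.pi) :=
      (periodic_circleMap 0 r).comp F
    have e2 := hp.intervalIntegral_add_eq (-Real.pi) 0
    rw [show -Real.pi + 2 * Real.pi = Real.pi by ring, zero_add, h r hr hr1,
      intervalIntegral.integral_of_le (by linarith [Real.pi_pos]), integral_Ioc_eq_integral_Ioo] at e2
    rw [e2, indicator_of_mem (show r ^ 2 ∈ Iio 1 by simp only [mem_Iio]; nlinarith)]
    have : (Real.pi : ℂ) ≠ 0 := by exact_mod_cast Real.pi_ne_zero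
    simp only [Complex.real_smul]; push_cast; field_simp
  · have e1 : ∀ θ, F' (circleMap 0 r θ) = 0 := fun θ =>
      indicator_of_notMem (by simpa [abs_of_pos hr] using hr1) _
    simp only [e1]
    rw [indicator_of_notMem (show r ^ 2 ∉ Iio 1 by simp only [mem_Iio]; nlinarith)]
    simp

lemma circle_mean (h : ℂ → ℂ) (hh : DifferentiableOn ℂ h (ball 0 1)) (k : ℕ) (r : ℝ) (h0 : 0 < r)
    (h1 : r < 1) : ∫ θ in (0 : ℝ)..2 * Real.pi, conj (circleMap 0 r θ) ^ k * h (circleMap 0 r θ) =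
      2 * Real.pi * (((r ^ 2 : ℝ) : ℂ) ^ k * (iteratedDeriv k h 0 / k.factorial)) := by
  have := (hh.mono (closedBall_subset_ball h1)).circleIntegral_one_div_sub_center_pow_smul h0 k
  rw [circleIntegral] at this
  have e : ∀ θ : ℝ, conj (circleMap 0 r θ) ^ k * h (circleMap 0 r θ) = (-I * ((r ^ 2 : ℝ) : ℂ) ^ k) *
      (deriv (circleMap 0 r) θ • (1 / (circleMap 0 r θ - 0) ^ (k + 1)) • h (circleMap 0 r θ)) := by
    intro θ
    have c0 : circleMap 0 r θ ≠ 0 := circleMap_ne_center h0.ne'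
    have c1 : ((r ^ 2 : ℝ) : ℂ) = conj (circleMap 0 r θ) * circleMap 0 r θ := by
      rw [← normsq_cplx, norm_circleMap_zero, abs_of_pos h0]; push_cast; ring
    rw [deriv_circleMap, c1, smul_eq_mul, smul_eq_mul, sub_zero, mul_pow]
    field_simp
    simp [pow_succ, mul_assoc]
  simp only [e]
  rw [intervalIntegral.integral_const_mul, this, smul_eq_mul]
  linear_combination (-(2 * Real.pi * (((r ^ 2 : ℝ) : ℂ) ^ k *
    (iteratedDeriv k h 0 / k.factorial)))) * I_mul_I

end Pool.Agent.P.MP_f074b0_an
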