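import Pool.Agent.P.MP_f074b0_an.Alg

/-! The spherical polynomial has no zero with `1/2 ≤ Re s ≤ 1`. -/

open Polynomial Complex Filter Topology Set

noncomputable section

namespace Pool.Agent.P.MP_f074b0_an

def kk (m : ℕ) (s : ℂ) : ℂ := Gamma (1 + s) * Gamma (2 - s) * PP (Rh m ^ 2) s

lemma kk_diff (m : ℕ) (s : ℂ) (h1 : -1 < s.re) (h2 : s.re < 2) : DifferentiableAt ℂ (kk m) s := by
  obtain ⟨p, hp⟩ := isPF_PP (Rh m ^ 2)
  have e : kk m = fun s => Gamma (1 + s) * Gamma (2 - s) * p.eval s := by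
    funext s; rw [kk, hp]
  rw [e]
  have a : DifferentiableAt ℂ Gamma (1 + s) := Complex.differentiableAt_Gamma _ fun k hk => by
    have := congrArg re hk; simp at this; have : (0 : ℝ) ≤ k := k.cast_nonneg; linarith
  have b : DifferentiableAt ℂ Gamma (2 - s) := Complex.differentiableAt_Gamma _ fun k hk => by
    have := congrArg re hk; simp at this; have : (0 : ℝ) ≤ k := k.cast_nonneg; linarith
  exact ((a.comp s (by fun_prop)).mul (b.comp s (by fun_prop))).mul p.differentiableAt

lemma kk_conj (m : ℕ) (s : ℂ) : (starRingEnd ℂ) (kk m s) = kk m ((starRingEnd ℂ) s) := by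
  simp only [kk, map_mul, conj_PP, ← Complex.Gamma_conj, map_add, map_sub, map_one, map_ofNat]

lemma kk_symm (m : ℕ) (s : ℂ) : kk m (1 - s) = kk m s := by
  simp only [kk, PP_symm]
  rw [show 1 + (1 - s) = 2 - s by ring, show 2 - (1 - s) = 1 + s by ring]; ring

lemma kk_im_real (m : ℕ) (s : ℂ) (h : s.im = 0) : (kk m s).im = 0 := by
  rw [← Complex.conj_eq_iff_im, kk_conj, Complex.conj_eq_iff_im.2 h]

lemma kk_im_half (m : ℕ) (s : ℂ) (h : s.re = 1 / 2) : (kk m s).im = 0 := by
  rw [← Complex.conj_eq_iff_im, kk_conj, ← kk_symm]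
  congr 1; apply Complex.ext <;> simp [h]; norm_num

lemma kk_im_one (m : ℕ) (s : ℂ) (h : s.re = 1) (hy : 0 < s.im) : 0 < (kk m s).im := by
  have hs : s = 1 + s.im * I := by apply Complex.ext <;> simp [h]
  set y := s.im
  have h0 : (1 : ℂ) + y * I ≠ 0 := fun h => by have := congrArg re h; simp at this
  have e : kk m s = (normSq (Gamma (1 + y * I)) : ℂ) * ((1 + y * I) * PP (Rh m ^ 2) (1 + y * I)) := by
    rw [hs, kk, ← Complex.mul_conj, ← Complex.Gamma_conj, add_comm 1 (1 + y * I),
      Complex.Gamma_add_one _ h0]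
    have : (starRingEnd ℂ) (1 + y * I) = 2 - (1 + y * I) := by simp; ring
    rw [this]; ring
  rw [e, Complex.im_ofReal_mul]
  refine mul_pos (normSq_pos.2 (Complex.Gamma_ne_zero fun k hk => ?_)) (im_pos m y hy)
  have := congrArg re hk; simp at this; have : (0 : ℝ) ≤ k := k.cast_nonneg; linarith

lemma norm_sin_ge (s : ℂ) (hy : 1 ≤ s.im) : Real.exp s.im / 2 ≤ ‖Complex.sin (Real.pi * s)‖ := by
  have h : Complex.sin (Real.pi * s) =
      (Complex.exp (-(Real.pi * s) * I) - Complex.exp ((Real.pi * s) * I)) * I / 2 := rfl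
  rw [h, norm_div, norm_mul, Complex.norm_I, mul_one]
  have a : ‖Complex.exp (-(Real.pi * s) * I)‖ = Real.exp (Real.pi * s.im) := by
    rw [Complex.norm_exp]; simp
  have b : ‖Complex.exp ((Real.pi * s) * I)‖ = Real.exp (-(Real.pi * s.im)) := by
    rw [Complex.norm_exp]; simp
  have c := norm_sub_norm_le (Complex.exp (-(Real.pi * s) * I)) (Complex.exp ((Real.pi * s) * I))
  rw [a, b] at c
  have hp := Real.pi_gt_three
  have d : Real.exp (-(Real.pi * s.im)) ≤ 1 := Real.exp_le_one_iff.2 (by nlinarith)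
  have e : Real.exp s.im * Real.exp s.im ≤ Real.exp (Real.pi * s.im) := by
    rw [← Real.exp_add]; exact Real.exp_le_exp.2 (by nlinarith)
  have f : s.im + 1 ≤ Real.exp s.im := Real.add_one_le_exp _
  have : ‖(2 : ℂ)‖ = 2 := by simp
  rw [this]
  gcongr
  nlinarith

lemma kk_decay (m : ℕ) (ε : ℝ) (hε : 0 < ε) :
    ∃ T : ℝ, ∀ s : ℂ, 0 ≤ s.re → s.re ≤ 1 → T ≤ s.im → ‖kk m s‖ ≤ ε := by
  obtain ⟨q, hq⟩ : IsPF fun s => Real.pi * (s * (1 - s)) * PP (Rh m ^ 2) s :=
    ((IsPF.const _).mul (IsPF.id.mul ((IsPF.const _).sub .id))).mul (isPF_PP _)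
  have ht : Tendsto (fun y : ℝ => ∑ i ∈ Finset.range (q.natDegree + 1),
      (2 * ‖q.coeff i‖ * 2 ^ i) * (y ^ i * Real.exp (-y))) atTop (𝓝 0) := by
    have := tendsto_finsetSum (Finset.range (q.natDegree + 1)) fun i _ =>
      (Real.tendsto_pow_mul_exp_neg_atTop_nhds_zero i).const_mul (2 * ‖q.coeff i‖ * 2 ^ i)
    simpa using this
  obtain ⟨T, hT⟩ := eventually_atTop.1 (ht.eventually (ge_mem_nhds hε))
  refine ⟨max T 1, fun s h0 h1 hs => ?_⟩
  have hy : 1 ≤ s.im := le_of_max_le_right hs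
  refine le_trans ?_ (hT s.im (le_of_max_le_left hs))
  have s0 : s ≠ 0 := fun h => by rw [h] at hy; simp at hy; linarith
  have s1 : 1 - s ≠ 0 := fun h => by have := congrArg im h; simp at this; linarith
  have e : kk m s = q.eval s / Complex.sin (Real.pi * s) := by
    rw [← hq, kk, add_comm 1 s, Complex.Gamma_add_one _ s0, show 2 - s = (1 - s) + 1 by ring,
      Complex.Gamma_add_one _ s1]
    have := Complex.Gamma_mul_Gamma_one_sub s
    linear_combination (s * (1 - s) * PP (Rh m ^ 2) s) * this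
  have hs2 : ‖s‖ ≤ 2 * s.im := by
    have := Complex.norm_le_abs_re_add_abs_im s
    rw [abs_of_nonneg h0, abs_of_nonneg (by linarith)] at this; linarith
  have hq2 : ‖q.eval s‖ ≤ ∑ i ∈ Finset.range (q.natDegree + 1), ‖q.coeff i‖ * (2 * s.im) ^ i := by
    rw [eval_eq_sum_range]
    refine (norm_sum_le _ _).trans (Finset.sum_le_sum fun i _ => ?_)
    rw [norm_mul, norm_pow]; gcongr
  rw [e, norm_div]
  have hpos : 0 < Real.exp s.im / 2 := by positivity
  calc ‖q.eval s‖ / ‖Complex.sin (Real.pi * s)‖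
      ≤ (∑ i ∈ Finset.range (q.natDegree + 1), ‖q.coeff i‖ * (2 * s.im) ^ i) / (Real.exp s.im / 2) := by
        gcongr
        exact norm_sin_ge s hy
    _ = _ := by
        rw [Finset.sum_div]
        refine Finset.sum_congr rfl fun i _ => ?_
        rw [Real.exp_neg, mul_pow]; field_simp

lemma kk_im_nonneg (m : ℕ) (s : ℂ) (h0 : 1 / 2 ≤ s.re) (h1 : s.re ≤ 1) (hy : 0 ≤ s.im) :
    0 ≤ (kk m s).im := by
  refine le_of_forall_pos_le_add fun ε hε => ?_
  obtain ⟨T, hT⟩ := kk_decay m ε hε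
  set T' := max T s.im + 1 with hT'
  have hT0 : 0 < T' := by have := le_max_right T s.im; linarith
  have hcl : closure (Ioo (1 / 2 : ℝ) 1 ×ℂ Ioo 0 T') = Icc (1 / 2 : ℝ) 1 ×ℂ Icc 0 T' := by
    rw [closure_reProdIm, closure_Ioo (by norm_num), closure_Ioo hT0.ne]
  have hd : DiffContOnCl ℂ (fun z => Complex.exp (I * kk m z)) (Ioo (1 / 2 : ℝ) 1 ×ℂ Ioo 0 T') := by
    apply DifferentiableOn.diffContOnCl
    rw [hcl]
    intro z hz
    have := kk_diff m z (by linarith [hz.1.1]) (by linarith [hz.1.2])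
    exact (((differentiableAt_const I).mul this).cexp).differentiableWithinAt
  have hb : Bornology.IsBounded (Ioo (1 / 2 : ℝ) 1 ×ℂ Ioo 0 T') :=
    (Metric.isBounded_Ioo _ _).reProdIm (Metric.isBounded_Ioo _ _)
  have hn : ∀ z, ‖Complex.exp (I * kk m z)‖ = Real.exp (-(kk m z).im) := fun z => by
    rw [Complex.norm_exp]; simp
  have key := Complex.norm_le_of_forall_mem_frontier_norm_le hb hd (C := Real.exp ε) (z := s)
    (fun z hz => by
      rw [hn, Real.exp_le_exp]
      rw [frontier_reProdIm, closure_Ioo (by norm_num), closure_Ioo hT0.ne,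
        frontier_Ioo hT0, frontier_Ioo (by norm_num)] at hz
      rcases hz with ⟨hz1, hz2⟩ | ⟨hz1, hz2⟩
      · rcases hz2 with hz2 | hz2
        · rw [kk_im_real m z hz2]; linarith
        · have hz2 : z.im = T' := hz2
          have := hT z (by linarith [hz1.1]) hz1.2 (by have := le_max_left T s.im; linarith)
          have h2 := Complex.abs_im_le_norm (kk m z)
          linarith [neg_abs_le (kk m z).im]
      · rcases hz1 with hz1 | hz1
        · rw [kk_im_half m z hz1]; linarith
        · rcases eq_or_lt_of_le hz2.1 with h | h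
          · rw [kk_im_real m z h.symm]; linarith
          · linarith [kk_im_one m z hz1 h])
    (by rw [hcl]; exact ⟨⟨h0, h1⟩, hy, by have := le_max_right T s.im; linarith⟩)
  rw [hn, Real.exp_le_exp] at key
  linarith

lemma kk_eq_zero_iff (m : ℕ) (s : ℂ) (h1 : -1 < s.re) (h2 : s.re < 2) :
    kk m s = 0 ↔ PP (Rh m ^ 2) s = 0 := by
  have a : Gamma (1 + s) ≠ 0 := Complex.Gamma_ne_zero fun k hk => by
    have := congrArg re hk; simp at this; have : (0 : ℝ) ≤ k := k.cast_nonneg; linarith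
  have b : Gamma (2 - s) ≠ 0 := Complex.Gamma_ne_zero fun k hk => by
    have := congrArg re hk; simp at this; have : (0 : ℝ) ≤ k := k.cast_nonneg; linarith
  simp [kk, a, b]

lemma PP_ne_zero (m : ℕ) : PP (Rh m ^ 2) (1 + (1 : ℝ) * I) ≠ 0 := fun h => by
  have := im_pos m 1 one_pos
  rw [h] at this; simp at this

lemma PP_not_infinite (m : ℕ) (S : Set ℂ) (hS : S.Infinite) (h : ∀ s ∈ S, PP (Rh m ^ 2) s = 0) :
    False := by
  obtain ⟨p, hp⟩ := isPF_PP (Rh m ^ 2)
  have : p = 0 := by
    apply Polynomial.eq_zero_of_infinite_isRoot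
    exact hS.mono fun s hs => by simp only [mem_ofPred_eq, IsRoot.def, ← hp, h s hs]
  exact PP_ne_zero m (by rw [hp, this]; simp)

/-- A one-sided derivative test. -/
lemma im_deriv_nonneg (f : ℂ → ℂ) (s u : ℂ) (hf : DifferentiableAt ℂ f s) (h0 : (f s).im = 0)
    (h : ∀ᶠ t : ℝ in 𝓝[>] 0, 0 ≤ (f (s + t * u)).im) : 0 ≤ (deriv f s * u).im := by
  have h1 : HasDerivAt (fun t : ℂ => f (s + t * u)) (deriv f s * u) ((0 : ℝ) : ℂ) := by
    have a : HasDerivAt (fun t : ℂ => s + t * u) u ((0 : ℝ) : ℂ) := by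
      simpa using ((hasDerivAt_id ((0 : ℝ) : ℂ)).mul_const u).const_add s
    have b : HasDerivAt f (deriv f s) (s + ((0 : ℝ) : ℂ) * u) := by simpa using hf.hasDerivAt
    exact b.comp ((0 : ℝ) : ℂ) a
  have h2 : HasDerivAt (fun t : ℝ => (f (s + t * u)).im) (deriv f s * u).im 0 :=
    Complex.imCLM.hasFDerivAt.comp_hasDerivAt 0 h1.comp_ofReal
  have h3 := h2.tendsto_slope_zero_right
  refine ge_of_tendsto h3 ?_
  filter_upwards [h, self_mem_nhdsWithin] with t ht ht0
  simp only [zero_add, Complex.ofReal_zero, zero_mul, add_zero, h0, sub_zero, smul_eq_mul]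
  exact mul_nonneg (inv_nonneg.2 (le_of_lt ht0)) ht

lemma hasDerivAt_re_line (f : ℂ → ℂ) (s u : ℂ) (t : ℝ) (hf : DifferentiableAt ℂ f (s + t * u)) :
    HasDerivAt (fun t : ℝ => (f (s + t * u)).re) (deriv f (s + t * u) * u).re t := by
  have a : HasDerivAt (fun t : ℂ => s + t * u) u (t : ℂ) := by
    simpa using ((hasDerivAt_id (t : ℂ)).mul_const u).const_add s
  exact Complex.reCLM.hasFDerivAt.comp_hasDerivAt t (hf.hasDerivAt.comp (t : ℂ) a).comp_ofReal

lemma kk_half_pos (m : ℕ) (y : ℝ) (hy : 0 ≤ y) : 0 < (kk m (1 / 2 + y * I)).re := by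
  set u : ℝ → ℝ := fun t => (kk m (1 / 2 + t * I)).re with hu
  have hd : ∀ t : ℝ, HasDerivAt u (deriv (kk m) (1 / 2 + t * I) * I).re t := fun t =>
    hasDerivAt_re_line _ _ _ _ (kk_diff m _ (by simp; norm_num) (by simp; norm_num))
  have hanti : AntitoneOn u (Ici 0) := by
    apply antitoneOn_of_deriv_nonpos (convex_Ici 0)
      (fun t _ => (hd t).continuousAt.continuousWithinAt)
      (fun t _ => (hd t).differentiableAt.differentiableWithinAt)
    intro t ht
    rw [interior_Ici] at ht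
    rw [(hd t).deriv]
    have := im_deriv_nonneg (kk m) (1 / 2 + t * I) 1
      (kk_diff m _ (by simp; norm_num) (by simp; norm_num)) (kk_im_half m _ (by simp)) (by
        filter_upwards [Ioo_mem_nhdsGT (show (0 : ℝ) < 1 / 2 by norm_num)] with r hr
        apply kk_im_nonneg
        · simp; linarith [hr.1]
        · simp; linarith [hr.2]
        · simpa using le_of_lt ht)
    simpa using this
  have hnn : ∀ t, 0 ≤ t → 0 ≤ u t := fun t ht => by
    refine le_of_forall_pos_le_add fun ε hε => ?_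
    obtain ⟨T, hT⟩ := kk_decay m ε hε
    have h1 := hanti (show t ∈ Ici 0 from ht) (show max T t ∈ Ici 0 from ht.trans (le_max_right _ _))
      (le_max_right _ _)
    have h2 := hT (1 / 2 + (max T t : ℝ) * I) (by simp) (by simp; norm_num) (by simp)
    have h3 := Complex.abs_re_le_norm (kk m (1 / 2 + (max T t : ℝ) * I))
    have h4 := neg_abs_le (u (max T t))
    simp only [hu] at h1 h4 ⊢
    linarith
  refine lt_of_le_of_ne (hnn y hy) fun h => ?_
  refine PP_not_infinite m ((fun t : ℝ => (1 / 2 : ℂ) + t * I) '' Ici y) ?_ ?_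
  · refine (Set.Ici_infinite y).image fun a _ b _ hab => ?_
    simpa using congrArg im hab
  · rintro _ ⟨t, ht, rfl⟩
    rw [← kk_eq_zero_iff m _ (by simp; norm_num) (by simp; norm_num)]
    apply Complex.ext
    · have h1 := hanti (show y ∈ Ici 0 from hy) (show t ∈ Ici 0 from hy.trans ht) ht
      have h2 := hnn t (hy.trans ht)
      simp only [hu] at h1 h2
      simp only [Complex.zero_re]
      linarith
    · exact kk_im_half m _ (by simp)

lemma kk_real_pos (m : ℕ) (x : ℝ) (h0 : 1 / 2 ≤ x) (h1 : x ≤ 1) : 0 < (kk m x).re := by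
  set u : ℝ → ℝ := fun t => (kk m (0 + t * 1)).re with hu
  have hd : ∀ t ∈ Icc (1 / 2 : ℝ) 1, HasDerivAt u (deriv (kk m) (0 + t * 1) * 1).re t := fun t ht =>
    hasDerivAt_re_line _ _ _ _ (kk_diff m _ (by simp; linarith [ht.1]) (by simp; linarith [ht.2]))
  have hmono : MonotoneOn u (Icc (1 / 2) 1) := by
    apply monotoneOn_of_deriv_nonneg (convex_Icc _ _)
      (fun t ht => (hd t ht).continuousAt.continuousWithinAt)
      (fun t ht => (hd t (interior_subset ht)).differentiableAt.differentiableWithinAt)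
    intro t ht
    have ht := interior_subset ht
    rw [(hd t ht).deriv]
    have := im_deriv_nonneg (kk m) (0 + t * 1) I
      (kk_diff m _ (by simp; linarith [ht.1]) (by simp; linarith [ht.2]))
      (kk_im_real m _ (by simp)) (by
        filter_upwards [self_mem_nhdsWithin] with r hr
        apply kk_im_nonneg
        · simpa using ht.1
        · simpa using ht.2
        · simpa using le_of_lt hr)
    simpa using this
  have a := hmono (show (1 / 2 : ℝ) ∈ Icc (1 / 2) 1 from ⟨le_rfl, by norm_num⟩) ⟨h0, h1⟩ h0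
  have b := kk_half_pos m 0 le_rfl
  simp only [hu] at a
  simp at a b ⊢
  linarith

lemma PP_ne_zero_upper (m : ℕ) (s : ℂ) (h0 : 1 / 2 ≤ s.re) (h1 : s.re ≤ 1) (hy : 0 ≤ s.im) :
    PP (Rh m ^ 2) s ≠ 0 := by
  intro h
  rw [← kk_eq_zero_iff m s (by linarith) (by linarith)] at h
  rcases eq_or_lt_of_le hy with hy | hy
  · have e : s = (s.re : ℂ) := by apply Complex.ext <;> simp [hy]
    have := kk_real_pos m s.re h0 h1
    rw [← e, h] at this; simp at this
  rcases eq_or_lt_of_le h0 with h0 | h0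
  · have e : s = 1 / 2 + s.im * I := by apply Complex.ext <;> simp [← h0]
    have := kk_half_pos m s.im hy.le
    rw [← e, h] at this; simp at this
  rcases eq_or_lt_of_le h1 with h1 | h1
  · have := kk_im_one m s h1 hy
    rw [h] at this; simp at this
  have hU : ∀ᶠ z in 𝓝 s, 1 / 2 < z.re ∧ z.re < 1 ∧ 0 < z.im :=
    ((continuous_re.tendsto s).eventually (lt_mem_nhds h0)).and
      (((continuous_re.tendsto s).eventually (gt_mem_nhds h1)).and
        ((continuous_im.tendsto s).eventually (lt_mem_nhds hy)))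
  have hn : ∀ z, ‖Complex.exp (I * kk m z)‖ = Real.exp (-(kk m z).im) := fun z => by
    rw [Complex.norm_exp]; simp
  have e1 := Complex.eventually_eq_of_isLocalMax_norm (f := fun z => Complex.exp (I * kk m z)) (c := s)
    (hU.mono fun z hz => ((differentiableAt_const I).mul
      (kk_diff m z (by linarith [hz.1]) (by linarith [hz.2.1]))).cexp)
    (hU.mono fun z hz => by
      simp only [Function.comp, hn, h]
      simpa using kk_im_nonneg m z hz.1.le hz.2.1.le hz.2.2.le)
  have e2 : ∀ᶠ z in 𝓝 s, ‖kk m z‖ < 1 := by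
    have := (kk_diff m s (by linarith) (by linarith)).continuousAt.norm
    exact this.eventually (gt_mem_nhds (by simp [h]))
  have e3 : ∀ᶠ z in 𝓝 s, PP (Rh m ^ 2) z = 0 := by
    filter_upwards [hU, e1, e2] with z hz a b
    rw [← kk_eq_zero_iff m z (by linarith [hz.1]) (by linarith [hz.2.1])]
    simp only [h, mul_zero, Complex.exp_zero] at a
    obtain ⟨k, hk⟩ := Complex.exp_eq_one_iff.1 a
    have hk' : kk m z = k * (2 * Real.pi) := by
      apply mul_left_cancel₀ Complex.I_ne_zero; rw [hk]; ring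
    by_cases k0 : k = 0
    · simp [hk', k0]
    · exfalso
      have : (1 : ℝ) ≤ |(k : ℝ)| := by exact_mod_cast Int.one_le_abs k0
      rw [hk'] at b
      simp [abs_of_pos Real.pi_pos] at b
      nlinarith [Real.pi_gt_three]
  exact PP_not_infinite m _ (infinite_of_mem_nhds s e3) fun z hz => hz

theorem PP_root (m : ℕ) (s : ℂ) (h0 : 1 / 2 ≤ s.re) (h : PP (Rh m ^ 2) s = 0) : 1 < s.re := by
  by_contra h1
  push Not at h1
  rcases le_total 0 s.im with hy | hy
  · exact PP_ne_zero_upper m s h0 h1 hy h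
  · refine PP_ne_zero_upper m ((starRingEnd ℂ) s) (by simpa using h0) (by simpa using h1)
      (by simpa using hy) ?_
    rw [← conj_PP, h, map_zero]

end Pool.Agent.P.MP_f074b0_an
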