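import Pool.Agent.P.MP_f074b0_an.Ser
import Pool.Agent.P.MP_f074b0_an.Zero

/-! Injectivity of the polyanalytic Berezin transform on bounded functions. -/

open MeasureTheory Metric Complex Filter Topology Set Polynomial
open scoped ENNReal ComplexConjugate

noncomputable section

namespace Pool.Agent.P.MP_f074b0_an

def DD : ℂ[X] →ₗ[ℂ] ℂ[X] := Polynomial.lsum fun j => LinearMap.toSpanSingleton ℂ ℂ[X]
  ((((j : ℂ) + 2) * (j + 1)) • X ^ j - ((j : ℂ) + 2) ^ 2 • X ^ (j + 1))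

lemma DD_pow (j : ℕ) :
    DD (X ^ j) = (((j : ℂ) + 2) * (j + 1)) • X ^ j - ((j : ℂ) + 2) ^ 2 • X ^ (j + 1) := by
  rw [X_pow_eq_monomial, DD, lsum_apply, sum_monomial_index] <;> simp [X_pow_eq_monomial]

def kv (v : ℂ[X]) (z w : ℂ) : ℂ := jj z w * v.eval (rho z w : ℂ)

@[fun_prop] lemma measurable_kv (v : ℂ[X]) {α : Type} [MeasurableSpace α] {f g : α → ℂ}
    (hf : Measurable f) (hg : Measurable g) : Measurable fun x => kv v (f x) (g x) :=
  Measurable.mul (by fun_prop) (v.continuous.measurable.comp (by fun_prop))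

lemma kv_add (u v : ℂ[X]) (z w : ℂ) : kv (u + v) z w = kv u z w + kv v z w := by simp [kv, mul_add]
lemma kv_smul (c : ℂ) (v : ℂ[X]) (z w : ℂ) : kv (c • v) z w = c * kv v z w := by
  simp [kv]; ring

lemma kv_bound (v : ℂ[X]) :
    ∃ C, 0 ≤ C ∧ ∀ z w, ‖z‖ < 1 → ‖w‖ < 1 → ‖kv v z w‖ ≤ C * jj z w := by
  obtain ⟨C, hC⟩ := (isCompact_Icc (a := (0 : ℝ)) (b := 1)).exists_bound_of_continuousOn
    (v.continuous.comp continuous_ofReal).continuousOn
  refine ⟨C, (norm_nonneg _).trans (hC 0 (by simp)), fun z w hz hw => ?_⟩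
  rw [kv, norm_mul, Complex.norm_real, Real.norm_of_nonneg (jj_nonneg z w), mul_comm]
  exact mul_le_mul_of_nonneg_right (hC _ ⟨(rho_pos hz hw).le, rho_le_one hz hw⟩) (jj_nonneg z w)

lemma jj_le' {z w : ℂ} (hz : ‖z‖ < 1) (hw : ‖w‖ < 1) : jj z w ≤ 1 / (1 - ‖w‖) ^ 4 := by
  have h1 := norm_den_ge (a := w) hz.le
  have h2 := yy_pos hz; have h3 := yy_le_one z
  have h4 : 0 < 1 - ‖w‖ := by linarith
  rw [jj, norm_den_comm]; gcongr; nlinarith

lemma int_yy {t : ℝ} (ht : -1 < t) : Integrable (fun z => yy z ^ t) dA := by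
  rw [integrable_dA]
  refine (integrableOn_fun_norm_addHaar volume (f := fun y : ℝ => (1 - y ^ 2) ^ t)).2 ?_
  have h1 := ((intervalIntegral.intervalIntegrable_rpow' (a := 1) (b := 0) ht).comp_sub_left 1)
  simp only [sub_self, sub_zero] at h1
  have h2 := h1.mul_continuousOn (g := fun y => y * (1 + y) ^ t)
    (continuousOn_id.mul (ContinuousOn.rpow_const (by fun_prop) fun y hy => Or.inl (by
      rw [uIcc_of_le zero_le_one] at hy; linarith [hy.1])))
  rw [intervalIntegrable_iff_integrableOn_Ioo_of_le zero_le_one] at h2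
  refine h2.congr_fun (fun y hy => ?_) measurableSet_Ioo
  simp only [finrank_real_complex, Nat.add_one_sub_one, pow_one, smul_eq_mul]
  rw [show 1 - y ^ 2 = (1 - y) * (1 + y) by ring,
    Real.mul_rpow (by linarith [hy.2]) (by linarith [hy.1])]
  ring

lemma int_yc {e : ℂ} (he : -1 < e.re) : Integrable (fun z => yc z e) dA :=
  (int_yy he).mono' (Measurable.aestronglyMeasurable (by fun_prop))
    (ae_ball.mono fun z hz => (norm_yc hz e).le)

def IV (v : ℂ[X]) (e w : ℂ) : ℂ := ∫ z, kv v z w * yc z e ∂dA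

lemma IV_int (v : ℂ[X]) {e w : ℂ} (he : -1 < e.re) (hw : ‖w‖ < 1) :
    Integrable (fun z => kv v z w * yc z e) dA := by
  obtain ⟨C, h0, hC⟩ := kv_bound v
  exact int_bdd (int_yc he) (by fun_prop) (C * (1 / (1 - ‖w‖) ^ 4)) fun z hz =>
    (hC z w hz hw).trans (mul_le_mul_of_nonneg_left (jj_le' hz hw) h0)

lemma IV_add (u v : ℂ[X]) {e w : ℂ} (he : -1 < e.re) (hw : ‖w‖ < 1) :
    IV (u + v) e w = IV u e w + IV v e w := by
  simp only [IV, kv_add, add_mul]; exact integral_add (IV_int u he hw) (IV_int v he hw)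

lemma IV_smul (c : ℂ) (v : ℂ[X]) (e w : ℂ) : IV (c • v) e w = c * IV v e w := by
  simp only [IV, kv_smul, mul_assoc, integral_const_mul]

lemma IV_sub (u v : ℂ[X]) {e w : ℂ} (he : -1 < e.re) (hw : ‖w‖ < 1) :
    IV (u - v) e w = IV u e w - IV v e w := by
  rw [sub_eq_add_neg, IV_add _ _ he hw, ← neg_one_smul ℂ v, IV_smul]; ring

lemma IV_pow (j : ℕ) (e : ℂ) {w : ℂ} (hw : ‖w‖ < 1) :
    IV (X ^ j) e w = (1 - conj w * w) ^ j * SS (j + 1) (e + j + 2) w := by
  rw [IV, SS, ← integral_const_mul]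
  refine integral_congr_ball fun z hz => ?_
  have h1 := den_ne hz hw.le; have h2 := den_ne' hz hw.le
  rw [show e + j + 2 = e + ((j + 2 : ℕ) : ℂ) by push_cast; ring, yc_add_nat hz, kv, eval_pow, eval_X,
    jj_cplx, rho_cplx, yy_cplx, div_pow, mul_pow, mul_pow, mul_pow]
  field_simp; ring

lemma IV_id (v : ℂ[X]) {e w : ℂ} (he : -1 < e.re) (hw : ‖w‖ < 1) :
    IV (DD v) e w = (e + 2) * (e + 1) * IV v e w - (e + 2) ^ 2 * IV v (e + 1) w := by
  have he1 : -1 < (e + 1).re := by simp; linarith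
  induction v using Polynomial.induction_on' with
  | add u v hu hv => rw [map_add, IV_add _ _ he hw, IV_add _ _ he hw, IV_add _ _ he1 hw, hu, hv]; ring
  | monomial j c =>
    have := SS_id (j + 1) (x := e + j + 2) (by simp; linarith [j.cast_nonneg (α := ℝ)]) hw
    rw [← smul_X_eq_monomial, map_smul, DD_pow, IV_smul, IV_smul, IV_smul, IV_sub _ _ he hw, IV_smul,
      IV_smul, IV_pow _ _ hw, IV_pow _ _ hw, IV_pow _ _ hw,
      show e + 1 + j + 2 = e + j + 2 + 1 by ring,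
      show e + ((j + 1 : ℕ) : ℂ) + 2 = e + j + 2 + 1 by push_cast; ring]
    push_cast at this
    linear_combination -c * (1 - conj w * w) ^ j * this

/-- Bounded measurable functions. -/
def Bd (g : ℂ → ℂ) : Prop := Measurable g ∧ ∃ C, ∀ z, ‖g z‖ ≤ C

lemma Bd.comp_ph {g : ℂ → ℂ} (hg : Bd g) (c : ℂ) : Bd fun w => g (ph c w) := by
  obtain ⟨h1, C, hC⟩ := hg
  exact ⟨by fun_prop, C, fun z => hC _⟩

/-- Generalised Berezin transforms. -/
def be (g : ℂ → ℂ) (v : ℂ[X]) (z : ℂ) : ℂ := ∫ w, kv v z w * g w ∂dA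

lemma int_jj {z : ℂ} (hz : ‖z‖ < 1) : Integrable (jj z) dA :=
  integrable_of_bound (Measurable.aestronglyMeasurable (by fun_prop)) _ fun w hw => by
    rw [Real.norm_of_nonneg (jj_nonneg z w)]; exact jj_le hz hw.le

lemma kvg_bound {g : ℂ → ℂ} (hg : Bd g) (v : ℂ[X]) :
    ∃ C, 0 ≤ C ∧ ∀ z w, ‖z‖ < 1 → ‖w‖ < 1 → ‖kv v z w * g w‖ ≤ C * jj z w := by
  obtain ⟨-, C, hC⟩ := hg
  obtain ⟨C', h0, hC'⟩ := kv_bound v
  have := (norm_nonneg _).trans (hC 0)
  refine ⟨C' * C, by positivity, fun z w hz hw => ?_⟩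
  rw [norm_mul, mul_right_comm]
  exact mul_le_mul (hC' z w hz hw) (hC w) (norm_nonneg _) (mul_nonneg h0 (jj_nonneg z w))

lemma be_int {g : ℂ → ℂ} (hg : Bd g) (v : ℂ[X]) {z : ℂ} (hz : ‖z‖ < 1) :
    Integrable (fun w => kv v z w * g w) dA := by
  obtain ⟨C, -, hC⟩ := kvg_bound hg v
  have := hg.1
  exact ((int_jj hz).const_mul C).mono' (Measurable.aestronglyMeasurable (by fun_prop))
    (ae_ball.mono fun w hw => hC z w hz hw)

lemma be_bound {g : ℂ → ℂ} (hg : Bd g) (v : ℂ[X]) : ∃ C, ∀ z, ‖z‖ < 1 → ‖be g v z‖ ≤ C := by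
  obtain ⟨C, -, hC⟩ := kvg_bound hg v
  refine ⟨C, fun z hz => (norm_integral_le_of_norm_le ((int_jj hz).const_mul C)
    (ae_ball.mono fun w hw => hC z w hz hw)).trans ?_⟩
  rw [integral_const_mul, integral_jj hz, mul_one]

lemma be_meas {g : ℂ → ℂ} (hg : Bd g) (v : ℂ[X]) : Measurable (be g v) := by
  have := hg.1
  exact (StronglyMeasurable.integral_prod_right (f := fun z w => kv v z w * g w)
    (Measurable.stronglyMeasurable (by unfold Function.uncurry; fun_prop))).measurable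

lemma be_cont {g : ℂ → ℂ} (hg : Bd g) (v : ℂ[X]) : ContinuousAt (be g v) 0 := by
  obtain ⟨C, h0, hC⟩ := kvg_bound hg v
  have := hg.1
  refine continuousAt_of_dominated (bound := fun _ => C * (1 / (1 - 1 / 2) ^ 4))
    (Eventually.of_forall fun z => Measurable.aestronglyMeasurable (by fun_prop)) ?_
    (integrable_const _) (ae_ball.mono fun w hw => ?_)
  · filter_upwards [ball_mem_nhds (0 : ℂ) (show (0 : ℝ) < 1 / 2 by norm_num)] with z hz
    rw [mem_ball_zero_iff] at hz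
    have hz1 : ‖z‖ < 1 := by linarith
    filter_upwards [ae_ball] with w hw
    refine (hC z w hz1 hw).trans (mul_le_mul_of_nonneg_left ((jj_le hz1 hw.le).trans ?_) h0)
    gcongr
  · have c1 : Continuous fun z : ℂ => ‖1 - conj z * w‖ := by fun_prop
    have d1 : ContinuousAt (fun z => jj z w) 0 :=
      ContinuousAt.div₀ (continuous_yy.pow 2).continuousAt (c1.pow 4).continuousAt (by simp)
    have d2 : ContinuousAt (fun z => rho z w) 0 :=
      ContinuousAt.div₀ (continuous_yy.mul continuous_const).continuousAt (c1.pow 2).continuousAt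
        (by simp)
    exact ((continuous_ofReal.continuousAt.comp d1).mul
      ((v.continuous.comp continuous_ofReal).continuousAt.comp d2)).mul continuousAt_const

lemma be_ph (g : ℂ → ℂ) (v : ℂ[X]) {c z : ℂ} (hc : ‖c‖ < 1) (hz : ‖z‖ < 1) :
    be (fun w => g (ph c w)) v z = be g v (ph c z) := by
  rw [be, be, ← cv_ph hc]
  refine integral_congr_ball fun u hu => ?_
  have e : rho z (ph c u) = rho (ph c z) u := by
    rw [← rho_ph_ph hc hz (norm_ph_lt hc hu), ph_ph hc hu.le]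
  have h1 := (yy_pos hu).ne'; have h2 := (rho_pos hc hu).ne'
  have e2 : jj c u * jj z (ph c u) = jj (ph c z) u := by
    rw [jj_eq hu, jj_eq hu, jj_eq (norm_ph_lt hc hu), e, yy_ph hc hu.le]; field_simp
  simp only [kv, ph_ph hc hu.le, e, ← e2, real_smul]; push_cast; ring

lemma ae_prod : ∀ᵐ p ∂dA.prod dA, ‖p.1‖ < 1 ∧ ‖p.2‖ < 1 :=
  (Measure.quasiMeasurePreserving_fst.ae ae_ball).and (Measure.quasiMeasurePreserving_snd.ae ae_ball)

lemma int_prod {g : ℂ → ℂ} (hg : Bd g) (v : ℂ[X]) {φ : ℂ → ℂ} (hm : Measurable φ)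
    (hφ : Integrable φ dA) :
    Integrable (Function.uncurry fun z w => kv v z w * g w * φ z) (dA.prod dA) := by
  obtain ⟨C, h0, hC⟩ := kvg_bound hg v
  have := hg.1
  have h1 : Integrable (fun p : ℂ × ℂ => jj p.1 p.2 * ‖φ p.1‖) (dA.prod dA) := by
    rw [integrable_prod_iff (Measurable.aestronglyMeasurable (by fun_prop))]
    refine ⟨ae_ball.mono fun z hz => (int_jj hz).mul_const ‖φ z‖, hφ.norm.congr (ae_ball.mono fun z hz => ?_)⟩
    simp only [norm_mul, norm_norm, Real.norm_of_nonneg (jj_nonneg _ _)]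
    rw [integral_mul_const, integral_jj hz, one_mul]
  refine (h1.const_mul C).mono' (Measurable.aestronglyMeasurable (by unfold Function.uncurry; fun_prop))
    (ae_prod.mono fun p hp => ?_)
  rw [Function.uncurry, norm_mul, ← mul_assoc]
  exact mul_le_mul_of_nonneg_right (hC _ _ hp.1 hp.2) (norm_nonneg _)

lemma fubini {g : ℂ → ℂ} (hg : Bd g) (v : ℂ[X]) {φ : ℂ → ℂ} (hm : Measurable φ)
    (hφ : Integrable φ dA) : ∫ z, be g v z * φ z ∂dA = ∫ w, g w * ∫ z, kv v z w * φ z ∂dA ∂dA ∧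
      Integrable (fun w => g w * ∫ z, kv v z w * φ z ∂dA) dA := by
  have h := int_prod hg v hm hφ
  have e : ∀ w, g w * ∫ z, kv v z w * φ z ∂dA = ∫ z, kv v z w * g w * φ z ∂dA := fun w => by
    rw [← integral_const_mul]; congr 1; ext z; ring
  simp only [e, be, ← integral_mul_const]
  exact ⟨integral_integral_swap h, h.integral_prod_right⟩

def La (g : ℂ → ℂ) (v : ℂ[X]) (e : ℂ) : ℂ := ∫ z, be g v z * yc z e ∂dA

lemma La_id {g : ℂ → ℂ} (hg : Bd g) (v : ℂ[X]) (μ : ℂ) {e : ℂ} (he : -1 < e.re) :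
    La g (DD v - μ • v) e = ((e + 2) * (e + 1) - μ) * La g v e - (e + 2) ^ 2 * La g v (e + 1) := by
  have he1 : -1 < (e + 1).re := by simp; linarith
  obtain ⟨h1, -⟩ := fubini hg (DD v - μ • v) (measurable_yc measurable_id e) (int_yc he)
  obtain ⟨h2, i2⟩ := fubini hg v (measurable_yc measurable_id e) (int_yc he)
  obtain ⟨h3, i3⟩ := fubini hg v (measurable_yc measurable_id (e + 1)) (int_yc he1)
  simp only [id] at h1 h2 h3 i2 i3
  rw [La, La, La, h1, h2, h3, ← integral_const_mul, ← integral_const_mul,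
    ← integral_sub (i2.const_mul _) (i3.const_mul _)]
  refine integral_congr_ball fun w hw => ?_
  change g w * IV _ e w = _ * (g w * IV v e w) - _ * (g w * IV v (e + 1) w)
  rw [IV_sub _ _ he hw, IV_smul, IV_id v he hw]; ring

lemma peak {F : ℂ → ℂ} (hF : Integrable F dA) (hc : ContinuousAt F 0) :
    Tendsto (fun k : ℕ => (∫ z, yy z ^ k ∂dA)⁻¹ • ∫ z, yy z ^ k • F z ∂dA) atTop (𝓝 (F 0)) := by
  have := tendsto_setIntegral_pow_smul_of_unique_maximum_of_isCompact_of_measure_nhdsWithin_pos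
    (μ := dA) (isCompact_closedBall (0 : ℂ) 1) (x₀ := 0) (g := F) (fun u hu h0 => ?_) (c := yy)
    continuous_yy.continuousOn (fun y _ hy => ?_) (fun y hy => ?_) (by simp [yy]) (by simp)
    hF.integrableOn hc.continuousWithinAt
  · rwa [Measure.restrict_eq_self_of_ae_mem (ae_ball.mono fun z hz => by simpa using hz.le)] at this
  · rw [dA, Measure.smul_apply, Measure.restrict_apply' measurableSet_ball, inter_assoc,
      inter_eq_right.2 ball_subset_closedBall, smul_eq_mul]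
    exact ENNReal.mul_pos c_ne_zero ((hu.inter isOpen_ball).measure_ne_zero _ ⟨0, h0, by simp⟩)
  · have := norm_pos_iff.2 hy
    simp only [yy, norm_zero]; nlinarith
  · rw [mem_closedBall_zero_iff] at hy
    unfold yy; nlinarith [norm_nonneg y]

lemma peak_zero {g : ℂ → ℂ} (hg : Bd g) (v : ℂ[X]) {e : ℂ} (he : -1 < e.re)
    (h : ∀ k : ℕ, La g v (e + k) = 0) : be g v 0 = 0 := by
  obtain ⟨C, hC⟩ := be_bound hg v
  have hc : ContinuousAt (fun z => yc z e) 0 :=
    ContinuousAt.cpow (continuous_ofReal.comp continuous_yy).continuousAt continuousAt_const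
      (by simp [yy])
  have := peak (int_bdd (int_yc he) (be_meas hg v) C hC) ((be_cont hg v).mul hc)
  have e0 : ∀ k : ℕ, ∫ z, yy z ^ k • (be g v z * yc z e) ∂dA = 0 := fun k => by
    rw [← h k, La]
    refine integral_congr_ball fun z hz => ?_
    rw [yc_add_nat hz, real_smul]; push_cast; ring
  simp only [e0, smul_zero] at this
  simpa [yc, yy] using tendsto_nhds_unique this tendsto_const_nhds

/-- Vanishing of a generalised Berezin transform. -/
def ZZ (g : ℂ → ℂ) (v : ℂ[X]) : Prop := ∀ z, ‖z‖ < 1 → be g v z = 0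

lemma ZZ.La {g : ℂ → ℂ} {v : ℂ[X]} (h : ZZ g v) (e : ℂ) : La g v e = 0 := by
  rw [MP_f074b0_an.La, integral_congr_ball (G := fun _ => 0) fun z hz => by rw [h z hz, zero_mul]]
  simp

lemma ZZ.comp_ph {g : ℂ → ℂ} {v : ℂ[X]} (h : ZZ g v) {c : ℂ} (hc : ‖c‖ < 1) :
    ZZ (fun w => g (ph c w)) v := fun z hz => by rw [be_ph g v hc hz, h _ (norm_ph_lt hc hz)]

lemma be_zero (g : ℂ → ℂ) (v : ℂ[X]) {c : ℂ} (hc : ‖c‖ < 1) :
    be (fun w => g (ph c w)) v 0 = be g v c := by rw [be_ph g v hc (by simp)]; simp [ph]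

lemma ZZ.smul {g : ℂ → ℂ} {v : ℂ[X]} (h : ZZ g v) (c : ℂ) : ZZ g (c • v) := fun z hz => by
  have := h z hz
  simp only [be, kv_smul, mul_assoc, integral_const_mul] at this ⊢
  rw [this, mul_zero]

lemma ZZ.peel {g : ℂ → ℂ} (hg : Bd g) {v : ℂ[X]} {s : ℂ} (hs : 1 < s.re)
    (h : ZZ g (DD v - (s * (s - 1)) • v)) : ZZ g v := fun c hc => by
  rw [← be_zero g v hc]
  refine peak_zero (hg.comp_ph c) v (e := s - 1) (by simp; linarith) fun k => ?_
  have key : ∀ k : ℕ, ((s - 2 + k + 2) * (s - 2 + k + 1) - s * (s - 1)) *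
      MP_f074b0_an.La (fun w => g (ph c w)) v (s - 2 + k) = 0 →
      MP_f074b0_an.La (fun w => g (ph c w)) v (s - 1 + k) = 0 := fun k hk => by
    have h1 := La_id (hg.comp_ph c) v (s * (s - 1)) (e := s - 2 + k)
      (by simp; linarith [k.cast_nonneg (α := ℝ)])
    rw [(h.comp_ph hc).La, hk, zero_sub, eq_comm, neg_eq_zero, mul_eq_zero,
      show s - 2 + k + 1 = s - 1 + k by ring] at h1
    refine h1.resolve_left (pow_ne_zero _ (ne_zero_of_re_pos ?_))
    simp; linarith [k.cast_nonneg (α := ℝ)]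
  induction k with
  | zero => exact key 0 (by simp; left; ring)
  | succ k ih =>
    refine key (k + 1) ?_
    rw [show s - 2 + ((k + 1 : ℕ) : ℂ) = s - 1 + k by push_cast; ring, ih, mul_zero]

lemma ZZ.raise {g : ℂ → ℂ} (hg : Bd g) {v : ℂ[X]} (h : ZZ g v) (μ : ℂ) : ZZ g (DD v - μ • v) :=
  fun c hc => by
  rw [← be_zero g _ hc]
  refine peak_zero (hg.comp_ph c) _ (e := 0) (by simp) fun k => ?_
  rw [La_id (hg.comp_ph c) v μ (by simp; linarith [k.cast_nonneg (α := ℝ)]), (h.comp_ph hc).La,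
    (h.comp_ph hc).La]
  simp

lemma pow_succ_eq (j : ℕ) : (X : ℂ[X]) ^ (j + 1) =
    (-(((j : ℂ) + 2) ^ 2)⁻¹) • (DD (X ^ j) - (((j : ℂ) + 2) * (j + 1)) • X ^ j) := by
  rw [DD_pow, sub_sub_cancel_left, neg_smul, smul_neg, neg_neg, smul_smul,
    inv_mul_cancel₀ (pow_ne_zero 2 (n2 j)), one_smul]

lemma ZZ.pow {g : ℂ → ℂ} (hg : Bd g) (h : ZZ g 1) (j : ℕ) : ZZ g (X ^ j) := by
  induction j with
  | zero => simpa using h
  | succ j ih => rw [pow_succ_eq]; exact (ih.raise hg _).smul _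

lemma aeval_step (p : ℂ[X]) (μ : ℂ) :
    aeval (DD : Module.End ℂ ℂ[X]) ((X - C μ) * p) 1 =
      DD (aeval (DD : Module.End ℂ ℂ[X]) p 1) - μ • aeval (DD : Module.End ℂ ℂ[X]) p 1 := by
  simp [map_mul, Module.End.mul_apply, Algebra.algebraMap_eq_smul_one]

lemma ZZ.of_aeval {g : ℂ → ℂ} (hg : Bd g) (n : ℕ) (p : ℂ[X]) (hn : p.natDegree = n) (h0 : p ≠ 0)
    (hr : ∀ μ, p.eval μ = 0 → ∃ s : ℂ, 1 < s.re ∧ μ = s * (s - 1))
    (h : ZZ g (aeval (DD : Module.End ℂ ℂ[X]) p 1)) : ZZ g 1 := by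
  induction n generalizing p with
  | zero =>
    obtain ⟨c, rfl⟩ := natDegree_eq_zero.1 hn
    have hc : c ≠ 0 := fun h => h0 (by simp [h])
    have := h.smul c⁻¹
    simpa [Algebra.algebraMap_eq_smul_one, smul_smul, hc] using this
  | succ n ih =>
    obtain ⟨μ, hμ⟩ := IsAlgClosed.exists_root p (degree_ne_of_natDegree_ne (n := 0) (by omega))
    obtain ⟨q, rfl⟩ := dvd_iff_isRoot.2 hμ
    have hq : q ≠ 0 := right_ne_zero_of_mul h0
    obtain ⟨s, hs, rfl⟩ := hr μ hμ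
    rw [aeval_step] at h
    refine ih q ?_ hq (fun ν hν => hr ν (by simp [hν])) (h.peel hg hs)
    rw [natDegree_mul (X_sub_C_ne_zero _) hq, natDegree_X_sub_C] at hn; omega

lemma exists_pol (G : ℝ[X]) : ∃ p : ℂ[X], (∀ μ, p.eval μ = fn (fun j => ee j μ) G) ∧
    aeval (DD : Module.End ℂ ℂ[X]) p 1 = G.map ofRealHom := by
  induction G using Polynomial.induction_on' with
  | add u v hu hv =>
    obtain ⟨p, h1, h2⟩ := hu
    obtain ⟨q, h3, h4⟩ := hv
    exact ⟨p + q, fun μ => by simp [h1, h3], by simp [h2, h4]⟩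
  | monomial j c =>
    have : ∃ p : ℂ[X], (∀ μ, p.eval μ = ee j μ) ∧ aeval (DD : Module.End ℂ ℂ[X]) p 1 = X ^ j := by
      induction j with
      | zero => exact ⟨1, by simp [ee], by simp⟩
      | succ j ih =>
        obtain ⟨p, h1, h2⟩ := ih
        refine ⟨(-(((j : ℂ) + 2) ^ 2)⁻¹) • ((X - C (((j : ℂ) + 2) * (j + 1))) * p), fun μ => ?_, ?_⟩
        · rw [eval_smul, eval_mul, h1, ee, eval_sub, eval_X, eval_C, smul_eq_mul]; ring
        · rw [map_smul, LinearMap.smul_apply, aeval_step, h2, ← pow_succ_eq]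
    obtain ⟨p, h1, h2⟩ := this
    exact ⟨(c : ℂ) • p, fun μ => by simp [h1], by
      rw [map_smul, LinearMap.smul_apply, h2, smul_X_eq_monomial, map_monomial]; rfl⟩

lemma ZZ.one {g : ℂ → ℂ} (hg : Bd g) (m : ℕ) (h : ZZ g ((RR m ^ 2).map ofRealHom)) : ZZ g 1 := by
  obtain ⟨p, h1, h2⟩ := exists_pol (Rh m ^ 2)
  rw [RR_sq, ← h2] at h
  refine ZZ.of_aeval hg _ p rfl (fun h0 => PP_ne_zero m (by rw [PP, ← h1, h0, eval_zero]))
    (fun μ hμ => ?_) h
  obtain ⟨t, ht⟩ := IsAlgClosed.exists_pow_nat_eq (μ + 1 / 4) two_pos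
  have key : ∀ t : ℂ, t ^ 2 = μ + 1 / 4 → 0 ≤ t.re → ∃ s : ℂ, 1 < s.re ∧ μ = s * (s - 1) :=
    fun t ht h0 => by
    have e : μ = (1 / 2 + t) * (1 / 2 + t - 1) := by linear_combination -ht
    exact ⟨1 / 2 + t, PP_root m _ (by simpa using h0) (by rw [PP, ← h1, ← e, hμ]), e⟩
  rcases le_total 0 t.re with h0 | h0
  · exact key t ht h0
  · exact key (-t) (by rw [neg_sq, ht]) (by simpa using h0)

lemma avg_bound {F : ℂ → ℂ} (C : ℝ) (h0 : 0 ≤ C) (hC : ∀ z, ‖z‖ < 1 → ‖F z‖ ≤ C) (k : ℕ) :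
    ‖(∫ z, yy z ^ k ∂dA)⁻¹ • ∫ z, yy z ^ k • F z ∂dA‖ ≤ C := by
  have hi : Integrable (fun z => yy z ^ k) dA := by
    simpa using int_yy (t := k) (by linarith [k.cast_nonneg (α := ℝ)])
  have h1 : ‖∫ z, yy z ^ k • F z ∂dA‖ ≤ (∫ z, yy z ^ k ∂dA) * C := by
    rw [← integral_mul_const]
    refine norm_integral_le_of_norm_le (hi.mul_const C) (ae_ball.mono fun z hz => ?_)
    have := pow_nonneg (yy_pos hz).le k
    rw [norm_smul, Real.norm_of_nonneg this]; gcongr; exact hC z hz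
  have h2 : 0 ≤ ∫ z, yy z ^ k ∂dA :=
    integral_nonneg_of_ae (ae_ball.mono fun z hz => pow_nonneg (yy_pos hz).le k)
  rw [norm_smul, norm_inv, Real.norm_of_nonneg h2]
  rcases h2.eq_or_lt with h | h
  · rw [← h]; simpa
  · rw [inv_mul_le_iff₀ h]; exact h1

theorem injective {g : ℂ → ℂ} (hg : Bd g) (m : ℕ) (h : ZZ g ((RR m ^ 2).map ofRealHom)) :
    ∀ᵐ z ∂dA, g z = 0 := by
  have hZ := (h.one hg m).pow hg
  obtain ⟨hm, C, hC⟩ := id hg
  have hgi : Integrable g dA := integrable_of_bound hm.aestronglyMeasurable C fun z _ => hC z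
  refine ae_eq_zero_of_integral_contDiff_smul_eq_zero hgi.locallyIntegrable fun ψ hψ hs => ?_
  have hψc := hψ.continuous
  obtain ⟨M, hM⟩ := hψc.bounded_above_of_compact_support hs
  have hM0 := (norm_nonneg _).trans (hM 0)
  set F : ℂ → ℂ → ℂ := fun w u => ((yy u ^ 4 / ‖1 - conj w * u‖ ^ 4 * ψ (ph w u) : ℝ) : ℂ) with hF
  have hFb : ∀ w u, ‖w‖ < 1 → ‖u‖ < 1 → ‖F w u‖ ≤ 2 ^ 4 * M := fun w u hw hu => by
    have h1 := norm_den_ge (a := u) hw.le
    rw [norm_den_comm] at h1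
    have h2 := yy_pos hu
    have h3 : 0 < ‖1 - conj w * u‖ := by linarith
    rw [hF, Complex.norm_real, norm_mul, ← div_pow, norm_pow, Real.norm_of_nonneg (by positivity)]
    gcongr
    · rw [div_le_iff₀ h3, yy]; nlinarith [norm_nonneg u]
    · exact hM _
  have hFm : Measurable (Function.uncurry F) := by unfold Function.uncurry; fun_prop
  have e1 : ∀ (k : ℕ) w, ‖w‖ < 1 →
      ∫ z, kv (X ^ (k + 2)) z w * ψ z ∂dA = ∫ u, yy u ^ k • F w u ∂dA := fun k w hw => by
    rw [← cv_ph hw]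
    refine integral_congr_ball fun u hu => ?_
    have e : rho (ph w u) w = yy u := by
      rw [rho_comm, ← yy_ph hw (norm_ph_lt hw hu).le, ph_ph hw hu.le]
    have h1 := (yy_pos hw).ne'
    have e2 : jj w u * (jj (ph w u) w * yy u ^ (k + 2) * ψ (ph w u)) =
        yy u ^ k * (yy u ^ 4 / ‖1 - conj w * u‖ ^ 4 * ψ (ph w u)) := by
      rw [jj_eq hw, e, jj]; field_simp; ring
    simp only [kv, eval_pow, eval_X, e, hF, real_smul]
    exact_mod_cast e2
  have e2 : ∀ k : ℕ, ∫ w, g w * ((∫ z, yy z ^ k ∂dA)⁻¹ • ∫ u, yy u ^ k • F w u ∂dA) ∂dA = 0 :=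
    fun k => by
    have h1 := (fubini hg (X ^ (k + 2)) (φ := fun z => ψ z) (by fun_prop)
      (integrable_of_bound (by fun_prop) M fun z _ => by simpa using hM z)).1
    rw [integral_congr_ball (G := fun _ => 0) fun z hz => by rw [hZ _ z hz, zero_mul]] at h1
    have h2 : ∫ w, g w * ∫ u, yy u ^ k • F w u ∂dA ∂dA = ∫ _, 0 ∂dA :=
      (integral_congr_ball fun w hw => by rw [e1 k w hw]).trans h1.symm
    simp only [mul_smul_comm, integral_smul, h2, integral_zero, smul_zero]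
  have := tendsto_integral_of_dominated_convergence (μ := dA)
    (F := fun k w => g w * ((∫ z, yy z ^ k ∂dA)⁻¹ • ∫ u, yy u ^ k • F w u ∂dA))
    (f := fun w => ψ w • g w) (fun _ => C * (2 ^ 4 * M)) (fun k => ?_) (integrable_const _)
    (fun k => ae_ball.mono fun w hw => ?_) (ae_ball.mono fun w hw => ?_)
  · simp only [e2] at this
    exact tendsto_nhds_unique this tendsto_const_nhds
  · have h1 := (StronglyMeasurable.integral_prod_right (ν := dA)
      (f := fun w u => yy u ^ k • F w u) (Measurable.stronglyMeasurable (by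
        unfold Function.uncurry; fun_prop))).aestronglyMeasurable (μ := dA)
    exact hm.aestronglyMeasurable.mul (h1.const_smul (∫ z, yy z ^ k ∂dA)⁻¹)
  · rw [norm_mul]
    exact mul_le_mul (hC w) (avg_bound _ (by positivity) (fun u hu => hFb w u hw hu) k)
      (norm_nonneg _) ((norm_nonneg _).trans (hC 0))
  · have c1 : Continuous fun u : ℂ => ‖1 - conj w * u‖ := by fun_prop
    have hc : ContinuousAt (F w) 0 := continuous_ofReal.continuousAt.comp
      ((ContinuousAt.div₀ (continuous_yy.pow 4).continuousAt (c1.pow 4).continuousAt (by simp)).mul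
        (hψc.continuousAt.comp (ph_deriv hw (by simp)).continuousAt))
    have := (peak (integrable_of_bound (Measurable.aestronglyMeasurable (by fun_prop)) _
      fun u hu => hFb w u hw hu) hc).const_mul (g w)
    convert this using 2
    simp [hF, yy, ph, mul_comm]

end Pool.Agent.P.MP_f074b0_an
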