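import Pool.Agent.P.MP_f074b0_an.Compact

/-! The theorem, for the concrete space. -/

open MeasureTheory Metric Filter Topology
open scoped InnerProductSpace

noncomputable section

namespace Pool.Agent.P.MP_f074b0_an

theorem main (m : ℕ) (K : ℂ → polyBergman (m + 1))
    (hK : ∀ z ∈ ball (0 : ℂ) 1, ∀ (F : polyBergman (m + 1)) (G : ℂ → ℂ),
      IsPolyanalytic (m + 1) G → (F : Lp ℂ 2 dA) =ᵐ[dA] G → ⟪K z, F⟫_ℂ = G z)
    (f : ℂ → ℂ) (hf : MemLp f ⊤ dA) (T : polyBergman (m + 1) → polyBergman (m + 1))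
    (hT : ∀ g : polyBergman (m + 1), ∃ u : Lp ℂ 2 dA, u =ᵐ[dA] (fun z => f z * (g : Lp ℂ 2 dA) z) ∧
      T g = (polyBergman (m + 1)).orthogonalProjectionOnto u)
    (h : Tendsto (fun z => ⟪K z, T (K z)⟫_ℂ / ⟪K z, K z⟫_ℂ) (comap norm (𝓝[<] (1 : ℝ))) (𝓝 0)) :
    IsCompactOperator T := by
  have hKK : ∀ z, ‖z‖ < 1 → K z = KK m z := fun z hz => ext_inner_right ℂ fun F =>
    hK z (mem_ball_zero_iff.2 hz) F _ (poly_ev F) (ev_ae F)
  obtain ⟨C, hC⟩ := eLpNormEssSup_lt_top_iff_isBoundedUnder.1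
    (by simpa using (Lp.memLp (hf.toLp f)).eLpNorm_lt_top)
  obtain ⟨f', hf', e⟩ := exists_rep (Lp.stronglyMeasurable (hf.toLp f)).measurable C.2 hC
  set T' : polyBergman (m + 1) →L[ℂ] polyBergman (m + 1) :=
    (polyBergman (m + 1)).orthogonalProjectionOnto ∘L
      (ContinuousLinearMap.mul ℂ ℂ).holderL dA ⊤ 2 2 (hf.toLp f) ∘L (polyBergman (m + 1)).subtypeL
  obtain rfl : T = T' := funext fun g => by
    obtain ⟨u, h1, h2⟩ := hT g
    refine h2.trans (congrArg _ (Lp.ext ?_))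
    filter_upwards [h1, hf.coeFn_toLp, (ContinuousLinearMap.mul ℂ ℂ).coeFn_holder (r := 2)
      (hf.toLp f) (g : Lp ℂ 2 dA)] with z h3 h4 h5
    rw [h3, ← h4]; exact h5.symm
  have hT : ∀ h g : polyBergman (m + 1), ⟪h, T' g⟫_ℂ =
      ∫ u, (starRingEnd ℂ) (ev h u) * (f' u * ev g u) ∂dA := fun h g => by
    refine (Submodule.inner_orthogonalProjectionOnto_eq_of_mem_left h _).trans ?_
    rw [inner_L2]
    refine integral_congr_ae ?_
    filter_upwards [ev_ae h, ev_ae g, e, (ContinuousLinearMap.mul ℂ ℂ).coeFn_holder (r := 2)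
      (hf.toLp f) (g : Lp ℂ 2 dA)] with u h1 h2 h3 h4
    rw [← h1, ← h2, ← h3]
    exact congrArg _ h4
  refine compact_of (isRK_KK m) hf' _ hT ?_
  have h1 := Tendsto.mul_const (rv (RR m) 1) h
  rw [zero_mul] at h1
  refine h1.congr' (ev_lt.mono fun z hz => ?_)
  have h2 : rv (RR m) 1 ≠ 0 := Complex.ofReal_ne_zero.2 (RR_one_ne m)
  have h3 : (yy z : ℂ) ≠ 0 := Complex.ofReal_ne_zero.2 (yy_pos hz).ne'
  have h4 : ⟪KK m z, T' (KK m z)⟫_ℂ = be f' ((RR m ^ 2).map Complex.ofRealHom) z / yy z ^ 2 := by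
    rw [hT, be, ← integral_div]
    refine integral_congr_ball fun u hu => ?_
    have h5 := congrArg Complex.ofReal (norm_ker_sq m hz hu)
    rw [Complex.ofReal_pow, normsq_cplx] at h5
    have h6 : ((RR m ^ 2).map Complex.ofRealHom).eval (rho z u : ℂ) =
        ((RR m ^ 2).eval (rho z u) : ℝ) := Polynomial.eval_map_apply Complex.ofRealHom _
    rw [ev, inner_KK m hu hz, mul_left_comm, h5, kv, h6]; push_cast; ring
  simp only [hKK z hz, h4, inner_KK_self m hz]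
  field_simp

end Pool.Agent.P.MP_f074b0_an
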