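import Pool.Agent.P.MP_f074b0_an.Disc
import Pool.Agent.P.MP_f074b0_an.Alg

/-! Polyanalytic functions: closure properties, mean value formula, reproducing kernel. -/

open MeasureTheory Metric Complex Filter Topology Set Polynomial
open scoped ENNReal ComplexConjugate

noncomputable section

namespace Pool.Agent.P.MP_f074b0_an

def II : ℝ[X] →ₗ[ℝ] ℝ where
  toFun p := ∫ x in (0 : ℝ)..1, p.eval x
  map_add' p q := by
    simp only [eval_add]
    exact intervalIntegral.integral_add (p.continuous.intervalIntegrable _ _)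
      (q.continuous.intervalIntegrable _ _)
  map_smul' c p := by simp [intervalIntegral.integral_const_mul]

lemma II_deriv (p : ℝ[X]) : II (derivative p) = p.eval 1 - p.eval 0 :=
  intervalIntegral.integral_eq_sub_of_hasDerivAt (fun x _ => p.hasDerivAt x)
    ((derivative p).continuous.intervalIntegrable _ _)

lemma II_C_mul (c : ℝ) (p : ℝ[X]) : II (C c * p) = c * II p := by
  rw [← smul_eq_C_mul, map_smul, smul_eq_mul]

lemma II_Lg (m j : ℕ) (h : j < m) : II (X ^ j * Lg m) = 0 := by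
  have hne : ∀ j : ℕ, j < m → (m : ℝ) * (m + 1) - j * (j + 1) ≠ 0 := fun j h => by
    have : (j : ℝ) < m := by exact_mod_cast h
    have := j.cast_nonneg (α := ℝ)
    nlinarith
  induction j with
  | zero =>
    have h1 := II_deriv (X * (1 - X) * derivative (Lg m))
    have e : derivative (X * (1 - X) * derivative (Lg m)) = -(C ((m : ℝ) * (m + 1)) * Lg m) := by
      simp only [derivative_mul, derivative_X, derivative_sub, derivative_one]
      linear_combination Lg_ode m
    rw [e, map_neg, II_C_mul] at h1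
    have := hne 0 h
    simp at h1 this ⊢
    tauto
  | succ j ih =>
    have h1 := II_deriv (X * (1 - X) * X ^ (j + 1) * derivative (Lg m) -
      C ((j : ℝ) + 1) * ((1 - X) * X ^ (j + 1) * Lg m))
    have e : derivative (X * (1 - X) * X ^ (j + 1) * derivative (Lg m) -
        C ((j : ℝ) + 1) * ((1 - X) * X ^ (j + 1) * Lg m)) =
        -(C ((m : ℝ) * (m + 1) - (j + 1) * (j + 1 + 1)) * (X ^ (j + 1) * Lg m)) -
          C (((j : ℝ) + 1) ^ 2) * (X ^ j * Lg m) := by
      have := Lg_ode m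
      simp only [derivative_mul, derivative_X, derivative_one, derivative_X_pow,
        derivative_C, map_add, map_mul, map_sub, map_pow, map_one, Nat.cast_add, Nat.cast_one,
        Nat.add_sub_cancel] at this ⊢
      linear_combination X ^ (j + 1) * this
    rw [e, map_sub, map_neg, II_C_mul, II_C_mul, ih (by omega)] at h1
    have := hne (j + 1) h
    push_cast at this
    simp only [eval_sub, eval_mul, eval_X, eval_one, sub_self, mul_zero, zero_mul, eval_pow,
      ne_eq, Nat.add_eq_zero_iff, one_ne_zero, and_false, not_false_eq_true, zero_pow, neg_eq_zero,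
      mul_eq_zero, sub_zero] at h1
    tauto

/-- The reproducing kernel at the centre, in the variable `1 - |w|^2`. -/
def RR (m : ℕ) : ℝ[X] := C ((-1) ^ m) * Rh m

lemma RR_sq (m : ℕ) : RR m ^ 2 = Rh m ^ 2 := by
  rw [RR, mul_pow, ← C_pow, ← pow_mul, mul_comm m 2, pow_mul]; simp

lemma natDegree_RR (m : ℕ) : (RR m).natDegree ≤ m :=
  (natDegree_C_mul_le _ _).trans (natDegree_Rh m)

lemma II_RR_pow (m j : ℕ) (h : j ≤ m) : II (X ^ j * RR m) = 1 := by
  have h1 := II_deriv (X ^ (j + 1) * Lg m)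
  have e : X ^ j * RR m = C ((-1) ^ m) * (derivative (X ^ (j + 1) * Lg m) +
      C ((m : ℝ) - j) * (X ^ j * Lg m)) := by
    simp only [RR, Rh, th, derivative_mul, derivative_X_pow, map_add, map_sub, map_one,
      Nat.cast_add, Nat.cast_one, Nat.add_sub_cancel]
    ring
  have h2 : ((m : ℝ) - j) * II (X ^ j * Lg m) = 0 := by
    rcases h.lt_or_eq with h | h
    · rw [II_Lg m j h, mul_zero]
    · simp [h]
  rw [e, II_C_mul, map_add, II_C_mul, h1, h2]
  simp [Lg_one, ← pow_add, ← two_mul]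

lemma II_RR (m : ℕ) (p : ℝ[X]) (h : p.natDegree ≤ m) : II (p * RR m) = p.eval 1 := by
  have e := p.as_sum_range_C_mul_X_pow' (Nat.lt_succ_of_le h)
  conv_lhs => rw [e, Finset.sum_mul, map_sum]
  rw [eval_eq_sum_range' (Nat.lt_succ_of_le h)]
  refine Finset.sum_congr rfl fun j hj => ?_
  rw [mul_assoc, II_C_mul, II_RR_pow m j (Nat.lt_succ_iff.1 (Finset.mem_range.1 hj)), one_pow]

lemma orth (m k : ℕ) (h : k ≤ m) :
    ∫ t in (0 : ℝ)..1, t ^ k * (RR m).eval (1 - t) = if k = 0 then 1 else 0 := by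
  have h1 := II_RR m ((1 - X) ^ k) (natDegree_pow_le.trans (by
    have : (1 - X : ℝ[X]).natDegree ≤ 1 := by compute_degree
    nlinarith))
  have h2 := intervalIntegral.integral_comp_sub_left (a := 0) (b := 1)
    (fun x : ℝ => ((1 - X) ^ k * RR m).eval x) 1
  simp only [sub_self, sub_zero] at h2
  simp only [eval_pow, eval_sub, eval_one, eval_X, sub_self, zero_pow_eq] at h1
  rw [← h1]
  refine Eq.trans ?_ h2
  simp

namespace IsPolyanalytic

variable {n : ℕ} {G G' : ℂ → ℂ}

lemma congr (h : IsPolyanalytic n G) (e : ∀ z, ‖z‖ < 1 → G' z = G z) : IsPolyanalytic n G' := by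
  obtain ⟨k, h1, h2⟩ := h
  exact ⟨k, h1, fun z hz => (e z (mem_ball_zero_iff.1 hz)).trans (h2 z hz)⟩

lemma zero : IsPolyanalytic n fun _ => 0 :=
  ⟨0, fun _ => differentiableOn_const 0, fun _ _ => by simp⟩

lemma add (h : IsPolyanalytic n G) (h' : IsPolyanalytic n G') :
    IsPolyanalytic n fun z => G z + G' z := by
  obtain ⟨k, h1, h2⟩ := h
  obtain ⟨k', h1', h2'⟩ := h'
  refine ⟨k + k', fun i => (h1 i).add (h1' i), fun z hz => ?_⟩
  simp [h2 z hz, h2' z hz, mul_add, Finset.sum_add_distrib]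

lemma sum {ι : Type} (s : Finset ι) {G : ι → ℂ → ℂ} (h : ∀ i ∈ s, IsPolyanalytic n (G i)) :
    IsPolyanalytic n fun z => ∑ i ∈ s, G i z := by
  classical
  induction s using Finset.induction_on with
  | empty => simpa using zero
  | insert i s hi ih =>
    simp only [Finset.sum_insert hi]
    exact (h i (by simp)).add (ih fun j hj => h j (by simp [hj]))

lemma hol_mul (h : IsPolyanalytic n G) {α : ℂ → ℂ} (hα : DifferentiableOn ℂ α (ball 0 1)) :
    IsPolyanalytic n fun z => α z * G z := by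
  obtain ⟨k, h1, h2⟩ := h
  refine ⟨fun i z => α z * k i z, fun i => hα.mul (h1 i), fun z hz => ?_⟩
  simp only [h2 z hz, Finset.mul_sum]
  exact Finset.sum_congr rfl fun i _ => by ring

lemma succ (h : IsPolyanalytic n G) : IsPolyanalytic (n + 1) G := by
  obtain ⟨k, h1, h2⟩ := h
  refine ⟨fun i => if i < n then k i else 0, fun i => ?_, fun z hz => ?_⟩
  · beta_reduce
    split_ifs
    exacts [h1 i, differentiableOn_const 0]
  · rw [Finset.sum_range_succ, h2 z hz]
    simp only [lt_self_iff_false, ↓reduceIte, Pi.zero_apply, mul_zero, add_zero]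
    exact Finset.sum_congr rfl fun i hi => by rw [if_pos (Finset.mem_range.1 hi)]

lemma mono (h : IsPolyanalytic n G) {n' : ℕ} (hn : n ≤ n') : IsPolyanalytic n' G := by
  induction hn with
  | refl => exact h
  | step _ ih => exact ih.succ

lemma conj_mul (h : IsPolyanalytic n G) : IsPolyanalytic (n + 1) fun z => conj z * G z := by
  obtain ⟨k, h1, h2⟩ := h
  refine ⟨fun i => Nat.casesOn i 0 k, fun i => ?_, fun z hz => ?_⟩
  · cases i
    exacts [differentiableOn_const 0, h1 _]
  · beta_reduce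
    rw [Finset.sum_range_succ', h2 z hz, Finset.mul_sum]
    simp only [Nat.rec_zero, Pi.zero_apply, mul_zero, add_zero]
    exact Finset.sum_congr rfl fun i _ => by ring

lemma lin_pow_mul (h : IsPolyanalytic n G) {α β : ℂ → ℂ} (hα : DifferentiableOn ℂ α (ball 0 1))
    (hβ : DifferentiableOn ℂ β (ball 0 1)) (k : ℕ) :
    IsPolyanalytic (n + k) fun z => (α z + β z * conj z) ^ k * G z := by
  induction k with
  | zero => simpa using h
  | succ k ih => exact ((ih.succ.hol_mul hα).add (ih.conj_mul.hol_mul hβ)).congr fun z _ => by ring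

lemma hol {α : ℂ → ℂ} (hα : DifferentiableOn ℂ α (ball 0 1)) : IsPolyanalytic 1 α :=
  ⟨fun _ => α, fun _ => hα, fun z _ => by simp⟩

lemma continuousOn (h : IsPolyanalytic n G) : ContinuousOn G (ball 0 1) := by
  obtain ⟨k, h1, h2⟩ := h
  refine ContinuousOn.congr (f := fun z => ∑ i ∈ Finset.range n, conj z ^ i * k i z) ?_ h2
  exact continuousOn_finsetSum _ fun i _ =>
    (continuous_conj.pow i).continuousOn.mul (h1 i).continuousOn

lemma dil (h : IsPolyanalytic n G) : IsPolyanalytic n fun z => G ((1 / 2 : ℝ) * z) := by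
  obtain ⟨k, h1, h2⟩ := h
  have hm : MapsTo (fun z : ℂ => ((1 / 2 : ℝ) : ℂ) * z) (ball 0 1) (ball 0 1) := fun z hz => by
    rw [mem_ball_zero_iff] at hz ⊢
    rw [norm_mul, Complex.norm_real, Real.norm_of_nonneg (by norm_num)]; linarith [norm_nonneg z]
  refine ⟨fun i z => ((1 / 2 : ℝ) : ℂ) ^ i * k i ((1 / 2 : ℝ) * z), fun i => ?_, fun z hz => ?_⟩
  · exact ((h1 i).comp (by fun_prop) hm).const_mul _
  · refine (h2 _ (hm hz)).trans ?_
    exact Finset.sum_congr rfl fun i _ => by rw [map_mul, conj_ofReal]; ring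

end IsPolyanalytic

/-- Complex valued evaluation of a real polynomial at a real point. -/
def rv (p : ℝ[X]) (x : ℝ) : ℂ := (p.eval x : ℝ)

@[fun_prop] lemma continuous_rv (p : ℝ[X]) : Continuous (rv p) :=
  continuous_ofReal.comp p.continuous
@[fun_prop] lemma measurable_rv (p : ℝ[X]) : Measurable (rv p) := (continuous_rv p).measurable

lemma rv_RR (m : ℕ) (x : ℝ) :
    rv (RR m) x = ∑ j ∈ Finset.range (m + 1), ((RR m).coeff j : ℂ) * (x : ℂ) ^ j := by
  rw [rv, eval_eq_sum_range' (Nat.lt_succ_of_le (natDegree_RR m))]; push_cast; rfl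

lemma conj_rv (p : ℝ[X]) (x : ℝ) : conj (rv p x) = rv p x := conj_ofReal _

lemma rv_bound (p : ℝ[X]) : ∃ C, 0 ≤ C ∧ ∀ x, 0 ≤ x → x ≤ 1 → ‖rv p x‖ ≤ C := by
  obtain ⟨C, hC⟩ := (isCompact_Icc (a := (0 : ℝ)) (b := 1)).exists_bound_of_continuousOn
    (continuous_rv p).continuousOn
  exact ⟨C, (norm_nonneg _).trans (hC 0 (by simp)), fun x h0 h1 => hC x ⟨h0, h1⟩⟩

lemma mean_value (m : ℕ) {G : ℂ → ℂ} (h : IsPolyanalytic (m + 1) G)
    (hi : Integrable (fun w => G w * rv (RR m) (yy w)) dA) :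
    ∫ w, G w * rv (RR m) (yy w) ∂dA = G 0 := by
  obtain ⟨k, h1, h2⟩ := h
  rw [polar _ hi (fun t => ∑ i ∈ Finset.range (m + 1),
    (iteratedDeriv i (k i) 0 / i.factorial) * ((t ^ i * (RR m).eval (1 - t) : ℝ) : ℂ))]
  · rw [intervalIntegral.integral_finsetSum (fun i _ => Continuous.intervalIntegrable (by
      have := (RR m).continuous; fun_prop) _ _), h2 0 (by simp)]
    refine Finset.sum_congr rfl fun i hi => ?_
    rw [intervalIntegral.integral_const_mul, intervalIntegral.integral_ofReal,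
      orth m i (Nat.lt_succ_iff.1 (Finset.mem_range.1 hi))]
    split_ifs with h0
    · simp [h0]
    · simp [h0]
  · intro r h0 hr
    have hb : ∀ θ, circleMap 0 r θ ∈ ball (0 : ℂ) 1 := fun θ => by simpa [abs_of_pos h0] using hr
    have e : ∀ θ, G (circleMap 0 r θ) * rv (RR m) (yy (circleMap 0 r θ)) =
        ∑ i ∈ Finset.range (m + 1), rv (RR m) (1 - r ^ 2) *
          (conj (circleMap 0 r θ) ^ i * k i (circleMap 0 r θ)) := fun θ => by
      rw [h2 _ (hb θ), ← Finset.mul_sum, mul_comm, yy, norm_circleMap_zero, sq_abs]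
    simp only [e]
    rw [intervalIntegral.integral_finsetSum, Finset.mul_sum]
    · refine Finset.sum_congr rfl fun i _ => ?_
      rw [intervalIntegral.integral_const_mul, circle_mean _ (h1 i) i r h0 hr, rv]
      push_cast; ring
    · intro i _
      refine Continuous.intervalIntegrable (continuous_const.mul (Continuous.mul ?_ ?_)) _ _
      · exact (continuous_conj.comp (continuous_circleMap 0 r)).pow i
      · exact (h1 i).continuousOn.comp_continuous (continuous_circleMap 0 r) hb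

def JJ (m : ℕ) (a w : ℂ) : ℂ := yy a * (1 - a * conj w) ^ m / (1 - conj a * w) ^ (m + 2)

lemma norm_JJ_sq (m : ℕ) {a w : ℂ} (ha : ‖a‖ < 1) (hw : ‖w‖ ≤ 1) : ‖JJ m a w‖ ^ 2 = jj a w := by
  have e : ‖1 - a * conj w‖ = ‖1 - conj a * w‖ := by rw [norm_den_comm, mul_comm]
  have := norm_ne_zero_iff.2 (den_ne ha hw)
  rw [JJ, jj, norm_div, norm_mul, norm_pow, norm_pow, e, Complex.norm_real, Real.norm_eq_abs,
    abs_of_pos (yy_pos ha)]
  field_simp; ring

lemma conj_JJ_mul (m : ℕ) {a w : ℂ} (ha : ‖a‖ < 1) (hw : ‖w‖ ≤ 1) :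
    conj (JJ m a w) * JJ m a w = jj a w := by
  rw [← normsq_cplx, ← norm_JJ_sq m ha hw]; push_cast; rfl

lemma jj_cplx (a w : ℂ) : (jj a w : ℂ) = yy a ^ 2 / ((1 - a * conj w) * (1 - conj a * w)) ^ 2 := by
  rw [jj, show 4 = 2 * 2 from rfl, pow_mul]; push_cast; rw [normsq_cplx]; simp

lemma diffOn_den {a : ℂ} (ha : ‖a‖ < 1) (c : ℂ) (k : ℕ) :
    DifferentiableOn ℂ (fun w => c / (1 - conj a * w) ^ k) (ball 0 1) :=
  DifferentiableOn.div (by fun_prop) (by fun_prop)
    fun w hw => pow_ne_zero _ (den_ne ha (mem_ball_zero_iff.1 hw).le)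

lemma IsPolyanalytic.moebius {m : ℕ} {G : ℂ → ℂ} (h : IsPolyanalytic (m + 1) G) {a : ℂ}
    (ha : ‖a‖ < 1) : IsPolyanalytic (m + 1) fun w => JJ m a w * G (ph a w) := by
  obtain ⟨k, h1, h2⟩ := h
  have hp : DifferentiableOn ℂ (ph a) (ball 0 1) := fun w hw =>
    (ph_deriv ha (mem_ball_zero_iff.1 hw).le).differentiableAt.differentiableWithinAt
  have hm : MapsTo (ph a) (ball 0 1) (ball 0 1) := fun w hw =>
    mem_ball_zero_iff.2 (norm_ph_lt ha (mem_ball_zero_iff.1 hw))
  refine (IsPolyanalytic.sum (Finset.range (m + 1)) (G := fun i w =>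
    (conj a + (-1) * conj w) ^ i * ((1 + (-a) * conj w) ^ (m - i) *
      (yy a / (1 - conj a * w) ^ (m + 2) * k i (ph a w)))) fun i hi => ?_).congr fun w hw => ?_
  · have := (((IsPolyanalytic.hol ((diffOn_den ha (yy a) (m + 2)).mul ((h1 i).comp hp hm))).lin_pow_mul
      (differentiableOn_const 1) (differentiableOn_const (-a)) (m - i)).lin_pow_mul
      (differentiableOn_const (conj a)) (differentiableOn_const (-1)) i)
    refine this.mono ?_
    have := Finset.mem_range.1 hi; omega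
  · rw [h2 _ (hm (mem_ball_zero_iff.2 hw)), Finset.mul_sum]
    refine Finset.sum_congr rfl fun i hi => ?_
    obtain ⟨j, rfl⟩ := Nat.exists_eq_add_of_le (Nat.lt_succ_iff.1 (Finset.mem_range.1 hi))
    have := den_ne' ha hw.le
    rw [conj_ph, JJ, Nat.add_sub_cancel_left, div_pow, pow_add]
    field_simp; ring

lemma poly_RR (m : ℕ) : IsPolyanalytic (m + 1) fun w => rv (RR m) (yy w) := by
  simp only [rv_RR]
  refine IsPolyanalytic.sum _ fun j hj => ?_
  have := ((IsPolyanalytic.hol (differentiableOn_const ((RR m).coeff j : ℂ))).lin_pow_mul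
    (differentiableOn_const 1) (β := fun z => -z) (by fun_prop) j).mono
    (n' := m + 1) (by have := Finset.mem_range.1 hj; omega)
  exact this.congr fun z _ => by rw [yy_cplx]; ring

/-- The reproducing kernel. -/
def ker (m : ℕ) (z u : ℂ) : ℂ :=
  (1 - z * conj u) ^ m / (1 - conj z * u) ^ (m + 2) * rv (RR m) (rho z u)

lemma ker_eq (m : ℕ) {z : ℂ} (hz : ‖z‖ < 1) (u : ℂ) :
    ker m z u = (yy z : ℂ)⁻¹ * (JJ m z u * rv (RR m) (rho z u)) := by
  have : (yy z : ℂ) ≠ 0 := by exact_mod_cast (yy_pos hz).ne'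
  rw [ker, JJ]; field_simp

lemma poly_ker (m : ℕ) {z : ℂ} (hz : ‖z‖ < 1) : IsPolyanalytic (m + 1) (ker m z) :=
  (((poly_RR m).moebius hz).hol_mul (differentiableOn_const (yy z : ℂ)⁻¹)).congr fun u hu => by
    rw [ker_eq m hz, yy_ph hz hu.le]

lemma norm_ker_sq (m : ℕ) {z u : ℂ} (hz : ‖z‖ < 1) (hu : ‖u‖ < 1) :
    ‖ker m z u‖ ^ 2 = jj z u * ((RR m ^ 2).eval (rho z u)) / yy z ^ 2 := by
  rw [ker_eq m hz, norm_mul, norm_mul, mul_pow, mul_pow, norm_JJ_sq m hz hu.le, norm_inv,
    Complex.norm_real, rv, Complex.norm_real, Real.norm_eq_abs, Real.norm_eq_abs, sq_abs, inv_pow,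
    sq_abs, eval_pow]
  ring

lemma ker_bound (m : ℕ) {z : ℂ} (hz : ‖z‖ < 1) : ∃ C, ∀ u, ‖u‖ < 1 → ‖ker m z u‖ ≤ C := by
  obtain ⟨C, h0, hC⟩ := rv_bound (RR m)
  refine ⟨‖(yy z : ℂ)⁻¹‖ * (√(1 / (1 - ‖z‖) ^ 4) * C), fun u hu => ?_⟩
  rw [ker_eq m hz, norm_mul, norm_mul]
  gcongr
  · exact Real.le_sqrt_of_sq_le ((norm_JJ_sq m hz hu.le).le.trans (jj_le hz hu.le))
  · exact hC _ (rho_pos hz hu).le (rho_le_one hz hu)

lemma reproduce (m : ℕ) {G : ℂ → ℂ} (h : IsPolyanalytic (m + 1) G) (hi : Integrable G dA) {z : ℂ}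
    (hz : ‖z‖ < 1) : ∫ u, conj (ker m z u) * G u ∂dA = G z := by
  have hy : (yy z : ℂ) ≠ 0 := by exact_mod_cast (yy_pos hz).ne'
  set F := fun w => JJ m z w * G (ph z w) * rv (RR m) (yy w) with hF
  have e : ∀ u, ‖u‖ < 1 → jj z u • F (ph z u) = yy z * (conj (ker m z u) * G u) := fun u hu => by
    have h1 := den_ne hz hu.le; have h2 := den_ne' hz hu.le
    have e1 : 1 - z * conj (ph z u) = yy z / (1 - z * conj u) := by
      simpa using congrArg conj (den_ph hz hu.le)
    simp only [hF, ph_ph hz hu.le, yy_ph hz hu.le, JJ, den_ph hz hu.le, e1, ker, real_smul, jj_cplx,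
      map_mul, map_div₀, map_pow, map_sub, map_one, conj_conj, conj_rv, div_pow]
    field_simp; ring
  obtain ⟨C, hC⟩ := ker_bound m hz
  have hi2 : Integrable (fun u => conj (ker m z u) * G u) dA :=
    hi.bdd_mul (continuous_conj.comp_aestronglyMeasurable
      (aesm_of_continuousOn (poly_ker m hz).continuousOn)) (c := C)
      (ae_ball.mono fun u hu => by simpa using hC u hu)
  have hi3 : Integrable F dA :=
    (cv_ph_integrable hz F).1 ((hi2.const_mul (yy z)).congr (ae_ball.mono fun u hu => (e u hu).symm))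
  have h4 := mean_value m (h.moebius hz) hi3
  rw [← cv_ph hz, integral_congr_ball e, integral_const_mul] at h4
  apply mul_left_cancel₀ hy
  rw [h4]; simp [JJ, ph]

end Pool.Agent.P.MP_f074b0_an
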