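import Pool.Agent.P.MP_f074b0_an.Space

/-! The self-adjointness identity for the invariant Laplacian on powers of `rho`. -/

open MeasureTheory Metric Complex Filter Topology Set Polynomial
open scoped ENNReal ComplexConjugate

noncomputable section

namespace Pool.Agent.P.MP_f074b0_an

lemma deriv_den (c : ℂ) (n : ℕ) (z : ℂ) :
    deriv (fun z => 1 / (1 - z * c) ^ n) z = n * c / (1 - z * c) ^ (n + 1) := by
  have e : (fun z => 1 / (1 - z * c) ^ n) = fun z => (fun y : ℂ => (1 - y) ^ (-n : ℤ)) (c * z) := by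
    ext z; simp [mul_comm]
  rw [e, deriv_comp_mul_left c (fun y : ℂ => (1 - y) ^ (-n : ℤ)),
    deriv_comp_const_sub (f := fun y : ℂ => y ^ (-n : ℤ)), deriv_zpow,
    show (-n - 1 : ℤ) = -((n + 1 : ℕ) : ℤ) by push_cast; ring, zpow_neg, zpow_natCast, mul_comm c z]
  simp only [smul_eq_mul]; push_cast; ring

lemma iter_den (c : ℂ) (p k : ℕ) : iteratedDeriv k (fun z => 1 / (1 - z * c) ^ (p + 1)) =
    fun z => (k.factorial * (k + p).choose p * c ^ k) * (1 / (1 - z * c) ^ (p + 1 + k)) := by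
  induction k with
  | zero => simp
  | succ k ih =>
    ext z
    rw [iteratedDeriv_succ, ih, deriv_const_mul_field, deriv_den]
    have h1 := Nat.add_one_mul_choose_eq (k + p) p
    have h2 := Nat.choose_succ_right_eq (k + p + 1) p
    rw [← h1, show k + p + 1 - p = k + 1 by omega, show k + p + 1 = k + 1 + p by ring] at h2
    have h3 : ((k : ℂ) + 1 + p) * (k + p).choose p = (k + 1 + p).choose p * (k + 1) := by
      exact_mod_cast h2
    rw [Nat.factorial_succ, ← add_assoc]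
    push_cast
    linear_combination (k.factorial * c ^ (k + 1) / (1 - z * c) ^ (p + 1 + k + 1)) * h3

/-- Complex powers of `1 - |z|^2`. -/
def yc (z e : ℂ) : ℂ := (yy z : ℂ) ^ e

@[fun_prop] lemma measurable_yc {α : Type} [MeasurableSpace α] {f : α → ℂ} (hf : Measurable f)
    (e : ℂ) : Measurable fun x => yc (f x) e := by unfold yc; fun_prop

lemma norm_yc {z : ℂ} (hz : ‖z‖ < 1) (e : ℂ) : ‖yc z e‖ = yy z ^ e.re :=
  norm_cpow_eq_rpow_re_of_pos (yy_pos hz) e

lemma norm_yc_le {z : ℂ} (hz : ‖z‖ < 1) {e : ℂ} (he : 0 ≤ e.re) : ‖yc z e‖ ≤ 1 := by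
  rw [norm_yc hz]; exact Real.rpow_le_one (yy_pos hz).le (yy_le_one z) he

lemma yc_add_nat {z : ℂ} (hz : ‖z‖ < 1) (e : ℂ) (k : ℕ) : yc z (e + k) = yc z e * yy z ^ k := by
  rw [yc, yc, cpow_add _ _ (by exact_mod_cast (yy_pos hz).ne'), cpow_natCast]

def Bt (k : ℕ) (x : ℂ) : ℂ := betaIntegral (k + 1) (x + 1)

lemma Bt_rec1 (k : ℕ) {x : ℂ} (hx : 0 ≤ x.re) : (x + k + 2) * Bt k (x + 1) = (x + 1) * Bt k x := by
  have hk : 0 < ((k : ℂ) + 1).re := by simp; positivity
  have hx1 : 0 < (x + 1).re := by simp; linarith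
  have hx2 : 0 < (x + 1 + 1).re := by simp; linarith
  have hs : 0 < ((k : ℂ) + 1 + (x + 1)).re := by rw [add_re]; linarith
  have h1 := Gamma_mul_Gamma_eq_betaIntegral hk hx1
  have h2 := Gamma_mul_Gamma_eq_betaIntegral hk hx2
  rw [← add_assoc, Gamma_add_one _ (ne_zero_of_re_pos hs), Gamma_add_one _ (ne_zero_of_re_pos hx1)] at h2
  apply mul_left_cancel₀ (Gamma_ne_zero_of_re_pos hs)
  unfold Bt
  linear_combination (x + 1) * h1 - h2

lemma Bt_rec2 (k : ℕ) {x : ℂ} (hx : 0 ≤ x.re) :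
    (k + 1) * Bt k (x + 1) = (x + 1) * Bt (k + 1) x := by
  have := betaIntegral_recurrence (u := k + 1) (v := x + 1) (by simp; positivity) (by simp; linarith)
  simpa [Bt] using this

lemma radial_moment {h : ℂ → ℂ} (hh : DifferentiableOn ℂ h (ball 0 1)) (C : ℝ)
    (hC : ∀ z, ‖z‖ < 1 → ‖h z‖ ≤ C) (k : ℕ) {x : ℂ} (hx : 0 ≤ x.re) :
    ∫ z, yc z x * (conj z ^ k * h z) ∂dA = iteratedDeriv k h 0 / k.factorial * Bt k x := by
  rw [polar _ _ (fun t => iteratedDeriv k h 0 / k.factorial *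
    ((t : ℂ) ^ ((k : ℂ) + 1 - 1) * (1 - (t : ℂ)) ^ (x + 1 - 1))), intervalIntegral.integral_const_mul]
  · rfl
  · intro r h0 hr
    have e : ∀ θ, yc (circleMap 0 r θ) x = (1 - ((r ^ 2 : ℝ) : ℂ)) ^ x := fun θ => by
      rw [yc, yy, norm_circleMap_zero, sq_abs]; push_cast; rfl
    simp only [e, add_sub_cancel_right, cpow_natCast]
    rw [intervalIntegral.integral_const_mul, circle_mean _ hh k r h0 hr]; ring
  · refine integrable_of_bound ((Measurable.aestronglyMeasurable (by fun_prop)).mul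
      ((Measurable.aestronglyMeasurable (by fun_prop)).mul (aesm_of_continuousOn hh.continuousOn)))
      (1 * (1 * C)) fun z hz => ?_
    rw [norm_mul, norm_mul, norm_pow, Complex.norm_conj]
    gcongr
    exacts [norm_yc_le hz hx, pow_le_one₀ (norm_nonneg _) hz.le, hC z hz]

def SS (p : ℕ) (x w : ℂ) : ℂ :=
  ∫ z, yc z x * (1 / (1 - conj z * w) ^ (p + 1) * (1 / (1 - z * conj w) ^ (p + 1))) ∂dA

lemma hasSum_SS (p : ℕ) {x w : ℂ} (hx : 0 ≤ x.re) (hw : ‖w‖ < 1) :
    HasSum (fun k : ℕ => ((k + p).choose p : ℂ) ^ 2 * (conj w * w) ^ k * Bt k x) (SS p x w) := by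
  have hb : ∀ z : ℂ, ‖z‖ < 1 → ‖1 / (1 - z * conj w) ^ (p + 1)‖ ≤ 1 / (1 - ‖w‖) ^ (p + 1) :=
    fun z hz => by
    have h1 := norm_den_ge (a := w) hz.le
    have h2 : 0 < 1 - ‖w‖ := by linarith
    rw [norm_div, norm_one, norm_pow, mul_comm]; gcongr
  have hd : DifferentiableOn ℂ (fun z => 1 / (1 - z * conj w) ^ (p + 1)) (ball 0 1) := by
    simpa [mul_comm] using diffOn_den hw 1 (p + 1)
  have hs := hasSum_choose_mul_geometric_of_norm_lt_one (𝕜 := ℝ) p (r := ‖w‖) (by simpa)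
  have := hasSum_integral_of_dominated_convergence (μ := dA)
    (F := fun (k : ℕ) z => ((k + p).choose p * w ^ k) *
      (yc z x * (conj z ^ k * (1 / (1 - z * conj w) ^ (p + 1)))))
    (f := fun z => yc z x * (1 / (1 - conj z * w) ^ (p + 1) * (1 / (1 - z * conj w) ^ (p + 1))))
    (fun k _ => ((k + p).choose p * ‖w‖ ^ k) * (1 * (1 * (1 / (1 - ‖w‖) ^ (p + 1)))))
    (fun k => Measurable.aestronglyMeasurable (by fun_prop)) (fun k => ae_ball.mono fun z hz => ?_)
    (Eventually.of_forall fun _ => hs.summable.mul_right _) (integrable_const _)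
    (ae_ball.mono fun z hz => ?_)
  · have e : ∀ k : ℕ, ∫ z, ((k + p).choose p * w ^ k) *
        (yc z x * (conj z ^ k * (1 / (1 - z * conj w) ^ (p + 1)))) ∂dA =
        ((k + p).choose p : ℂ) ^ 2 * (conj w * w) ^ k * Bt k x := fun k => by
      have : (k.factorial : ℂ) ≠ 0 := by exact_mod_cast k.factorial_ne_zero
      rw [integral_const_mul, radial_moment hd _ hb k hx, iter_den]
      simp only [zero_mul, sub_zero, one_pow]
      field_simp; ring
    simp only [e] at this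
    exact this
  · rw [norm_mul, norm_mul, norm_mul, norm_mul, norm_pow, norm_pow, Complex.norm_conj,
      Complex.norm_natCast]
    gcongr
    exacts [norm_yc_le hz hx, pow_le_one₀ (norm_nonneg _) hz.le, hb z hz]
  · have h1 := hasSum_choose_mul_geometric_of_norm_lt_one (𝕜 := ℂ) p (r := conj z * w) (by
      rw [norm_mul, Complex.norm_conj]; nlinarith [norm_nonneg z, norm_nonneg w])
    have h2 := (h1.mul_right (1 / (1 - z * conj w) ^ (p + 1))).mul_left (yc z x)
    have e : ∀ n : ℕ, yc z x * (((n + p).choose p * (conj z * w) ^ n) * (1 / (1 - z * conj w) ^ (p + 1)))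
        = ((n + p).choose p * w ^ n) * (yc z x * (conj z ^ n * (1 / (1 - z * conj w) ^ (p + 1)))) :=
      fun n => by ring
    simp only [e] at h2
    exact h2

lemma SS_id (p : ℕ) {x w : ℂ} (hx : 0 ≤ x.re) (hw : ‖w‖ < 1) :
    ((x - p + 1) * (x - p) - (p + 1) * p) * SS p x w - (x - p + 1) ^ 2 * SS p (x + 1) w
      + (p + 1) ^ 2 * (1 - conj w * w) * SS (p + 1) (x + 1) w = 0 := by
  have hx1 : 0 ≤ (x + 1).re := by simp; linarith
  have h3 := hasSum_SS (p + 1) hx1 hw
  have h := (((hasSum_SS p hx hw).mul_left ((x - p + 1) * (x - p) - (p + 1) * p)).sub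
    ((hasSum_SS p hx1 hw).mul_left ((x - p + 1) ^ 2))).add (h3.mul_left (((p : ℂ) + 1) ^ 2))
  have c1 : ∀ k : ℕ, (((k + (p + 1)).choose (p + 1) : ℕ) : ℂ) * (p + 1) =
      (k + p + 1) * (k + p).choose p := fun k => by
    exact_mod_cast (Nat.add_one_mul_choose_eq (k + p) p).symm
  have c2 : ∀ k : ℕ, (((k + (p + 1)).choose (p + 1) : ℕ) : ℂ) * (p + 1) =
      (k + 1 + p).choose p * (k + 1) := fun k => by
    have h2 := Nat.choose_succ_right_eq (k + 1 + p) p
    rw [show k + 1 + p - p = k + 1 by omega, show k + 1 + p = k + (p + 1) by ring] at h2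
    rw [show k + 1 + p = k + (p + 1) by ring]
    exact_mod_cast h2
  have hne : ∀ k : ℕ, x + k + 2 ≠ 0 := fun k => ne_zero_of_re_pos (by simp; positivity)
  have key : ∀ k : ℕ, ((x - p + 1) * (x - p) - (p + 1) * p) *
        (((k + p).choose p : ℂ) ^ 2 * (conj w * w) ^ k * Bt k x) -
      (x - p + 1) ^ 2 * (((k + p).choose p : ℂ) ^ 2 * (conj w * w) ^ k * Bt k (x + 1)) +
      (p + 1) ^ 2 * (((k + (p + 1)).choose (p + 1) : ℂ) ^ 2 * (conj w * w) ^ k * Bt k (x + 1)) =
      ((k + p).choose p : ℂ) ^ 2 * (conj w * w) ^ k * (k * ((x + 1) * Bt k x)) := fun k => by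
    apply mul_left_cancel₀ (hne k)
    have e : ((p : ℂ) + 1) ^ 2 * ((k + (p + 1)).choose (p + 1) : ℂ) ^ 2 =
        (k + p + 1) ^ 2 * ((k + p).choose p : ℂ) ^ 2 := by
      rw [← mul_pow, ← mul_pow, mul_comm, c1]
    linear_combination (x + k + 2) * (conj w * w) ^ k * Bt k (x + 1) * e +
      ((k + p).choose p : ℂ) ^ 2 * (conj w * w) ^ k * ((k + p + 1) ^ 2 - (x - p + 1) ^ 2) *
        Bt_rec1 k hx
  simp only [key] at h
  have h4 := (hasSum_nat_add_iff' 1).2 h
  have h5 := h3.mul_left (((p : ℂ) + 1) ^ 2 * (conj w * w))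
  have key2 : ∀ k : ℕ, (p + 1) ^ 2 * (conj w * w) *
      (((k + (p + 1)).choose (p + 1) : ℂ) ^ 2 * (conj w * w) ^ k * Bt k (x + 1)) =
      ((k + 1 + p).choose p : ℂ) ^ 2 * (conj w * w) ^ (k + 1) *
        (((k + 1 : ℕ) : ℂ) * ((x + 1) * Bt (k + 1) x)) := fun k => by
    have e : ((p : ℂ) + 1) ^ 2 * ((k + (p + 1)).choose (p + 1) : ℂ) ^ 2 =
        ((k + 1 + p).choose p : ℂ) ^ 2 * (k + 1) ^ 2 := by
      rw [← mul_pow, ← mul_pow, mul_comm, c2]
    rw [← Bt_rec2 k hx]; push_cast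
    linear_combination (conj w * w) ^ (k + 1) * Bt k (x + 1) * e
  simp only [key2] at h5
  have := h4.unique h5
  simp only [Finset.range_one, Finset.sum_singleton, Nat.cast_zero, zero_mul, mul_zero,
    sub_zero] at this
  linear_combination this

end Pool.Agent.P.MP_f074b0_an
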