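import Pool.Agent.P.MP_f074b0_an.Poly

/-! The polyanalytic Bergman space is a reproducing kernel Hilbert space. -/

open MeasureTheory Metric Complex Filter Topology Set Polynomial
open scoped ENNReal ComplexConjugate InnerProductSpace

noncomputable section

namespace Pool.Agent.P.MP_f074b0_an

lemma norm_den_ge' {z u : ℂ} (hu : ‖u‖ ≤ 1) : 1 - ‖z‖ ≤ ‖1 - z * conj u‖ := by
  simpa using norm_den_ge (a := conj z) (w := conj u) (by simpa)

lemma int_bdd {F φ : ℂ → ℂ} (hF : Integrable F dA) (hφ : Measurable φ) (C : ℝ)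
    (hC : ∀ u, ‖u‖ < 1 → ‖φ u‖ ≤ C) : Integrable (fun u => φ u * F u) dA :=
  hF.bdd_mul hφ.aestronglyMeasurable (c := C) (ae_ball.mono hC)

lemma int_den {F : ℂ → ℂ} (hF : Integrable F dA) {z : ℂ} (hz : ‖z‖ < 1) (p q : ℕ) :
    Integrable (fun u => (1 - conj z * u) ^ q / (1 - z * conj u) ^ p * F u) dA := by
  refine int_bdd hF (by fun_prop) (2 ^ q / (1 - ‖z‖) ^ p) fun u hu => ?_
  rw [norm_div, norm_pow, norm_pow]
  have h1 := norm_den_ge' (z := z) hu.le
  have h2 : 0 < 1 - ‖z‖ := by linarith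
  have h3 : ‖1 - conj z * u‖ ≤ 2 := (norm_sub_le _ _).trans (by
    rw [norm_one, norm_mul, Complex.norm_conj]; nlinarith [norm_nonneg z, norm_nonneg u])
  gcongr

lemma hol_integral {F : ℂ → ℂ} (hF : Integrable F dA) (p : ℕ) :
    DifferentiableOn ℂ (fun z => ∫ u, 1 / (1 - z * conj u) ^ p * F u ∂dA) (ball 0 1) := by
  intro z hz
  rw [mem_ball_zero_iff] at hz
  obtain ⟨r, hr1, hr2⟩ := exists_between hz
  have hF' := hF.aestronglyMeasurable
  refine (hasDerivAt_integral_of_dominated_loc_of_deriv_le (s := ball 0 r)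
    (F' := fun z u => p * conj u / (1 - z * conj u) ^ (p + 1) * F u)
    (bound := fun u => p / (1 - r) ^ (p + 1) * ‖F u‖)
    (isOpen_ball.mem_nhds (by simpa)) (Eventually.of_forall fun x => ?_) ?_ ?_ ?_
    (hF.norm.const_mul _) ?_).2.differentiableAt.differentiableWithinAt
  · exact (Measurable.aestronglyMeasurable (by fun_prop)).mul hF'
  · simpa using int_den hF hz p 0
  · exact (Measurable.aestronglyMeasurable (by fun_prop)).mul hF'
  · filter_upwards [ae_ball] with u hu x hx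
    rw [mem_ball_zero_iff] at hx
    have h1 := norm_den_ge' (z := x) hu.le
    have h2 : 0 < 1 - r := by linarith
    rw [norm_mul, norm_div, norm_mul, norm_pow, Complex.norm_conj, Complex.norm_natCast]
    gcongr
    · exact mul_le_of_le_one_right p.cast_nonneg hu.le
    · linarith
  · filter_upwards [ae_ball] with u hu x hx
    rw [mem_ball_zero_iff] at hx
    have h1 := den_ne' (hx.trans hr2) hu.le
    have := ((((hasDerivAt_id x).mul_const (conj u)).const_sub 1).pow p).inv (pow_ne_zero _ h1)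
    refine HasDerivAt.mul_const ?_ _
    simp only [one_div]
    refine HasDerivAt.congr_deriv this ?_
    cases p with
    | zero => simp
    | succ p => simp only [id, Pi.pow_apply, Nat.add_sub_cancel]; field_simp; ring

lemma poly_integral (p q : ℕ) {F : ℂ → ℂ} (hF : Integrable F dA) : IsPolyanalytic (q + 1)
    fun z => ∫ u, (1 - conj z * u) ^ q / (1 - z * conj u) ^ p * F u ∂dA := by
  induction q generalizing F with
  | zero => simpa using IsPolyanalytic.hol (hol_integral hF p)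
  | succ q ih =>
    have hF' : Integrable (fun u => -u * F u) dA :=
      int_bdd hF (by fun_prop) 1 fun u hu => by simpa using hu.le
    refine ((ih hF).succ.add (ih hF').conj_mul).congr fun z hz => ?_
    rw [← integral_const_mul, ← integral_add (int_den hF hz p q) ((int_den hF' hz p q).const_mul _)]
    congr 1; ext u; ring

lemma memLp_ker (m : ℕ) {z : ℂ} (hz : ‖z‖ < 1) : MemLp (ker m z) 2 dA := by
  obtain ⟨C, hC⟩ := ker_bound m hz
  exact MemLp.of_bound (aesm_of_continuousOn (poly_ker m hz).continuousOn) C (ae_ball.mono hC)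

def KL (m : ℕ) (z : ℂ) : Lp ℂ 2 dA := if h : ‖z‖ < 1 then (memLp_ker m h).toLp _ else 0

lemma KL_ae (m : ℕ) {z : ℂ} (hz : ‖z‖ < 1) : KL m z =ᵐ[dA] ker m z := by
  rw [KL, dif_pos hz]; exact MemLp.coeFn_toLp _

lemma inner_L2 (F G : Lp ℂ 2 dA) : ⟪F, G⟫_ℂ = ∫ u, conj (F u) * G u ∂dA := by
  rw [L2.inner_def]; simp [mul_comm]

lemma inner_KL (m : ℕ) {z : ℂ} (hz : ‖z‖ < 1) (F : Lp ℂ 2 dA) :
    ⟪KL m z, F⟫_ℂ = ∫ u, conj (ker m z u) * F u ∂dA := by
  rw [inner_L2]
  exact integral_congr_ae ((KL_ae m hz).mono fun u hu => by simp only [hu])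

lemma int_L2 (F : Lp ℂ 2 dA) : Integrable F dA := (Lp.memLp F).integrable one_le_two

lemma inner_KL_poly (m : ℕ) {z : ℂ} (hz : ‖z‖ < 1) {F : Lp ℂ 2 dA} {G : ℂ → ℂ}
    (hG : IsPolyanalytic (m + 1) G) (hF : F =ᵐ[dA] G) : ⟪KL m z, F⟫_ℂ = G z := by
  rw [inner_KL m hz, ← reproduce m hG ((int_L2 F).congr hF) hz]
  exact integral_congr_ae (hF.mono fun u hu => by simp only [hu])

lemma poly_inner (m : ℕ) (F : Lp ℂ 2 dA) : IsPolyanalytic (m + 1) fun z => ⟪KL m z, F⟫_ℂ := by
  have hi : ∀ j, Integrable (fun u => ((RR m).coeff j * (yy u : ℂ) ^ j) * F u) dA := fun j =>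
    int_bdd (int_L2 F) (by fun_prop) ‖((RR m).coeff j : ℂ)‖ fun u hu => by
      rw [norm_mul, norm_pow, Complex.norm_real (yy u), Real.norm_of_nonneg (yy_pos hu).le]
      exact mul_le_of_le_one_right (norm_nonneg _) (pow_le_one₀ (yy_pos hu).le (yy_le_one u))
  refine (IsPolyanalytic.sum (Finset.range (m + 1)) (G := fun j z => (1 + (-z) * conj z) ^ j *
    ∫ u, (1 - conj z * u) ^ (m - j) / (1 - z * conj u) ^ (m + 2 + j) *
      (((RR m).coeff j * (yy u : ℂ) ^ j) * F u) ∂dA) fun j hj => ?_).congr fun z hz => ?_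
  · refine ((poly_integral _ _ (hi j)).lin_pow_mul (differentiableOn_const 1) (β := fun z => -z)
      (by fun_prop) j).mono ?_
    have := Finset.mem_range.1 hj; omega
  · simp only [← integral_const_mul]
    rw [inner_KL m hz, ← integral_finsetSum _ fun j _ => (int_den (hi j) hz _ _).const_mul _]
    refine integral_congr_ball fun u hu => ?_
    simp only [ker, map_mul, map_div₀, map_pow, map_sub, map_one, conj_conj, conj_rv]
    rw [rv_RR, Finset.mul_sum, Finset.sum_mul]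
    refine Finset.sum_congr rfl fun i hi => ?_
    obtain ⟨j, rfl⟩ := Nat.exists_eq_add_of_le (Nat.lt_succ_iff.1 (Finset.mem_range.1 hi))
    have h1 := den_ne hz hu.le; have h2 := den_ne' hz hu.le
    rw [rho_cplx, yy_cplx, Nat.add_sub_cancel_left, div_pow, mul_pow, mul_pow, pow_add _ i j,
      pow_add _ _ i]
    field_simp; ring

lemma isClosed_polyBergman (m : ℕ) : IsClosed (polyBergman (m + 1) : Set (Lp ℂ 2 dA)) := by
  refine IsSeqClosed.isClosed fun Fs F hFs hF => ⟨_, poly_inner m F, ?_⟩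
  choose G hG hFG using hFs
  obtain ⟨φ, hφ, h⟩ := (tendstoInMeasure_of_tendsto_Lp hF).exists_seq_tendsto_ae
  filter_upwards [h, ae_all_iff.2 hFG, ae_ball] with z h1 h2 hz
  refine tendsto_nhds_unique h1 ?_
  have := (tendsto_const_nhds (x := KL m z)).inner (𝕜 := ℂ) (hF.comp hφ.tendsto_atTop)
  refine this.congr fun i => ?_
  rw [h2]; exact inner_KL_poly m hz (hG _) (hFG _)

instance completeSpace_polyBergman (n : ℕ) : CompleteSpace (polyBergman n) := by
  refine IsClosed.completeSpace_coe (hs := ?_)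
  cases n with
  | succ m => exact isClosed_polyBergman m
  | zero =>
    have : (polyBergman 0 : Set (Lp ℂ 2 dA)) = {0} := by
      ext F
      refine ⟨?_, by rintro rfl; exact zero_mem _⟩
      rintro ⟨G, ⟨h, -, h2⟩, hF⟩
      refine Lp.ext ?_
      filter_upwards [hF, ae_ball, Lp.coeFn_zero ℂ 2 dA] with z h3 h4 h5
      rw [h3, h5, h2 z (mem_ball_zero_iff.2 h4)]; simp
    rw [this]; exact isClosed_singleton

/-- The reproducing kernel as an element of the space. -/
def KK (m : ℕ) (z : ℂ) : polyBergman (m + 1) := ⟨KL m z, by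
  by_cases hz : ‖z‖ < 1
  · exact ⟨_, poly_ker m hz, KL_ae m hz⟩
  · rw [KL, dif_neg hz]; exact zero_mem _⟩

/-- Point values of an element of the space. -/
def ev {m : ℕ} (h : polyBergman (m + 1)) (z : ℂ) : ℂ := ⟪KK m z, h⟫_ℂ

lemma poly_ev {m : ℕ} (h : polyBergman (m + 1)) : IsPolyanalytic (m + 1) (ev h) := poly_inner m h

lemma ev_eq {m : ℕ} {h : polyBergman (m + 1)} {G : ℂ → ℂ} (hG : IsPolyanalytic (m + 1) G)
    (hF : (h : Lp ℂ 2 dA) =ᵐ[dA] G) {z : ℂ} (hz : ‖z‖ < 1) : ev h z = G z :=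
  inner_KL_poly m hz hG hF

lemma ev_ae {m : ℕ} (h : polyBergman (m + 1)) : (h : Lp ℂ 2 dA) =ᵐ[dA] ev h := by
  obtain ⟨G, hG, hF⟩ := h.2
  filter_upwards [hF, ae_ball] with z h1 hz
  rw [h1, ev_eq hG hF hz]

lemma inner_KK (m : ℕ) {z w : ℂ} (hz : ‖z‖ < 1) (hw : ‖w‖ < 1) :
    ⟪KK m z, KK m w⟫_ℂ = ker m w z := ev_eq (poly_ker m hw) (KL_ae m hw) hz

lemma continuousAt_ker (m : ℕ) {z w : ℂ} (hz : ‖z‖ < 1) (hw : ‖w‖ < 1) :
    ContinuousAt (fun p : ℂ × ℂ => ker m p.1 p.2) (z, w) := by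
  have h1 := den_ne hz hw.le
  have h2 : ‖1 - conj z * w‖ ^ 2 ≠ 0 := pow_ne_zero _ (norm_ne_zero_iff.2 h1)
  have h3 := pow_ne_zero (m + 2) h1
  have c1 : Continuous fun p : ℂ × ℂ => 1 - conj p.1 * p.2 := by fun_prop
  have c2 : Continuous fun p : ℂ × ℂ => 1 - p.1 * conj p.2 := by fun_prop
  have c3 : Continuous fun p : ℂ × ℂ => yy p.1 * yy p.2 := by fun_prop
  have d1 : ContinuousAt (fun p : ℂ × ℂ => (1 - p.1 * conj p.2) ^ m / (1 - conj p.1 * p.2) ^ (m + 2))
      (z, w) := ContinuousAt.div₀ (c2.pow m).continuousAt (c1.pow (m + 2)).continuousAt h3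
  have d2 : ContinuousAt (fun p : ℂ × ℂ => rho p.1 p.2) (z, w) :=
    ContinuousAt.div₀ c3.continuousAt (c1.norm.pow 2).continuousAt h2
  have d3 : ContinuousAt (fun p : ℂ × ℂ => rv (RR m) (rho p.1 p.2)) (z, w) :=
    ContinuousAt.comp (g := rv (RR m)) (continuous_rv _).continuousAt d2
  exact d1.mul d3

lemma continuousAt_KK (m : ℕ) {z : ℂ} (hz : ‖z‖ < 1) : ContinuousAt (KK m) z := by
  rw [ContinuousAt, tendsto_iff_norm_sub_tendsto_zero]
  have hk := continuousAt_ker m hz hz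
  have h1 : ContinuousAt (fun w => ker m w w) z := hk.comp (f := fun w => (w, w)) (by fun_prop)
  have h2 : ContinuousAt (fun w => ker m z w) z := hk.comp (f := fun w => (z, w)) (by fun_prop)
  have h3 : ContinuousAt (fun w => √((ker m w w).re - 2 * (ker m z w).re + (ker m z z).re)) z :=
    (((continuous_re.continuousAt.comp h1).sub
      ((continuous_re.continuousAt.comp h2).const_mul 2)).add continuousAt_const).sqrt
  have h4 : √((ker m z z).re - 2 * (ker m z z).re + (ker m z z).re) = 0 := by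
    rw [show (ker m z z).re - 2 * (ker m z z).re + (ker m z z).re = 0 by ring, Real.sqrt_zero]
  rw [ContinuousAt, h4] at h3
  refine h3.congr' ?_
  filter_upwards [isOpen_ball.mem_nhds (mem_ball_zero_iff.2 hz)] with w hw
  rw [mem_ball_zero_iff] at hw
  rw [← inner_KK m hw hw, ← inner_KK m hw hz, ← inner_KK m hz hz, ← Real.sqrt_sq (norm_nonneg _),
    norm_sub_sq (𝕜 := ℂ), ← inner_self_eq_norm_sq (𝕜 := ℂ), ← inner_self_eq_norm_sq (𝕜 := ℂ)]
  rfl

lemma continuousOn_KK (m : ℕ) : ContinuousOn (KK m) (ball 0 1) := fun _ hz =>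
  (continuousAt_KK m (mem_ball_zero_iff.1 hz)).continuousWithinAt

lemma rho_self {z : ℂ} (hz : ‖z‖ < 1) : rho z z = 1 := by
  rw [← yy_ph hz hz.le]; simp [ph, yy]

lemma inner_KK_self (m : ℕ) {z : ℂ} (hz : ‖z‖ < 1) :
    ⟪KK m z, KK m z⟫_ℂ = rv (RR m) 1 / yy z ^ 2 := by
  have : (yy z : ℂ) ≠ 0 := by exact_mod_cast (yy_pos hz).ne'
  rw [inner_KK m hz hz, ker, rho_self hz, mul_comm z, ← yy_cplx]; field_simp; ring

lemma norm_KK_sq (m : ℕ) {z : ℂ} (hz : ‖z‖ < 1) : ‖KK m z‖ ^ 2 = (RR m).eval 1 / yy z ^ 2 := by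
  rw [← inner_self_eq_norm_sq (𝕜 := ℂ), inner_KK_self m hz, rv]; norm_cast

lemma RR_one_ne (m : ℕ) : (RR m).eval 1 ≠ 0 := fun h => by
  have h0 : ‖(0 : ℂ)‖ < 1 := by simp
  have h1 := norm_KK_sq m h0
  rw [h, zero_div, sq_eq_zero_iff, norm_eq_zero] at h1
  have h2 := inner_KL_poly m h0 ((IsPolyanalytic.hol (differentiableOn_const 1)).mono (by omega))
    (MemLp.coeFn_toLp (memLp_const (μ := dA) (p := 2) (1 : ℂ)))
  rw [show KL m 0 = 0 from congrArg Subtype.val h1, inner_zero_left] at h2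
  exact zero_ne_one h2

end Pool.Agent.P.MP_f074b0_an
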