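import Pool.Agent.P.MP_f074b0_an.Inj

/-! Vanishing Berezin transform forces weak convergence to zero of the shifted symbols. -/

open MeasureTheory Metric Complex Filter Topology Set Polynomial
open scoped ENNReal ComplexConjugate InnerProductSpace

noncomputable section

namespace Pool.Agent.P.MP_f074b0_an

/-- The filter `|z| → 1⁻`. -/
abbrev FF : Filter ℂ := comap norm (𝓝[<] (1 : ℝ))

lemma ev_lt : ∀ᶠ a in FF, ‖a‖ < 1 := tendsto_comap.eventually self_mem_nhdsWithin

lemma tendsto_ph {z : ℂ} (hz : ‖z‖ < 1) : Tendsto (fun a => ph a z) FF FF := by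
  rw [tendsto_comap_iff, tendsto_nhdsWithin_iff]
  refine ⟨?_, ev_lt.mono fun a ha => norm_ph_lt ha hz⟩
  have h1 : Tendsto (fun a : ℂ => ‖a‖) FF (𝓝 1) := tendsto_comap.mono_right nhdsWithin_le_nhds
  have h2 : Tendsto (fun a : ℂ => yy a * (1 / (1 - ‖z‖) ^ 2)) FF (𝓝 0) := by
    have := ((h1.pow 2).const_sub 1).mul_const (1 / (1 - ‖z‖) ^ 2)
    simpa [yy] using this
  have h3 : Tendsto (fun a : ℂ => rho a z) FF (𝓝 0) := by
    refine squeeze_zero' (ev_lt.mono fun a ha => (rho_pos ha hz).le) (ev_lt.mono fun a ha => ?_) h2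
    have e1 := norm_den_ge (a := z) ha.le
    have e2 := yy_pos ha; have e3 := yy_le_one z
    have e4 : 0 < 1 - ‖z‖ := by linarith
    rw [rho, norm_den_comm, mul_div_assoc]; gcongr
  have h4 := (h3.const_sub 1).sqrt
  rw [sub_zero, Real.sqrt_one] at h4
  refine h4.congr' (ev_lt.mono fun a ha => ?_)
  simp only [← yy_ph ha hz.le, yy, sub_sub_cancel, Real.sqrt_sq (norm_nonneg _), Function.comp]

lemma exists_rep {g : ℂ → ℂ} (hm : Measurable g) {C : ℝ} (h0 : 0 ≤ C) (h : ∀ᵐ z ∂dA, ‖g z‖ ≤ C) :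
    ∃ g', Bd g' ∧ g =ᵐ[dA] g' := by
  refine ⟨{z | ‖g z‖ ≤ C}.indicator g, ⟨hm.indicator (measurableSet_le hm.norm measurable_const),
    C, fun z => ?_⟩, h.mono fun z hz => (indicator_of_mem (show z ∈ {z | ‖g z‖ ≤ C} from hz) _).symm⟩
  by_cases hz : z ∈ {z | ‖g z‖ ≤ C}
  · rwa [indicator_of_mem hz]
  · rwa [indicator_of_notMem hz, norm_zero]

lemma ae_bound (g : Lp ℂ 2 dA) {C : ℝ} (h0 : 0 ≤ C)
    (h : ∀ φ : Lp ℂ 2 dA, ‖⟪φ, g⟫_ℂ‖ ≤ ∫ z, ‖φ z‖ * C ∂dA) : ∀ᵐ z ∂dA, ‖g z‖ ≤ C := by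
  have hm := (Lp.stronglyMeasurable g).measurable
  have hS : MeasurableSet {z | C < ‖g z‖} := measurableSet_lt measurable_const hm.norm
  have hφ := (Lp.memLp g).indicator hS
  have e := hφ.coeFn_toLp
  have h1 := h (hφ.toLp _)
  have i1 : Integrable (fun z => ‖hφ.toLp _ z‖ * ‖g z‖) dA := by
    simpa [mul_comm] using (L2.integrable_inner (𝕜 := ℂ) (hφ.toLp _) g).norm
  have i2 := (int_L2 (hφ.toLp _)).norm.mul_const C
  have e2 : ⟪hφ.toLp _, g⟫_ℂ = ((∫ z, ‖hφ.toLp _ z‖ * ‖g z‖ ∂dA : ℝ) : ℂ) := by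
    rw [inner_L2, ← integral_complex_ofReal]
    refine integral_congr_ae (e.mono fun z hz => ?_)
    simp only [hz]
    by_cases hz : z ∈ {z | C < ‖g z‖}
    · rw [indicator_of_mem hz, ← normsq_cplx]; push_cast; ring
    · simp [indicator_of_notMem hz]
  rw [e2, Complex.norm_real] at h1
  have h2 : 0 ≤ᵐ[dA] fun z => ‖hφ.toLp _ z‖ * ‖g z‖ - ‖hφ.toLp _ z‖ * C := e.mono fun z hz => by
    simp only [hz, Pi.zero_apply]
    by_cases hz : z ∈ {z | C < ‖g z‖}
    · rw [indicator_of_mem hz, ← mul_sub]; exact mul_nonneg (norm_nonneg _) (sub_nonneg.2 (le_of_lt hz))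
    · simp [indicator_of_notMem hz]
  have h3 := (integral_eq_zero_iff_of_nonneg_ae h2 (i1.sub i2)).1 (le_antisymm (by
    rw [integral_sub i1 i2]; linarith [le_abs_self (∫ z, ‖hφ.toLp _ z‖ * ‖g z‖ ∂dA),
      Real.norm_eq_abs (∫ z, ‖hφ.toLp _ z‖ * ‖g z‖ ∂dA)]) (integral_nonneg_of_ae h2))
  filter_upwards [h3, e] with z h5 hz
  by_contra hc
  have hc : z ∈ {z | C < ‖g z‖} := not_le.1 hc
  rw [hz, indicator_of_mem hc, ← mul_sub, Pi.zero_apply, mul_eq_zero] at h5
  have hc : C < ‖g z‖ := hc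
  rcases h5 with h5 | h5 <;> linarith

theorem weak_null {f : ℂ → ℂ} (hf : Bd f) (m : ℕ)
    (h : Tendsto (be f ((RR m ^ 2).map ofRealHom)) FF (𝓝 0)) (φ : Lp ℂ 2 dA) :
    Tendsto (fun a => ∫ w, conj (φ w) * f (ph a w) ∂dA) FF (𝓝 0) := by
  obtain ⟨hm, C, hC⟩ := id hf
  have h0 := (norm_nonneg _).trans (hC 0)
  have hF : ∀ a, MemLp (fun w => f (ph a w)) 2 dA := fun a =>
    MemLp.of_bound (Measurable.aestronglyMeasurable (by fun_prop)) C (.of_forall fun _ => hC _)
  have hI : ∀ a (φ : Lp ℂ 2 dA), ⟪φ, (hF a).toLp _⟫_ℂ = ∫ w, conj (φ w) * f (ph a w) ∂dA :=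
    fun a φ => by
    rw [inner_L2]; exact integral_congr_ae ((hF a).coeFn_toLp.mono fun w hw => by simp only [hw])
  rw [tendsto_iff_ultrafilter]
  intro U hU
  obtain ⟨L, -, hL⟩ := (WeakDual.isCompact_closedBall (0 : StrongDual ℂ (Lp ℂ 2 dA))
    (measureUnivNNReal dA ^ (2 : ℝ≥0∞).toReal⁻¹ * C)).ultrafilter_le_nhds'
    (U.map fun a => StrongDual.toWeakDual (innerSL ℂ ((hF a).toLp _))) (by
      rw [Ultrafilter.mem_map]
      refine univ_mem' fun a => ?_
      simp only [mem_preimage, mem_closedBall_zero_iff]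
      change ‖innerSL ℂ ((hF a).toLp _)‖ ≤ _
      rw [innerSL_apply_norm]
      exact Lp.norm_le_of_ae_bound h0 ((hF a).coeFn_toLp.mono fun w hw => by rw [hw]; exact hC _))
  set g := (InnerProductSpace.toDual ℂ (Lp ℂ 2 dA)).symm (WeakDual.toStrongDual L)
  have hg : ∀ φ : Lp ℂ 2 dA,
      Tendsto (fun a => ∫ w, conj (φ w) * f (ph a w) ∂dA) U (𝓝 ⟪φ, g⟫_ℂ) := fun φ => by
    have h1 : Tendsto (fun a => ⟪(hF a).toLp _, φ⟫_ℂ) U (𝓝 (L φ)) :=
      ((WeakDual.eval_continuous φ).tendsto L).comp hL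
    have h2 := (continuous_conj.tendsto _).comp h1
    rw [show L φ = ⟪g, φ⟫_ℂ from (InnerProductSpace.toDual_symm_apply).symm, inner_conj_symm] at h2
    refine h2.congr fun a => ?_
    rw [Function.comp, inner_conj_symm, hI]
  have hb := ae_bound g h0 fun φ => le_of_tendsto' (hg φ).norm fun a =>
    norm_integral_le_of_norm_le ((int_L2 φ).norm.mul_const C) (.of_forall fun w => by
      rw [norm_mul, Complex.norm_conj]; gcongr; exact hC _)
  obtain ⟨g', hg', e⟩ := exists_rep (Lp.stronglyMeasurable g).measurable h0 hb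
  have hz := injective hg' m fun z hz => by
    obtain ⟨M, hM0, hM⟩ := kv_bound ((RR m ^ 2).map ofRealHom)
    have hk : MemLp (fun w => conj (kv ((RR m ^ 2).map ofRealHom) z w)) 2 dA :=
      MemLp.of_bound (Measurable.aestronglyMeasurable (by fun_prop)) (M * (1 / (1 - ‖z‖) ^ 4))
        (ae_ball.mono fun w hw => by
          rw [Complex.norm_conj]
          exact (hM z w hz hw).trans (mul_le_mul_of_nonneg_left (jj_le hz hw.le) hM0))
    have h1 := hg (hk.toLp _)
    have e1 : ⟪hk.toLp _, g⟫_ℂ = be g' ((RR m ^ 2).map ofRealHom) z := by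
      rw [inner_L2, be]
      refine integral_congr_ae ?_
      filter_upwards [hk.coeFn_toLp, e] with w h2 h3
      rw [h2, h3, conj_conj]
    rw [e1] at h1
    refine tendsto_nhds_unique h1 (((h.comp (tendsto_ph hz)).congr' ?_).mono_left hU)
    filter_upwards [ev_lt] with a ha
    rw [Function.comp, ← be_ph f _ ha hz, be]
    exact integral_congr_ae (hk.coeFn_toLp.mono fun w hw => by simp only [hw, conj_conj])
  have : g = 0 := Lp.ext (by
    filter_upwards [hz, e, Lp.coeFn_zero ℂ 2 dA] with z h1 h2 h3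
    rw [h2, h1, h3]; rfl)
  simpa [this] using hg φ

theorem weak_bochner {E : Type} [NormedAddCommGroup E] [NormedSpace ℂ E] [CompleteSpace E]
    {f : ℂ → ℂ} (hf : Bd f) (m : ℕ) (h : Tendsto (be f ((RR m ^ 2).map ofRealHom)) FF (𝓝 0))
    {Θ : ℂ → E} (hΘ : Integrable Θ dA) :
    Tendsto (fun a => ∫ w, f (ph a w) • Θ w ∂dA) FF (𝓝 0) := by
  obtain ⟨hm, C, hC⟩ := id hf
  have h0 := (norm_nonneg _).trans (hC 0)
  have hi : ∀ a {Θ : ℂ → E}, Integrable Θ dA → Integrable (fun w => f (ph a w) • Θ w) dA :=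
    fun a Θ hΘ => hΘ.smul_of_top_right (memLp_top_of_bound
      (Measurable.aestronglyMeasurable (by fun_prop)) C (.of_forall fun _ => hC _))
  refine Integrable.induction
    (fun Θ => Tendsto (fun a => ∫ w, f (ph a w) • Θ w ∂dA) FF (𝓝 0)) ?_ ?_ ?_ ?_ hΘ
  · intro c S hS _
    have hk : MemLp (S.indicator fun _ => (1 : ℂ)) 2 dA := (memLp_const 1).indicator hS
    have := (weak_null hf m h (hk.toLp _)).smul_const c
    rw [zero_smul] at this
    refine this.congr fun a => ?_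
    rw [← integral_smul_const]
    refine integral_congr_ae (hk.coeFn_toLp.mono fun w hw => ?_)
    simp only [hw]
    by_cases hw : w ∈ S <;> simp [hw]
  · intro Θ Θ' _ h1 h2 h3 h4
    have := h3.add h4
    rw [add_zero] at this
    refine this.congr fun a => ?_
    simp only [Pi.add_apply, smul_add]
    exact (integral_add (hi a h1) (hi a h2)).symm
  · refine Equicontinuous.isClosed_setOfPred_tendsto (f := fun _ => 0)
      (F := fun a (Θ : ℂ →₁[dA] E) => ∫ w, f (ph a w) • Θ w ∂dA)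
      (LipschitzWith.uniformEquicontinuous _ ⟨C, h0⟩ fun a => ?_).equicontinuous continuous_const
    refine LipschitzWith.of_dist_le_mul fun Θ Θ' => ?_
    have i1 := L1.integrable_coeFn Θ; have i2 := L1.integrable_coeFn Θ'
    rw [dist_eq_norm, ← integral_sub (hi a i1) (hi a i2), L1.dist_eq_integral_dist,
      ← integral_const_mul]
    refine norm_integral_le_of_norm_le ((i1.sub i2).norm.const_mul C |>.congr
      (.of_forall fun w => by simp only [dist_eq_norm]; rfl)) (.of_forall fun w => ?_)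
    rw [← smul_sub, norm_smul, dist_eq_norm]
    exact mul_le_mul_of_nonneg_right (hC _) (norm_nonneg _)
  · intro Θ Θ' e _ h1
    exact h1.congr fun a => integral_congr_ae (e.mono fun w hw => by simp only [hw])

end Pool.Agent.P.MP_f074b0_an
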